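import Pool.Agent.W_0c5e58_h33.Defs

/-!
# Claim M: cutting a cylinder into `n` cylinders (helper47)
-/

open MeasureTheory Metric Set Filter
open scoped Topology ENNReal

namespace Pool.Cyl

open Pool.TC

/-- the translation by `a` in the third direction -/
noncomputable def up (a : ℝ) : E3 ≃ᵢ E3 := IsometryEquiv.addRight (WithLp.toLp 2 ![0, 0, a] : E3)

theorem up_apply (a : ℝ) (x : E3) : up a x = x + (WithLp.toLp 2 ![0, 0, a] : E3) := rfl

theorem up_pr (a : ℝ) (x : E3) : (WithLp.toLp 2 (fun i : Fin 2 => WithLp.ofLp (up a x)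
    (Fin.castSucc i)) : E2) = WithLp.toLp 2 (fun i : Fin 2 => WithLp.ofLp x (Fin.castSucc i)) := by
  rw [up_apply]
  congr 1
  funext i
  fin_cases i <;> simp

theorem up_two (a : ℝ) (x : E3) : WithLp.ofLp (up a x) 2 = WithLp.ofLp x 2 + a := by
  rw [up_apply]; simp

/-- the floors -/
theorem mem_up_cyl {C : Set E2} {h a : ℝ} {x : E3} : x ∈ up a '' cyl C h ↔
    WithLp.toLp 2 (fun i : Fin 2 => WithLp.ofLp x (Fin.castSucc i)) ∈ C ∧
      a ≤ WithLp.ofLp x 2 ∧ WithLp.ofLp x 2 ≤ a + h := by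
  constructor
  · rintro ⟨y, ⟨h1, h2, h3⟩, rfl⟩
    rw [up_pr, up_two]
    exact ⟨h1, by linarith, by linarith⟩
  · rintro ⟨h1, h2, h3⟩
    refine ⟨(up a).symm x, ?_, (up a).apply_symm_apply x⟩
    have e1 := up_pr a ((up a).symm x)
    have e2 := up_two a ((up a).symm x)
    rw [(up a).apply_symm_apply] at e1 e2
    refine ⟨?_, ?_, ?_⟩
    · rw [← e1]; exact h1
    · linarith
    · linarith

theorem cyl_floors (C : Set E2) {n : ℕ} {h : ℝ} (hn : 0 < n) (hh : 0 < h) :
    cyl C (n * h) = ⋃ k ∈ Finset.range n, up (k * h) '' cyl C h := by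
  ext x
  simp only [mem_iUnion, exists_prop, Finset.mem_range]
  constructor
  · rintro ⟨h1, h2, h3⟩
    have hn' : (1 : ℝ) ≤ n := by exact_mod_cast hn
    rcases lt_or_ge (WithLp.ofLp x 2) (n * h) with hlt | hge
    · have h4 : 0 ≤ WithLp.ofLp x 2 / h := div_nonneg h2 hh.le
      have h5 : (⌊WithLp.ofLp x 2 / h⌋₊ : ℝ) ≤ WithLp.ofLp x 2 / h := Nat.floor_le h4
      have h6 : WithLp.ofLp x 2 / h < ⌊WithLp.ofLp x 2 / h⌋₊ + 1 := Nat.lt_floor_add_one _
      rw [le_div_iff₀ hh] at h5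
      rw [div_lt_iff₀ hh] at h6
      refine ⟨⌊WithLp.ofLp x 2 / h⌋₊, ?_, mem_up_cyl.2 ⟨h1, h5, by linarith⟩⟩
      rw [Nat.floor_lt h4, div_lt_iff₀ hh]
      exact hlt
    · obtain ⟨m, rfl⟩ : ∃ m, n = m + 1 := ⟨n - 1, by omega⟩
      refine ⟨m, by omega, mem_up_cyl.2 ⟨h1, ?_, ?_⟩⟩
      · push_cast at hge; nlinarith
      · push_cast at h3; linarith
  · rintro ⟨k, hk, hx⟩
    obtain ⟨h1, h2, h3⟩ := mem_up_cyl.1 hx
    have hk' : ((k : ℝ) + 1) ≤ n := by exact_mod_cast hk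
    refine ⟨h1, ?_, ?_⟩
    · have : 0 ≤ (k : ℝ) * h := by positivity
      linarith
    · nlinarith

theorem interior_floor {C : Set E2} {a h : ℝ} {x : E3} (hx : x ∈ interior (up a '' cyl C h)) :
    a < WithLp.ofLp x 2 ∧ WithLp.ofLp x 2 < a + h := by
  have hc : IsOpenMap (fun x : E3 => WithLp.ofLp x 2) := by
    have h1 : IsOpenMap (fun f : Fin 3 → ℝ => f 2) := isOpenMap_eval 2
    exact h1.comp (PiLp.homeomorph 2 (fun _ : Fin 3 => ℝ)).isOpenMap
  have h1 : (fun x : E3 => WithLp.ofLp x 2) '' interior (up a '' cyl C h) ⊆ interior (Icc a (a + h)) := by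
    refine interior_maximal ?_ (hc _ isOpen_interior)
    rintro _ ⟨y, hy, rfl⟩
    exact (mem_up_cyl.1 (interior_subset hy)).2
  have h2 := h1 ⟨x, hx, rfl⟩
  rw [interior_Icc] at h2
  exact h2

theorem claimM (C : Set E2) (n : ℕ) (h : ℝ) (hn : 0 < n) (hh : 0 < h) :
    packDensity (cyl C (n * h)) ≤ packDensity (cyl C h) := by
  unfold packDensity
  refine sSup_le ?_
  rintro d ⟨P, hP, hdis, rfl⟩
  refine le_sSup ?_
  choose! g hg using hP
  refine ⟨{B | ∃ A ∈ P, ∃ k ∈ Finset.range n, B = g A '' (up (k * h) '' cyl C h)}, ?_, ?_, ?_⟩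
  · rintro B ⟨A, _, k, _, rfl⟩
    refine ⟨(up (k * h)).trans (g A), ?_⟩
    rw [image_image]
    rfl
  · rintro B ⟨A, hA, k, hk, rfl⟩ B' ⟨A', hA', k', hk', rfl⟩ hne
    have sub : ∀ A ∈ P, ∀ k ∈ Finset.range n, g A '' (up (k * h) '' cyl C h) ⊆ A := by
      intro A hA k hk
      conv_rhs => rw [hg A hA]
      refine image_mono ?_
      rw [cyl_floors C hn hh]
      exact subset_biUnion_of_mem (u := fun k : ℕ => up ((k : ℝ) * h) '' cyl C h) hk
    by_cases hAA : A = A'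
    · subst hAA
      have hkk : k ≠ k' := by
        rintro rfl
        exact hne rfl
      have ei : ∀ S : Set E3, interior (g A '' S) = g A '' interior S := fun S =>
        ((g A).toHomeomorph.image_interior S).symm
      rw [ei, ei]
      refine (disjoint_image_iff (g A).injective).2 ?_
      rw [Set.disjoint_left]
      intro x hx hx'
      obtain ⟨h1, h2⟩ := interior_floor hx
      obtain ⟨h3, h4⟩ := interior_floor hx'
      rcases lt_or_gt_of_ne hkk with hlt | hlt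
      · have : ((k : ℝ) + 1) ≤ k' := by exact_mod_cast hlt
        nlinarith
      · have : ((k' : ℝ) + 1) ≤ k := by exact_mod_cast hlt
        nlinarith
    · exact (hdis hA hA' hAA).mono (interior_mono (sub A hA k hk)) (interior_mono (sub A' hA' k' hk'))
  · have e : ⋃₀ {B | ∃ A ∈ P, ∃ k ∈ Finset.range n, B = g A '' (up (k * h) '' cyl C h)} = ⋃₀ P := by
      ext x
      constructor
      · rintro ⟨B, ⟨A, hA, k, hk, rfl⟩, hx⟩
        refine ⟨A, hA, ?_⟩
        rw [hg A hA]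
        refine image_mono ?_ hx
        rw [cyl_floors C hn hh]
        exact subset_biUnion_of_mem (u := fun k : ℕ => up ((k : ℝ) * h) '' cyl C h) hk
      · rintro ⟨A, hA, hx⟩
        have hx' := hx
        rw [hg A hA, cyl_floors C hn hh] at hx'
        obtain ⟨y, hy, rfl⟩ := hx'
        simp only [mem_iUnion, exists_prop] at hy
        obtain ⟨k, hk, hy⟩ := hy
        exact ⟨_, ⟨A, hA, k, hk, rfl⟩, ⟨y, hy, rfl⟩⟩
    rw [e]

end Pool.Cyl
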