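import Pool.Agent.W_0c5e58_h33.Defs

/-!
# The one-dimensional lemma and the area of the private void region

Midpoint rule: an affine function above the concave profile on an interval has an integral at least
the length times the value of the profile at the midpoint.
-/

open MeasureTheory Metric Set Filter
open scoped Topology ENNReal

namespace Pool.Cyl

open Pool.TC

theorem Area_int_aff (c d a b : ℝ) :
    ∫ p in a..b, (c * p + d) = c * (b ^ 2 - a ^ 2) / 2 + d * (b - a) := by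
  rw [intervalIntegral.integral_add
    ((by fun_prop : Continuous fun p : ℝ => c * p).intervalIntegrable _ _)
    ((by fun_prop : Continuous fun _ : ℝ => d).intervalIntegrable _ _),
    intervalIntegral.integral_const_mul, integral_id, intervalIntegral.integral_const]
  simp only [smul_eq_mul]
  ring

/-- the normalised profile -/
noncomputable def kk (p : ℝ) : ℝ := min 1 (3 / 2 - |p|)

theorem Area_kk_cont : Continuous kk := by
  unfold kk
  fun_prop

theorem Area_int_kk : ∫ p in (-(5 / 4) : ℝ)..(5 / 4), kk p = 31 / 16 := by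
  have hi : ∀ a b : ℝ, IntervalIntegrable kk volume a b :=
    fun a b => Area_kk_cont.intervalIntegrable a b
  rw [← intervalIntegral.integral_add_adjacent_intervals (hi (-(5 / 4)) (-(1 / 2)))
    (hi (-(1 / 2)) (5 / 4)),
    ← intervalIntegral.integral_add_adjacent_intervals (hi (-(1 / 2)) (1 / 2))
    (hi (1 / 2) (5 / 4))]
  have h1 : ∫ p in (-(5 / 4) : ℝ)..(-(1 / 2)), kk p = ∫ p in (-(5 / 4) : ℝ)..(-(1 / 2)),
      (1 * p + 3 / 2) := by
    refine intervalIntegral.integral_congr fun p hp => ?_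
    rw [uIcc_of_le (by norm_num)] at hp
    simp only [kk]
    rw [abs_of_nonpos (by linarith [hp.2]), min_eq_right (by linarith [hp.2])]
    ring
  have h2 : ∫ p in (-(1 / 2) : ℝ)..(1 / 2), kk p = ∫ p in (-(1 / 2) : ℝ)..(1 / 2),
      (0 * p + 1) := by
    refine intervalIntegral.integral_congr fun p hp => ?_
    rw [uIcc_of_le (by norm_num)] at hp
    have : |p| ≤ 1 / 2 := abs_le.2 ⟨hp.1, hp.2⟩
    simp only [kk]
    rw [min_eq_left (by linarith)]
    ring
  have h3 : ∫ p in (1 / 2 : ℝ)..(5 / 4), kk p = ∫ p in (1 / 2 : ℝ)..(5 / 4),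
      ((-1) * p + 3 / 2) := by
    refine intervalIntegral.integral_congr fun p hp => ?_
    rw [uIcc_of_le (by norm_num)] at hp
    simp only [kk]
    rw [abs_of_nonneg (by linarith [hp.1]), min_eq_right (by linarith [hp.1])]
    ring
  rw [h1, h2, h3, Area_int_aff, Area_int_aff, Area_int_aff]
  norm_num

/-- the function of the crossing point -/
theorem Area_phi {z : ℝ} (h1 : -(5 / 4) ≤ z) (h2 : z ≤ 5 / 4) :
    35 / 16 ≤ (z + 5 / 4) * kk ((z - 5 / 4) / 2) + (5 / 4 - z) * kk ((z + 5 / 4) / 2) := by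
  unfold kk
  rw [abs_of_nonpos (by linarith : (z - 5 / 4) / 2 ≤ 0),
    abs_of_nonneg (by linarith : 0 ≤ (z + 5 / 4) / 2)]
  rcases le_total z (1 / 4) with h | h
  · rw [min_eq_right (by linarith : 3 / 2 - -((z - 5 / 4) / 2) ≤ 1)]
    rcases le_total z (-(1 / 4)) with h' | h'
    · rw [min_eq_left (by linarith : (1 : ℝ) ≤ 3 / 2 - (z + 5 / 4) / 2)]
      nlinarith [sq_nonneg (z + 1 / 2)]
    · rw [min_eq_right (by linarith : 3 / 2 - (z + 5 / 4) / 2 ≤ 1)]
      nlinarith [sq_nonneg z]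
  · rw [min_eq_left (by linarith : (1 : ℝ) ≤ 3 / 2 - -((z - 5 / 4) / 2)),
      min_eq_right (by linarith : 3 / 2 - (z + 5 / 4) / 2 ≤ 1)]
    nlinarith [sq_nonneg (z - 1 / 2)]

theorem Area_kk_pos {p : ℝ} (h : |p| ≤ 5 / 4) : 0 ≤ kk p := by
  unfold kk
  exact le_min (by norm_num) (by linarith)

/-- the crossing of two lines: the case where the first is the smaller one on the left -/
theorem Area_cross {a1 b1 a2 b2 z : ℝ}
    (h1 : ∀ p, |p| ≤ 5 / 4 → kk p ≤ a1 * p + b1) (h2 : ∀ p, |p| ≤ 5 / 4 → kk p ≤ a2 * p + b2)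
    (hz1 : -(5 / 4) ≤ z) (hz2 : z ≤ 5 / 4)
    (hc : ∀ p, |p| ≤ 5 / 4 → min (a1 * p + b1) (a2 * p + b2) ≤ 2)
    (hl : ∀ p ∈ Icc (-(5 / 4)) z, a1 * p + b1 ≤ a2 * p + b2)
    (hr : ∀ p ∈ Icc z (5 / 4), a2 * p + b2 ≤ a1 * p + b1) :
    35 / 16 ≤ ∫ p in (-(5 / 4) : ℝ)..(5 / 4), min 2 (min (a1 * p + b1) (a2 * p + b2)) := by
  have hi : ∀ a b : ℝ, IntervalIntegrable
      (fun p => min 2 (min (a1 * p + b1) (a2 * p + b2))) volume a b :=
    fun a b => (by fun_prop : Continuous fun p : ℝ =>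
      min 2 (min (a1 * p + b1) (a2 * p + b2))).intervalIntegrable a b
  rw [← intervalIntegral.integral_add_adjacent_intervals (hi _ z) (hi _ _)]
  have e1 : ∫ p in (-(5 / 4) : ℝ)..z, min 2 (min (a1 * p + b1) (a2 * p + b2)) =
      ∫ p in (-(5 / 4) : ℝ)..z, (a1 * p + b1) := by
    refine intervalIntegral.integral_congr fun p hp => ?_
    rw [uIcc_of_le hz1] at hp
    have hp' : |p| ≤ 5 / 4 := abs_le.2 ⟨hp.1, hp.2.trans hz2⟩
    have := hc p hp'
    rw [min_eq_right this, min_eq_left (hl p hp)]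
  have e2 : ∫ p in z..(5 / 4 : ℝ), min 2 (min (a1 * p + b1) (a2 * p + b2)) =
      ∫ p in z..(5 / 4 : ℝ), (a2 * p + b2) := by
    refine intervalIntegral.integral_congr fun p hp => ?_
    rw [uIcc_of_le hz2] at hp
    have hp' : |p| ≤ 5 / 4 := abs_le.2 ⟨hz1.trans hp.1, hp.2⟩
    have := hc p hp'
    rw [min_eq_right this, min_eq_right (hr p hp)]
  rw [e1, e2, Area_int_aff, Area_int_aff]
  have k1 := h1 ((z - 5 / 4) / 2) (abs_le.2 ⟨by linarith, by linarith⟩)
  have k2 := h2 ((z + 5 / 4) / 2) (abs_le.2 ⟨by linarith, by linarith⟩)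
  have k3 := Area_phi hz1 hz2
  have m1 := mul_le_mul_of_nonneg_left k1 (by linarith : 0 ≤ z + 5 / 4)
  have m2 := mul_le_mul_of_nonneg_left k2 (by linarith : 0 ≤ 5 / 4 - z)
  nlinarith

theorem Area_low {a1 b1 a2 b2 : ℝ}
    (h1 : ∀ p, |p| ≤ 5 / 4 → kk p ≤ a1 * p + b1) (h2 : ∀ p, |p| ≤ 5 / 4 → kk p ≤ a2 * p + b2)
    (hc : ∀ p, |p| ≤ 5 / 4 → min (a1 * p + b1) (a2 * p + b2) ≤ 2)
    (hw : a1 * (-(5 / 4)) + b1 ≤ a2 * (-(5 / 4)) + b2) :
    35 / 16 ≤ ∫ p in (-(5 / 4) : ℝ)..(5 / 4), min 2 (min (a1 * p + b1) (a2 * p + b2)) := by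
  rcases le_or_gt (a1 * (5 / 4) + b1) (a2 * (5 / 4) + b2) with h | h
  · have e1 : ∫ p in (-(5 / 4) : ℝ)..(5 / 4), min 2 (min (a1 * p + b1) (a2 * p + b2)) =
        ∫ p in (-(5 / 4) : ℝ)..(5 / 4), (a1 * p + b1) := by
      refine intervalIntegral.integral_congr fun p hp => ?_
      rw [uIcc_of_le (by norm_num)] at hp
      have hp' : |p| ≤ 5 / 4 := abs_le.2 ⟨hp.1, hp.2⟩
      have := hc p hp'
      have h3 : a1 * p + b1 ≤ a2 * p + b2 := by
        obtain ⟨q1, q2⟩ := hp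
        nlinarith
      rw [min_eq_right this, min_eq_left h3]
    rw [e1, Area_int_aff]
    have := h1 0 (by norm_num)
    have e0 : kk 0 = 1 := by
      unfold kk
      norm_num
    rw [e0] at this
    nlinarith
  · have hd : 0 < a1 - a2 := by nlinarith
    set z : ℝ := (b2 - b1) / (a1 - a2) with hz
    have hz' : (a1 - a2) * z = b2 - b1 := by
      rw [hz]
      field_simp
    refine Area_cross (z := z) h1 h2 ?_ ?_ hc ?_ ?_
    · rw [hz, le_div_iff₀ hd]
      nlinarith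
    · rw [hz, div_le_iff₀ hd]
      nlinarith
    · intro p hp
      have := mul_le_mul_of_nonneg_left hp.2 hd.le
      nlinarith
    · intro p hp
      have := mul_le_mul_of_nonneg_left hp.1 hd.le
      nlinarith

/-- the case where both lines reach the ceiling at `p0` -/
theorem Area_high {a1 b1 a2 b2 p0 : ℝ}
    (h1 : ∀ p, |p| ≤ 5 / 4 → kk p ≤ a1 * p + b1) (h2 : ∀ p, |p| ≤ 5 / 4 → kk p ≤ a2 * p + b2)
    (hp0 : |p0| ≤ 5 / 4) (g1 : 2 ≤ a1 * p0 + b1) (g2 : 2 ≤ a2 * p0 + b2) :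
    35 / 16 ≤ ∫ p in (-(5 / 4) : ℝ)..(5 / 4), min 2 (min (a1 * p + b1) (a2 * p + b2)) := by
  have hcont : Continuous fun p : ℝ => min 2 (min (a1 * p + b1) (a2 * p + b2)) := by fun_prop
  have hi : ∀ a b : ℝ, IntervalIntegrable
      (fun p => min 2 (min (a1 * p + b1) (a2 * p + b2))) volume a b :=
    fun a b => hcont.intervalIntegrable a b
  have hnn : ∀ p, |p| ≤ 5 / 4 → 0 ≤ a1 * p + b1 ∧ 0 ≤ a2 * p + b2 := fun p hp =>
    ⟨(Area_kk_pos hp).trans (h1 p hp), (Area_kk_pos hp).trans (h2 p hp)⟩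
  obtain ⟨l0, r0⟩ := abs_le.1 hp0
  rw [← intervalIntegral.integral_add_adjacent_intervals (hi _ p0) (hi _ _)]
  have hL : p0 + 5 / 4 ≤ ∫ p in (-(5 / 4) : ℝ)..p0, min 2 (min (a1 * p + b1) (a2 * p + b2)) := by
    rcases eq_or_lt_of_le l0 with h | h
    · rw [← h]
      simp
    · have hd : 0 < p0 + 5 / 4 := by linarith
      have e : p0 + 5 / 4 = ∫ p in (-(5 / 4) : ℝ)..p0,
          (2 / (p0 + 5 / 4) * p + 2 / (p0 + 5 / 4) * (5 / 4)) := by
        rw [Area_int_aff]
        have hu : 2 / (p0 + 5 / 4) * (p0 + 5 / 4) = 2 := div_mul_cancel₀ _ hd.ne'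
        linear_combination (-(p0 + 5 / 4) / 2) * hu
      nth_rewrite 1 [e]
      refine intervalIntegral.integral_mono_on l0
        ((by fun_prop : Continuous fun p : ℝ =>
          2 / (p0 + 5 / 4) * p + 2 / (p0 + 5 / 4) * (5 / 4)).intervalIntegrable _ _) (hi _ _) ?_
      intro p hp
      have e2 : 2 / (p0 + 5 / 4) * p + 2 / (p0 + 5 / 4) * (5 / 4) =
          2 * (p + 5 / 4) / (p0 + 5 / 4) := by ring
      obtain ⟨n1, n2⟩ := hnn (-(5 / 4)) (by norm_num)
      rw [e2, div_le_iff₀ hd]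
      refine le_trans ?_ (mul_le_mul_of_nonneg_right (le_refl _) hd.le)
      rw [min_mul_of_nonneg _ _ hd.le, min_mul_of_nonneg _ _ hd.le]
      have hp1 : 0 ≤ p + 5 / 4 := by linarith [hp.1]
      have hp2 : 0 ≤ p0 - p := by linarith [hp.2]
      refine le_min ?_ (le_min ?_ ?_)
      · nlinarith
      · nlinarith [mul_nonneg n1 hp2, mul_nonneg (sub_nonneg.2 g1) hp1]
      · nlinarith [mul_nonneg n2 hp2, mul_nonneg (sub_nonneg.2 g2) hp1]
  have hR : 5 / 4 - p0 ≤ ∫ p in p0..(5 / 4 : ℝ), min 2 (min (a1 * p + b1) (a2 * p + b2)) := by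
    rcases eq_or_lt_of_le r0 with h | h
    · rw [h]
      simp
    · have hd : 0 < 5 / 4 - p0 := by linarith
      have e : 5 / 4 - p0 = ∫ p in p0..(5 / 4 : ℝ),
          (-(2 / (5 / 4 - p0)) * p + 2 / (5 / 4 - p0) * (5 / 4)) := by
        rw [Area_int_aff]
        have hu : 2 / (5 / 4 - p0) * (5 / 4 - p0) = 2 := div_mul_cancel₀ _ hd.ne'
        linear_combination (-(5 / 4 - p0) / 2) * hu
      nth_rewrite 1 [e]
      refine intervalIntegral.integral_mono_on r0
        ((by fun_prop : Continuous fun p : ℝ =>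
          -(2 / (5 / 4 - p0)) * p + 2 / (5 / 4 - p0) * (5 / 4)).intervalIntegrable _ _) (hi _ _) ?_
      intro p hp
      have e2 : -(2 / (5 / 4 - p0)) * p + 2 / (5 / 4 - p0) * (5 / 4) =
          2 * (5 / 4 - p) / (5 / 4 - p0) := by ring
      obtain ⟨n1, n2⟩ := hnn (5 / 4) (by norm_num [abs_of_pos])
      rw [e2, div_le_iff₀ hd]
      rw [min_mul_of_nonneg _ _ hd.le, min_mul_of_nonneg _ _ hd.le]
      have hp1 : 0 ≤ 5 / 4 - p := by linarith [hp.2]
      have hp2 : 0 ≤ p - p0 := by linarith [hp.1]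
      refine le_min ?_ (le_min ?_ ?_)
      · nlinarith
      · nlinarith [mul_nonneg n1 hp2, mul_nonneg (sub_nonneg.2 g1) hp1]
      · nlinarith [mul_nonneg n2 hp2, mul_nonneg (sub_nonneg.2 g2) hp1]
  linarith

/-- the one-dimensional lemma -/
theorem Area_core {a1 b1 a2 b2 : ℝ}
    (h1 : ∀ p, |p| ≤ 5 / 4 → kk p ≤ a1 * p + b1) (h2 : ∀ p, |p| ≤ 5 / 4 → kk p ≤ a2 * p + b2) :
    35 / 16 ≤ ∫ p in (-(5 / 4) : ℝ)..(5 / 4), min 2 (min (a1 * p + b1) (a2 * p + b2)) := by
  by_cases hc : ∀ p, |p| ≤ 5 / 4 → min (a1 * p + b1) (a2 * p + b2) ≤ 2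
  · rcases le_total (a1 * (-(5 / 4)) + b1) (a2 * (-(5 / 4)) + b2) with hw | hw
    · exact Area_low h1 h2 hc hw
    · have h := Area_low h2 h1 (fun p hp => by rw [min_comm]; exact hc p hp) hw
      have e : (fun p : ℝ => min 2 (min (a2 * p + b2) (a1 * p + b1))) =
          fun p => min 2 (min (a1 * p + b1) (a2 * p + b2)) := by
        funext p
        rw [min_comm (a2 * p + b2)]
      rwa [e] at h
  · push Not at hc
    obtain ⟨p0, hp0, hlt⟩ := hc
    obtain ⟨g1, g2⟩ := lt_min_iff.1 hlt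
    exact Area_high h1 h2 hp0 g1.le g2.le

/-- the plane region between the profile and the minimum of two lines and the ceiling `2 s` -/
theorem area_two {s : ℝ} (hs : 0 < s) {a1 b1 a2 b2 : ℝ}
    (h1 : ∀ p, |p| ≤ 5 / 4 → kap s p ≤ a1 * p + b1)
    (h2 : ∀ p, |p| ≤ 5 / 4 → kap s p ≤ a2 * p + b2) :
    ENNReal.ofReal (s / 4) ≤ volume {x : E2 | |x 0| ≤ 5 / 4 ∧ kap s (x 0) < x 1 ∧ x 1 < 2 * s ∧
      x 1 < a1 * x 0 + b1 ∧ x 1 < a2 * x 0 + b2} := by
  have hk : ∀ p, kap s p = s * kk p := fun p => rfl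
  set G : ℝ → ℝ := fun p => min (2 * s) (min (a1 * p + b1) (a2 * p + b2)) with hG
  have hGc : Continuous G := by
    rw [hG]
    fun_prop
  have hkc : Continuous (kap s) := by
    have : kap s = fun p => s * kk p := rfl
    rw [this]
    exact continuous_const.mul Area_kk_cont
  have hle : ∀ p ∈ Icc (-(5 / 4) : ℝ) (5 / 4), kap s p ≤ G p := by
    intro p hp
    have hp' : |p| ≤ 5 / 4 := abs_le.2 ⟨hp.1, hp.2⟩
    refine le_min ?_ (le_min (h1 p hp') (h2 p hp'))
    rw [hk]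
    have : kk p ≤ 1 := min_le_left _ _
    nlinarith
  -- the set as a preimage
  have hmp := (volume_preserving_finTwoArrow ℝ).comp
    (EuclideanSpace.volume_preserving_symm_measurableEquiv_toLp (Fin 2))
  have hset : {x : E2 | |x 0| ≤ 5 / 4 ∧ kap s (x 0) < x 1 ∧ x 1 < 2 * s ∧
      x 1 < a1 * x 0 + b1 ∧ x 1 < a2 * x 0 + b2} =
      ((@MeasurableEquiv.finTwoArrow ℝ _) ∘ (MeasurableEquiv.toLp 2 (Fin 2 → ℝ)).symm) ⁻¹'
        regionBetween (kap s) G (Icc (-(5 / 4)) (5 / 4)) := by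
    ext x
    have e : ((@MeasurableEquiv.finTwoArrow ℝ _) ∘ (MeasurableEquiv.toLp 2 (Fin 2 → ℝ)).symm) x =
        (x 0, x 1) := rfl
    rw [mem_preimage, e]
    simp only [regionBetween, mem_ofPred_eq, mem_Ioo, mem_Icc, hG, lt_min_iff, abs_le]
  rw [hset, hmp.measure_preimage (measurableSet_regionBetween hkc.measurable hGc.measurable
    measurableSet_Icc).nullMeasurableSet]
  have e := volume_regionBetween_eq_integral (μ := volume) (f := kap s) (g := G)
    (hkc.integrableOn_Icc) (hGc.integrableOn_Icc)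
    (measurableSet_Icc (a := (-(5 / 4) : ℝ)) (b := 5 / 4)) hle
  have e' : (volume : Measure (ℝ × ℝ)) = (volume : Measure ℝ).prod volume := rfl
  rw [e', e]
  refine ENNReal.ofReal_le_ofReal ?_
  rw [integral_Icc_eq_integral_Ioc, ← intervalIntegral.integral_of_le (by norm_num)]
  have h1' : ∀ p, |p| ≤ 5 / 4 → kk p ≤ a1 / s * p + b1 / s := by
    intro p hp
    have := h1 p hp
    rw [hk] at this
    have e3 : a1 / s * p + b1 / s = (a1 * p + b1) / s := by ring
    rw [e3, le_div_iff₀ hs]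
    linarith
  have h2' : ∀ p, |p| ≤ 5 / 4 → kk p ≤ a2 / s * p + b2 / s := by
    intro p hp
    have := h2 p hp
    rw [hk] at this
    have e3 : a2 / s * p + b2 / s = (a2 * p + b2) / s := by ring
    rw [e3, le_div_iff₀ hs]
    linarith
  have hcore := Area_core h1' h2'
  have e4 : (fun p => (G - kap s) p) = fun p =>
      s * min 2 (min (a1 / s * p + b1 / s) (a2 / s * p + b2 / s)) - s * kk p := by
    funext p
    have : G p = s * min 2 (min (a1 / s * p + b1 / s) (a2 / s * p + b2 / s)) := by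
      rw [mul_min_of_nonneg _ _ hs.le, mul_min_of_nonneg _ _ hs.le, hG]
      have e5 : s * (a1 / s * p + b1 / s) = a1 * p + b1 := by
        field_simp
      have e6 : s * (a2 / s * p + b2 / s) = a2 * p + b2 := by
        field_simp
      rw [e5, e6, mul_comm s 2]
    rw [Pi.sub_apply, this, hk]
  rw [e4, intervalIntegral.integral_sub, intervalIntegral.integral_const_mul,
    intervalIntegral.integral_const_mul, Area_int_kk]
  · nlinarith
  · exact (by fun_prop : Continuous fun p : ℝ =>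
      s * min 2 (min (a1 / s * p + b1 / s) (a2 / s * p + b2 / s))).intervalIntegrable _ _
  · exact (continuous_const.mul Area_kk_cont).intervalIntegrable _ _

/-- the box above the trimmed side has area at most `5 s` -/
theorem area_box {s : ℝ} (hs : 0 < s) :
    volume {x : E2 | |x 0| ≤ 5 / 4 ∧ kap s (x 0) < x 1 ∧ x 1 < 2 * s} ≤
      ENNReal.ofReal (5 * s) := by
  have hmp := (volume_preserving_finTwoArrow ℝ).comp
    (EuclideanSpace.volume_preserving_symm_measurableEquiv_toLp (Fin 2))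
  have hsub : {x : E2 | |x 0| ≤ 5 / 4 ∧ kap s (x 0) < x 1 ∧ x 1 < 2 * s} ⊆
      ((@MeasurableEquiv.finTwoArrow ℝ _) ∘ (MeasurableEquiv.toLp 2 (Fin 2 → ℝ)).symm) ⁻¹'
        (Icc (-(5 / 4)) (5 / 4) ×ˢ Icc 0 (2 * s)) := by
    rintro x ⟨h1, h2, h3⟩
    have e : ((@MeasurableEquiv.finTwoArrow ℝ _) ∘ (MeasurableEquiv.toLp 2 (Fin 2 → ℝ)).symm) x =
        (x 0, x 1) := rfl
    rw [mem_preimage, e]
    have hk : 0 ≤ kap s (x 0) := mul_nonneg hs.le (Area_kk_pos h1)
    exact ⟨abs_le.1 h1, ⟨hk.trans h2.le, h3.le⟩⟩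
  refine (measure_mono hsub).trans ?_
  rw [hmp.measure_preimage (measurableSet_Icc.prod measurableSet_Icc).nullMeasurableSet]
  have e' : (volume : Measure (ℝ × ℝ)) = (volume : Measure ℝ).prod volume := rfl
  rw [e', Measure.prod_prod, Real.volume_Icc, Real.volume_Icc,
    ← ENNReal.ofReal_mul (by norm_num)]
  exact ENNReal.ofReal_le_ofReal (by linarith)

end Pool.Cyl
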