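import Pool.Agent.W_0c5e58_h33.Cell
import Pool.Agent.W_0c5e58_h33.Area

/-!
# Area of the regions of good bodies
-/

open MeasureTheory Metric Set Filter
open scoped Topology ENNReal

namespace Pool.Cyl

open Pool.TC

theorem Half_inner (x y : E2) : inner ℝ x y = x 0 * y 0 + x 1 * y 1 := GPrism_inner2 x y

theorem Half_kap_nonneg {s p : ℝ} (hs : 0 < s) (hp : |p| ≤ 5 / 4) : 0 ≤ kap s p := by
  unfold kap
  apply mul_nonneg hs.le
  apply le_min <;> linarith

theorem Half_kap_le {s p : ℝ} (hs : 0 < s) : kap s p ≤ s := by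
  unfold kap
  nlinarith [min_le_left (1 : ℝ) (3 / 2 - |p|)]

theorem Half_kap_le' {s p : ℝ} (hs : 0 < s) : kap s p ≤ s * (3 / 2 - |p|) := by
  unfold kap
  nlinarith [min_le_right (1 : ℝ) (3 / 2 - |p|)]

/-- the points of the roof are in the body -/
theorem Half_roof_mem {s p : ℝ} (hs : 0 < s) (hs' : s ≤ 1 / 100) (hp : |p| ≤ 5 / 4) :
    pt p (kap s p) ∈ K s := by
  have h0 := Half_kap_nonneg hs hp
  have h1 := Half_kap_le' (p := p) hs
  refine ⟨?_, ?_, ?_⟩
  · simp only [pt_one]; linarith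
  · simp only [pt_zero, pt_one]
    have h2 : 96 * kap s p ≤ 3 / 2 - |p| := by
      have h3 : 0 ≤ 3 / 2 - |p| := by linarith
      nlinarith
    have h4 := abs_sub p (96 * kap s p)
    rw [abs_of_nonneg (show 0 ≤ 96 * kap s p by linarith)] at h4
    linarith
  · simp only [pt_zero, pt_one]; exact le_rfl

/-- A half plane containing the body whose boundary passes within `ε` of the trimmed side is the
region below a line: (row 527, 1.4).  `u 0` is small: `3/2 * |u 0| ≤ c ≤ u 0 * p + ε`, so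
`|u 0| ≤ 4 ε ≤ 1/500`; `(-3, -1/32)` in the body: `-3 u 0 - u 1 / 32 ≤ c ≤ 5/4 |u 0| + ε`, so
`u 1 > -1`, and `u 1 ^ 2 = 1 - u 0 ^ 2 ≥ 0.99`, hence `u 1 > 0`.  Then `L(p) = (c - u 0 * p) / u 1`
and `L ≥ kap` because the points `(p, kap s p)` are in the body for `|p| ≤ 3/2`. -/
theorem half_graph {s : ℝ} (hs : 0 < s) (hs' : s ≤ 1 / 100) {u z y : E2} {c ε : ℝ}
    (hu : ‖u‖ = 1) (hε : 0 ≤ ε) (hε' : ε ≤ 1 / 4000) (hK : ∀ x ∈ K s, inner ℝ u x ≤ c)
    (hz : c ≤ inner ℝ u z) (hy : y ∈ seg) (hzy : dist z y ≤ ε) :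
    ∃ a b : ℝ, (∀ p, |p| ≤ 5 / 4 → kap s p ≤ a * p + b) ∧
      ∀ x : E2, inner ℝ u x < c ↔ x 1 < a * x 0 + b := by
  obtain ⟨hy0, hy1⟩ := hy
  -- the unit vector
  have hn : u 0 * u 0 + u 1 * u 1 = 1 := by
    have h1 : inner ℝ u u = ‖u‖ ^ 2 := real_inner_self_eq_norm_sq u
    rw [hu, Half_inner] at h1
    linarith
  -- upper bound of `c`
  have hc1 : c ≤ u 0 * y 0 + ε := by
    have h1 : inner ℝ u z = inner ℝ u y + inner ℝ u (z - y) := by
      rw [← inner_add_right]; congr 1; abel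
    have h2 : inner ℝ u (z - y) ≤ ‖u‖ * ‖z - y‖ := real_inner_le_norm _ _
    rw [hu, one_mul, ← dist_eq_norm] at h2
    rw [Half_inner u y, hy1, mul_zero, add_zero] at h1
    linarith
  have hc2 : c ≤ 5 / 4 * |u 0| + ε := by
    have h1 : u 0 * y 0 ≤ |u 0| * |y 0| := by
      rw [← abs_mul]; exact le_abs_self _
    nlinarith [abs_nonneg (u 0), abs_nonneg (y 0)]
  -- lower bounds
  have hc3 : 3 / 2 * |u 0| ≤ c := by
    have h1 := hK _ (seg_mem (p := 3 / 2) hs.le (by norm_num [abs_of_pos]))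
    have h2 := hK _ (seg_mem (p := -(3 / 2)) hs.le (by rw [abs_neg]; norm_num [abs_of_pos]))
    rw [Half_inner] at h1 h2
    simp only [pt_zero, pt_one] at h1 h2
    rcases abs_cases (u 0) with ⟨h, _⟩ | ⟨h, _⟩ <;> rw [h] <;> linarith
  have hu0 : |u 0| ≤ 4 * ε := by linarith
  have hc4 := hK _ (low_mem hs.le hs')
  rw [Half_inner] at hc4
  simp only [pt_zero, pt_one] at hc4
  have hu1 : 0 < u 1 := by
    by_contra hneg
    push Not at hneg
    have h1 : -(144 / 1000) ≤ u 1 := by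
      have h2 := le_abs_self (u 0)
      linarith
    have h3 : u 1 * u 1 ≤ 1 / 4 := by nlinarith
    have h4 : u 0 * u 0 ≤ 1 / 4 := by
      have h5 : |u 0| * |u 0| = u 0 * u 0 := abs_mul_abs_self _
      rw [← h5]
      nlinarith [abs_nonneg (u 0)]
    linarith
  have hx : ∀ x : E2, -(u 0) / u 1 * x 0 + c / u 1 = (c - u 0 * x 0) / u 1 := by
    intro x; field_simp; ring
  refine ⟨-(u 0) / u 1, c / u 1, fun p hp => ?_, fun x => ?_⟩
  · have h1 := hK _ (Half_roof_mem hs hs' hp)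
    rw [Half_inner] at h1
    simp only [pt_zero, pt_one] at h1
    have h2 : -(u 0) / u 1 * p + c / u 1 = (c - u 0 * p) / u 1 := by field_simp; ring
    rw [h2, le_div_iff₀ hu1]
    linarith
  · rw [hx, lt_div_iff₀ hu1, Half_inner]
    constructor <;> intro h <;> linarith

variable {κ : Type} {s : ℝ} {g : κ → E2 ≃ᵢ E2}

/-- the line of a near body in the coordinates of body `i` -/
theorem Half_line (hs : 0 < s) (hs' : s ≤ 1 / 100) {ε : ℝ} (hε : 0 ≤ ε)
    (hε' : ε ≤ 1 / 4000) (D : Seps s g) (i j : κ) (hN : Near s ε g i j) :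
    ∃ a b : ℝ, (∀ p, |p| ≤ 5 / 4 → kap s p ≤ a * p + b) ∧
      ∀ x : E2, x 1 < a * x 0 + b → inner ℝ (D.u i j) (g i x) < D.c i j := by
  obtain ⟨hji, z, hz, y, ⟨y', hy', rfl⟩, hzy⟩ := hN
  have hij : i ≠ j := hji.symm
  set A := g i with hA
  set L := A.toRealLinearIsometryEquiv with hL
  have hgx : ∀ x : E2, A x = L x + A 0 := by
    intro x; simp [hL]
  have hin : ∀ x : E2, inner ℝ (D.u i j) (A x) =
      inner ℝ (L.symm (D.u i j)) x + inner ℝ (D.u i j) (A 0) := by
    intro x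
    rw [hgx x, inner_add_right]
    congr 1
    rw [← L.inner_map_map (L.symm (D.u i j)) x, LinearIsometryEquiv.apply_symm_apply]
  have hunit : ‖L.symm (D.u i j)‖ = 1 := by
    rw [LinearIsometryEquiv.norm_map]; exact D.unit i j hij
  have hKK : ∀ x ∈ K s, inner ℝ (L.symm (D.u i j)) x ≤
      D.c i j - inner ℝ (D.u i j) (A 0) := by
    intro x hx
    have h1 := D.le i j hij (A x) ⟨x, hx, rfl⟩
    rw [hin] at h1
    linarith
  have hzz : D.c i j - inner ℝ (D.u i j) (A 0) ≤ inner ℝ (L.symm (D.u i j)) (A.symm z) := by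
    have h1 := D.le j i hji z hz
    rw [D.usymm i j hij, D.csymm i j hij, inner_neg_left] at h1
    have h2 := hin (A.symm z)
    rw [IsometryEquiv.apply_symm_apply] at h2
    linarith
  have hd : dist (A.symm z) y' ≤ ε := by
    rw [← A.dist_eq, IsometryEquiv.apply_symm_apply]
    exact hzy
  obtain ⟨a, b, h1, h2⟩ := half_graph hs hs' hunit hε hε' hKK hzz hy' hd
  refine ⟨a, b, h1, fun x hx => ?_⟩
  have h3 := (h2 x).2 hx
  rw [hin]
  linarith

/-- good bodies: the isometry `g i` preserves areas; in its coordinates the region is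
`box s` below at most two lines (`half_graph` for the pulled back half planes: `g i` is affine,
`inner u (g i x)` is an affine function with the pulled back unit vector), then `area_two`
(with the same line twice, or the line `x 1 < 2 s`, if there are fewer than two). -/
theorem U_area [Finite κ] (hs : 0 < s) (hs' : s ≤ 1 / 100) {ε : ℝ} (hε : 0 ≤ ε)
    (hε' : ε ≤ 1 / 4000) (D : Seps s g) (i : κ) {j₁ j₂ : κ}
    (hN : ∀ j, Near s ε g i j → j = j₁ ∨ j = j₂) :
    ENNReal.ofReal (s / 4) ≤ volume (U D ε i) := by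
  have key : ∀ j : κ, ∃ a b : ℝ, (∀ p, |p| ≤ 5 / 4 → kap s p ≤ a * p + b) ∧
      (Near s ε g i j → ∀ x : E2, x 1 < a * x 0 + b → inner ℝ (D.u i j) (g i x) < D.c i j) := by
    intro j
    by_cases h : Near s ε g i j
    · obtain ⟨a, b, h1, h2⟩ := Half_line hs hs' hε hε' D i j h
      exact ⟨a, b, h1, fun _ => h2⟩
    · refine ⟨0, s, fun p _ => ?_, fun h' => absurd h' h⟩
      have := Half_kap_le (p := p) hs
      linarith
  obtain ⟨a₁, b₁, h₁, h₁'⟩ := key j₁
  obtain ⟨a₂, b₂, h₂, h₂'⟩ := key j₂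
  refine (area_two hs h₁ h₂).trans ?_
  rw [← vol_isom (g i)]
  apply measure_mono
  rintro _ ⟨x, ⟨hx0, hx1, hx2, hx3, hx4⟩, rfl⟩
  refine ⟨⟨x, ⟨hx0, hx1, hx2⟩, rfl⟩, fun j hj => ?_⟩
  rcases hN j hj with rfl | rfl
  · exact h₁' hj x hx3
  · exact h₂' hj x hx4

/-- at most `5 s`: `area_box` and the isometry `g i` -/
theorem U_area_le (hs : 0 < s) (ε : ℝ) (D : Seps s g) (i : κ) :
    volume (U D ε i) ≤ ENNReal.ofReal (5 * s) := by
  refine le_trans (measure_mono (inter_subset_left : U D ε i ⊆ g i '' box s)) ?_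
  rw [vol_isom (g i)]
  exact area_box hs

end Pool.Cyl
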