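import Pool.Agent.W_0c5e58_h33.Basic

/-!
# The three claims and the frozen statement from them
-/

open MeasureTheory Metric Set Filter
open scoped Topology ENNReal

namespace Pool.Cyl

open Pool.TC

/-- Claim P: the packing density of the body in the plane -/
def ClaimP : Prop := ∃ s₀ > 0, ∀ s, 0 < s → s < s₀ → packDensity (K s) ≤ volume (K s) / volume (H s)

/-- Claim S: long cylinders over the body pack better -/
def ClaimS : Prop := ∀ s, 0 < s → s < 1 / 100 → ∃ h₀ > 0, ∀ h, h₀ ≤ h →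
  volume (K s) / volume (H s) < packDensity (cyl (K s) h)

/-- Claim M: cutting a cylinder into `n` cylinders -/
def ClaimM : Prop := ∀ (C : Set E2) (n : ℕ) (h : ℝ), 0 < n → 0 < h →
  packDensity (cyl C (n * h)) ≤ packDensity (cyl C h)

theorem K_basic {s : ℝ} (hs : 0 ≤ s) (hs' : s ≤ 1 / 100) :
    IsCompact (K s) ∧ Convex ℝ (K s) ∧ (interior (K s)).Nonempty :=
  ⟨isCompact_K hs hs', convex_K hs, (T₀_sub_interior hs hs').2.mono (T₀_sub_interior hs hs').1⟩

theorem final (hP : ClaimP) (hS : ClaimS) (hM : ClaimM) :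
    ¬ (∀ K : Set (EuclideanSpace ℝ (Fin 2)), IsCompact K → Convex ℝ K → (interior K).Nonempty →
    ∃ h : ℝ, 0 < h ∧
      sSup {d : ℝ≥0∞ | ∃ P : Set (Set (EuclideanSpace ℝ (Fin 3))),
          (∀ A ∈ P, ∃ g : EuclideanSpace ℝ (Fin 3) ≃ᵢ EuclideanSpace ℝ (Fin 3),
             A = g '' {x : EuclideanSpace ℝ (Fin 3) |
               WithLp.toLp 2 (fun i : Fin 2 => WithLp.ofLp x (Fin.castSucc i)) ∈ K ∧
               0 ≤ WithLp.ofLp x 2 ∧ WithLp.ofLp x 2 ≤ h}) ∧
          P.Pairwise (fun A B => Disjoint (interior A) (interior B)) ∧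
          d = Filter.limsup (fun r : ℝ =>
                volume (⋃₀ P ∩ Metric.ball (0 : EuclideanSpace ℝ (Fin 3)) r) /
                volume (Metric.ball (0 : EuclideanSpace ℝ (Fin 3)) r)) Filter.atTop}
      =
      sSup {d : ℝ≥0∞ | ∃ P : Set (Set (EuclideanSpace ℝ (Fin 2))),
          (∀ A ∈ P, ∃ g : EuclideanSpace ℝ (Fin 2) ≃ᵢ EuclideanSpace ℝ (Fin 2), A = g '' K) ∧
          P.Pairwise (fun A B => Disjoint (interior A) (interior B)) ∧
          d = Filter.limsup (fun r : ℝ =>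
                volume (⋃₀ P ∩ Metric.ball (0 : EuclideanSpace ℝ (Fin 2)) r) /
                volume (Metric.ball (0 : EuclideanSpace ℝ (Fin 2)) r)) Filter.atTop}) := by
  intro hQ
  obtain ⟨s₀, hs₀, HP⟩ := hP
  obtain ⟨s, hs, hs1, hs2⟩ : ∃ s : ℝ, 0 < s ∧ s < s₀ ∧ s < 1 / 100 :=
    ⟨min s₀ (1 / 100) / 2, by positivity,
      by have := min_le_left s₀ (1 / 100 : ℝ); have : 0 < min s₀ (1 / 100 : ℝ) := by positivity
         linarith,
      by have := min_le_right s₀ (1 / 100 : ℝ); have : 0 < min s₀ (1 / 100 : ℝ) := by positivity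
         linarith⟩
  obtain ⟨hc, hcv, hi⟩ := K_basic hs.le hs2.le
  obtain ⟨h, hh, heq⟩ := hQ (K s) hc hcv hi
  obtain ⟨h₀, hh₀, HS⟩ := hS s hs hs2
  obtain ⟨n, hn⟩ := exists_nat_ge (h₀ / h)
  have hn' : h₀ ≤ (n + 1 : ℕ) * h := by
    rw [div_le_iff₀ hh] at hn
    push_cast
    nlinarith
  have h1 := HS _ hn'
  have h2 := hM (K s) (n + 1) h (Nat.succ_pos n) hh
  have h3 := HP s hs hs1
  have h4 : packDensity (cyl (K s) h) = packDensity (K s) := heq
  rw [h4] at h2
  exact absurd (h1.trans_le (h2.trans h3)) (lt_irrefl _)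

end Pool.Cyl
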