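import Pool.Agent.W_0c5e58_h33.Reduce
import Pool.Agent.W_0c5e58_h33.Half
import Pool.Agent.W_0c5e58_h33.Main

/-!
# Claim P
-/

open MeasureTheory Metric Set Filter
open scoped Topology ENNReal

namespace Pool.Cyl

open Pool.TC

/-- `i` is good: at most two near bodies -/
def Good {κ : Type} (s ε : ℝ) (g : κ → E2 ≃ᵢ E2) (i : κ) : Prop :=
  ∃ j₁ j₂, ∀ j, Near s ε g i j → j = j₁ ∨ j = j₂

/-- a body which is not good has three different near bodies -/
theorem not_good {κ : Type} {s ε : ℝ} {g : κ → E2 ≃ᵢ E2} {i : κ} (h : ¬ Good s ε g i) :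
    ∃ j₁ j₂ j₃, j₁ ≠ j₂ ∧ j₁ ≠ j₃ ∧ j₂ ≠ j₃ ∧ Near s ε g i j₁ ∧ Near s ε g i j₂ ∧ Near s ε g i j₃ := by
  have h' : ∀ j₁ j₂ : κ, ∃ j, Near s ε g i j ∧ j ≠ j₁ ∧ j ≠ j₂ := by
    intro j₁ j₂
    by_contra hne
    apply h
    refine ⟨j₁, j₂, fun j hj => ?_⟩
    by_contra h2
    push Not at h2
    exact hne ⟨j, hj, h2⟩
  obtain ⟨a, ha, -, -⟩ := h' i i
  obtain ⟨b, hb, hba, -⟩ := h' a a
  obtain ⟨c, hc, hca, hcb⟩ := h' a b
  exact ⟨a, b, c, hba.symm, hca.symm, hcb.symm, ha, hb, hc⟩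

/-- multiplicity: if every point is in at most `N` of the sets `A i ⊆ V`, then
`∑ volume (A i) ≤ N * volume V` -/
private theorem Sum_mult {κ : Type} (J : Finset κ) (A : κ → Set E2) (V : Set E2)
    (hA : ∀ i ∈ J, MeasurableSet (A i)) (hV : MeasurableSet V) (hAV : ∀ i ∈ J, A i ⊆ V) (N : ℕ)
    (hN : ∀ (x : E2) (T : Finset κ), T ⊆ J → (∀ i ∈ T, x ∈ A i) → T.card ≤ N) :
    ∑ i ∈ J, volume (A i) ≤ N * volume V := by
  classical
  have h1 : ∀ i ∈ J, volume (A i) = ∫⁻ x, (A i).indicator 1 x := by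
    intro i hi
    rw [lintegral_indicator_one (hA i hi)]
  rw [Finset.sum_congr rfl h1, ← lintegral_finsetSum' J
    (fun i hi => (measurable_one.indicator (hA i hi)).aemeasurable)]
  have h2 : (N : ℝ≥0∞) * volume V = ∫⁻ x, V.indicator (fun _ => (N : ℝ≥0∞)) x := by
    rw [lintegral_indicator_const hV]
  rw [h2]
  apply lintegral_mono
  intro x
  simp only
  have h3 : ∑ i ∈ J, (A i).indicator (1 : E2 → ℝ≥0∞) x = ((J.filter fun i => x ∈ A i).card : ℝ≥0∞) := by
    rw [Finset.card_filter]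
    push_cast
    apply Finset.sum_congr rfl
    intro i _
    by_cases hx : x ∈ A i <;> simp [hx]
  rw [h3]
  by_cases hx : x ∈ V
  · rw [indicator_of_mem hx]
    have := hN x (J.filter fun i => x ∈ A i) (Finset.filter_subset _ _)
      (fun i hi => (Finset.mem_filter.1 hi).2)
    exact_mod_cast this
  · rw [indicator_of_notMem hx]
    have : (J.filter fun i => x ∈ A i) = ∅ := by
      apply Finset.filter_eq_empty_iff.2
      intro i hi hxi
      exact hx (hAV i hi hxi)
    rw [this]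
    simp

/-- the void around a bad body -/
private theorem Sum_bad {κ : Type} [Fintype κ] {c₀ : ℝ} (hc : 0 < c₀) (hc' : c₀ ≤ 1 / 4000) {s : ℝ}
    (hs : 0 < s) (hsc : s ≤ c₀ / 200000) (g : κ → E2 ≃ᵢ E2)
    (hd : Pairwise fun i j => Disjoint (interior (g i '' K s)) (interior (g j '' K s)))
    (D : Seps s g) (G : Finset κ) (i : κ) {B : Set E2} (hB : ball (g i 0) 2 ⊆ B)
    (hv : ENNReal.ofReal c₀ ≤ volume (ball (g i 0) 2 \ ⋃ j, g j '' K s)) :
    ENNReal.ofReal (c₀ / 2) ≤
      volume (ball (g i 0) 2 ∩ ((B \ ⋃ j, g j '' K s) \ ⋃ j ∈ G, U D c₀ j)) := by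
  classical
  have hs' : s ≤ 1 / 100 := by linarith
  set J : Finset κ := G.filter fun j => dist (g j 0) (g i 0) < 4 with hJ
  have hJc : J.card ≤ 11000 := by
    apply count_le hs hs' g hd (g i 0) J
    intro j hj
    have := (Finset.mem_filter.1 hj).2
    linarith
  have hsub : ball (g i 0) 2 \ ⋃ j, g j '' K s ⊆
      (ball (g i 0) 2 ∩ ((B \ ⋃ j, g j '' K s) \ ⋃ j ∈ G, U D c₀ j)) ∪ ⋃ j ∈ J, U D c₀ j := by
    rintro x ⟨hx1, hx2⟩
    by_cases hx : x ∈ ⋃ j ∈ G, U D c₀ j
    · right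
      rw [mem_iUnion₂] at hx ⊢
      obtain ⟨j, hj, hxj⟩ := hx
      refine ⟨j, Finset.mem_filter.2 ⟨hj, ?_⟩, hxj⟩
      have h1 := U_ball hs hs' c₀ D j hxj
      rw [mem_ball] at h1 hx1
      have h2 := dist_triangle_left (g j 0) (g i 0) x
      linarith
    · left
      exact ⟨hx1, ⟨hB hx1, hx2⟩, hx⟩
  have h1 : volume (⋃ j ∈ J, U D c₀ j) ≤ ENNReal.ofReal (c₀ / 2) := by
    refine (measure_biUnion_finset_le J _).trans ?_
    refine (Finset.sum_le_card_nsmul J _ (ENNReal.ofReal (5 * s))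
      (fun j _ => U_area_le hs c₀ D j)).trans ?_
    rw [nsmul_eq_mul]
    refine (mul_le_mul_left (show (J.card : ℝ≥0∞) ≤ (11000 : ℕ) by exact_mod_cast hJc) _).trans ?_
    rw [← ENNReal.ofReal_natCast, ← ENNReal.ofReal_mul (by positivity)]
    apply ENNReal.ofReal_le_ofReal
    push_cast
    linarith
  have h2 := hv.trans ((measure_mono hsub).trans (measure_union_le _ _))
  have h3 : ENNReal.ofReal c₀ = ENNReal.ofReal (c₀ / 2) + ENNReal.ofReal (c₀ / 2) := by
    rw [← ENNReal.ofReal_add (by positivity) (by positivity)]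
    congr 1
    ring
  rw [h3] at h2
  have h4 := h2.trans (add_le_add_right h1 _)
  exact (ENNReal.add_le_add_iff_right ENNReal.ofReal_ne_top).1 h4

/-- Section 1.7 of row 527.  `V = ball 0 (r + 20)` minus all bodies and minus all `U i`, `i` good.
For a bad `i`: `ball (g i 0) 2` is in `ball 0 (r+20)`; only `U j` with `dist (g j 0) (g i 0) < 4`
meet it (`U_ball`), at most `11000` (`count_le`), each of area `≤ 5 s` (`U_area_le`); so
`volume (ball (g i 0) 2 ∩ V) ≥ c₀ - 55000 s ≥ c₀ / 2`.  Every point is in at most `11000` of the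
discs `ball (g i 0) 2`, hence `#bad * (c₀ / 2) ≤ 11000 * volume V`.  Together:
`volume (ball 0 (r+20)) ≥ card * |K s| + #good * s/4 + volume V ≥ card * (|K s| + s/4)`
if `11000 * s / 2 ≤ c₀`, and `|K s| + s/4 = |H s|` (`vol_K`, `vol_H`). -/
theorem count_area {c₀ : ℝ} (hc : 0 < c₀) (hc' : c₀ ≤ 1 / 4000) {s : ℝ} (hs : 0 < s)
    (hsc : s ≤ c₀ / 200000)
    (hbad : ∀ (κ : Type) [Fintype κ] (g : κ → E2 ≃ᵢ E2),
      (Pairwise fun i j => Disjoint (interior (g i '' K s)) (interior (g j '' K s))) →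
      ∀ i j₁ j₂ j₃, j₁ ≠ j₂ → j₁ ≠ j₃ → j₂ ≠ j₃ →
        Near s c₀ g i j₁ → Near s c₀ g i j₂ → Near s c₀ g i j₃ →
        ENNReal.ofReal c₀ ≤ volume (ball (g i 0) 2 \ ⋃ j, g j '' K s))
    {r : ℝ} (hr : 0 < r) (κ : Type) [Fintype κ] (g : κ → E2 ≃ᵢ E2)
    (hd : Pairwise fun i j => Disjoint (interior (g i '' K s)) (interior (g j '' K s)))
    (hm : ∀ i, (g i '' K s ∩ ball 0 r).Nonempty) :
    (Fintype.card κ : ℝ≥0∞) * volume (H s) ≤ volume (ball (0 : E2) (r + 20)) := by
  classical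
  have hs' : s ≤ 1 / 100 := by linarith
  obtain ⟨D⟩ := exists_seps hs.le hs' g hd
  -- geometry of the bodies
  have hK5 : ∀ i, ∀ x ∈ g i '' K s, dist x (g i 0) ≤ 5 := by
    rintro i _ ⟨x, hx, rfl⟩
    rw [(g i).dist_eq, dist_zero_right]
    exact K_norm hs.le hs' hx
  have hcen : ∀ i, dist (g i 0) 0 < r + 5 := by
    intro i
    obtain ⟨y, hy1, hy2⟩ := hm i
    have h1 := hK5 i y hy1
    have h2 : dist y 0 < r := hy2
    have h3 := dist_triangle_left (g i 0) 0 y
    linarith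
  have hKB : ∀ i, g i '' K s ⊆ ball 0 (r + 20) := by
    intro i x hx
    have h1 := hK5 i x hx
    have h2 := hcen i
    rw [mem_ball]
    have h3 := dist_triangle x (g i 0) 0
    linarith
  have hballB : ∀ i, ball (g i 0) 2 ⊆ ball 0 (r + 20) := by
    intro i x hx
    rw [mem_ball] at hx ⊢
    have h2 := hcen i
    have h3 := dist_triangle x (g i 0) 0
    linarith
  have hKm : ∀ i, MeasurableSet (g i '' K s) := by
    intro i
    exact (((isCompact_K hs.le hs').image (g i).continuous).isClosed).measurableSet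
  have hUm : ∀ i, MeasurableSet (U D c₀ i) := fun i => measurable_U D c₀ i
  have h4s : 4 * s ≤ c₀ := by linarith
  -- the good and the bad bodies
  set G : Finset κ := Finset.univ.filter fun i => Good s c₀ g i with hG
  set A1 : Set E2 := ⋃ i, g i '' K s with hA1
  set A2 : Set E2 := ⋃ i ∈ G, U D c₀ i with hA2
  set V : Set E2 := (ball 0 (r + 20) \ A1) \ A2 with hV
  have hA1m : MeasurableSet A1 := MeasurableSet.iUnion hKm
  have hA2m : MeasurableSet A2 := G.measurableSet_biUnion fun i _ => hUm i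
  have hVm : MeasurableSet V := (measurableSet_ball.diff hA1m).diff hA2m
  -- (1) the volume of the ball
  have hvolA1 : volume A1 = (Fintype.card κ : ℝ≥0∞) * volume (K s) := by
    have h1 : A1 = ⋃ i ∈ (Finset.univ : Finset κ), g i '' K s := by simp [hA1]
    rw [h1, measure_biUnion_finset₀ (fun i _ j _ hij => ae_disj hs.le g hd hij)
      (fun i _ => (hKm i).nullMeasurableSet)]
    rw [Finset.sum_congr rfl fun i _ => vol_isom (g i) (K s)]
    rw [Finset.sum_const, nsmul_eq_mul, Finset.card_univ]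
  have hvolA2 : volume A2 = ∑ i ∈ G, volume (U D c₀ i) :=
    measure_biUnion_finset (fun i _ j _ hij => U_disj_U hs h4s D hij) (fun i _ => hUm i)
  have hdis12 : Disjoint A1 A2 := by
    rw [hA1, hA2, disjoint_iUnion_left]
    intro j
    rw [disjoint_iUnion₂_right]
    intro i _
    exact (U_disj_K hs h4s D i j).symm
  have hsum : volume A1 + volume A2 + volume V ≤ volume (ball (0 : E2) (r + 20)) := by
    rw [← measure_union hdis12 hA2m, ← measure_union ?_ hVm]
    · apply measure_mono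
      refine union_subset (union_subset (iUnion_subset hKB) (iUnion₂_subset fun i _ => ?_))
        (fun x hx => hx.1.1)
      exact (U_ball hs hs' c₀ D i).trans (hballB i)
    · rw [Set.disjoint_left]
      rintro x (hx | hx) ⟨⟨_, h2⟩, h3⟩
      · exact h2 hx
      · exact h3 hx
  -- (2) good bodies
  have hgood : (G.card : ℝ≥0∞) * ENNReal.ofReal (s / 4) ≤ volume A2 := by
    rw [hvolA2, ← nsmul_eq_mul]
    apply Finset.card_nsmul_le_sum
    intro i hi
    obtain ⟨j₁, j₂, hN⟩ := (Finset.mem_filter.1 hi).2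
    exact U_area hs hs' hc.le hc' D i hN
  -- (3) bad bodies
  have hbadV : ((Gᶜ).card : ℝ≥0∞) * ENNReal.ofReal (c₀ / 2) ≤ 11000 * volume V := by
    have h1 : ((Gᶜ).card : ℝ≥0∞) * ENNReal.ofReal (c₀ / 2) ≤
        ∑ i ∈ Gᶜ, volume (ball (g i 0) 2 ∩ V) := by
      rw [← nsmul_eq_mul]
      apply Finset.card_nsmul_le_sum
      intro i hi
      have hi' : ¬ Good s c₀ g i := by
        intro hgi
        exact (Finset.mem_compl.1 hi) (Finset.mem_filter.2 ⟨Finset.mem_univ _, hgi⟩)
      obtain ⟨j₁, j₂, j₃, h12, h13, h23, hn1, hn2, hn3⟩ := not_good hi'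
      exact Sum_bad hc hc' hs hsc g hd D G i (hballB i)
        (hbad κ g hd i j₁ j₂ j₃ h12 h13 h23 hn1 hn2 hn3)
    refine h1.trans ?_
    have h2 := Sum_mult Gᶜ (fun i => ball (g i 0) 2 ∩ V) V
      (fun i _ => measurableSet_ball.inter hVm) hVm (fun i _ => inter_subset_right) 11000 ?_
    · exact_mod_cast h2
    · intro x T _ hT
      apply count_le hs hs' g hd x T
      intro j hj
      have := (hT j hj).1
      rw [mem_ball, dist_comm] at this
      linarith
  have hbad2 : ((Gᶜ).card : ℝ≥0∞) * ENNReal.ofReal (s / 4) ≤ volume V := by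
    have h1 : (11000 : ℝ≥0∞) * (((Gᶜ).card : ℝ≥0∞) * ENNReal.ofReal (s / 4)) ≤
        11000 * volume V := by
      refine le_trans ?_ hbadV
      rw [mul_left_comm]
      gcongr
      rw [show (11000 : ℝ≥0∞) = ENNReal.ofReal 11000 by norm_num,
        ← ENNReal.ofReal_mul (by norm_num)]
      apply ENNReal.ofReal_le_ofReal
      linarith
    exact (ENNReal.mul_le_mul_iff_right (by norm_num) (by norm_num)).1 h1
  -- together
  have hHs : volume (H s) = volume (K s) + ENNReal.ofReal (s / 4) := by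
    rw [vol_H hs hs', vol_K hs hs', ← ENNReal.ofReal_add (by positivity) (by positivity)]
    congr 1
    ring
  have hcard : (Fintype.card κ : ℝ≥0∞) = G.card + (Gᶜ).card := by
    rw [← Finset.card_add_card_compl G]
    push_cast
    rfl
  refine le_trans ?_ hsum
  rw [hHs, mul_add, hvolA1, add_assoc]
  gcongr
  rw [hcard, add_mul]
  exact add_le_add hgood hbad2

/-- `count_area` and `density_le` of helper61 (W_0c5e58_h61/GUpper.lean) with `B = H s` -/
theorem claimP : ClaimP := by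
  obtain ⟨c₀, hc, hc', hbad⟩ := bad_void
  refine ⟨c₀ / 200000, by positivity, fun s hs hsc => ?_⟩
  have hs' : s ≤ 1 / 100 := by linarith
  have hH : volume (H s) ≠ 0 := by
    rw [vol_H hs hs']
    have : 0 < 3 / 32 + 9 / 4 * s := by positivity
    simpa using this
  apply density_le (n := 2) (by norm_num) (isCompact_H hs.le hs') hH (a := 20) (by norm_num)
  intro r hr κ _ g hd hm
  exact count_area hc hc' hs hsc.le (fun κ' _ g' hd' => hbad s hs (by linarith) κ' g' hd') hr κ g hd hm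

end Pool.Cyl
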