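import Pool.Agent.W_0c5e58_h33.Defs

/-!
# Elementary facts about the body
-/

open MeasureTheory Metric Set Filter
open scoped Topology ENNReal

namespace Pool.Cyl

open Pool.TC

/-- the open parallelogram -/
def T₀ : Set E2 := {x | -(1 / 32) < x 1 ∧ x 1 < 0 ∧ |x 0 - 96 * x 1| < 3 / 2}

private theorem basic_cont (i : Fin 2) : Continuous fun x : E2 => x i := by
  exact (continuous_apply i).comp (PiLp.continuous_ofLp 2 _)

/-- Closed: all functions are continuous.  (`kap s` is continuous.) -/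
theorem isClosed_K (s : ℝ) : IsClosed (K s) := by
  have h0 := basic_cont 0
  have h1 := basic_cont 1
  have e : K s = {x : E2 | -(1 / 32) ≤ x 1} ∩ ({x : E2 | |x 0 - 96 * x 1| ≤ 3 / 2} ∩
      {x : E2 | x 1 ≤ kap s (x 0)}) := rfl
  rw [e]
  refine (isClosed_le continuous_const h1).inter ((isClosed_le ?_ continuous_const).inter
    (isClosed_le h1 ?_))
  · fun_prop
  · unfold kap
    fun_prop

private theorem basic_norm {x : E2} (h1 : |x 1| ≤ 1 / 32) (h0 : |x 0| ≤ 9 / 2) : ‖x‖ ≤ 5 := by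
  have e : ‖x‖ ^ 2 = (x 0) ^ 2 + (x 1) ^ 2 := by
    rw [EuclideanSpace.norm_sq_eq, Fin.sum_univ_two]
    simp only [Real.norm_eq_abs, sq_abs]
  have k0 : (x 0) ^ 2 ≤ (9 / 2) ^ 2 := by
    rw [← sq_abs]
    exact pow_le_pow_left₀ (abs_nonneg _) h0 2
  have k1 : (x 1) ^ 2 ≤ (1 / 32) ^ 2 := by
    rw [← sq_abs]
    exact pow_le_pow_left₀ (abs_nonneg _) h1 2
  refine abs_le_of_sq_le_sq' ?_ (by norm_num) |>.2
  rw [e]
  norm_num at k0 k1 ⊢
  linarith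

/-- For `0 ≤ s ≤ 1/100` every point of `K s` has `|x 1| ≤ 1/32`, `|x 0| ≤ 9/2`: upper bound of
`x 1`: `kap s ≤ s ≤ 1/100`; then `|x 0| ≤ 3/2 + 96 |x 1|`. -/
theorem K_bound {s : ℝ} (hs : 0 ≤ s) (hs' : s ≤ 1 / 100) {x : E2} (hx : x ∈ K s) :
    |x 1| ≤ 1 / 32 ∧ |x 0| ≤ 9 / 2 := by
  obtain ⟨h1, h2, h3⟩ := hx
  have h4 : kap s (x 0) ≤ s := by
    unfold kap
    have := mul_le_mul_of_nonneg_left (min_le_left 1 (3 / 2 - |x 0|)) hs
    linarith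
  have h5 : |x 1| ≤ 1 / 32 := abs_le.2 ⟨h1, by linarith⟩
  refine ⟨h5, ?_⟩
  rw [abs_le] at h2 h5 ⊢
  constructor <;> linarith [h2.1, h2.2, h5.1, h5.2]

/-- norm bound, from `K_bound` and `‖x‖² = (x 0)² + (x 1)²` (`EuclideanSpace.norm_eq`,
`Fin.sum_univ_two`) -/
theorem K_norm {s : ℝ} (hs : 0 ≤ s) (hs' : s ≤ 1 / 100) {x : E2} (hx : x ∈ K s) : ‖x‖ ≤ 5 :=
  basic_norm (K_bound hs hs' hx).1 (K_bound hs hs' hx).2

theorem isCompact_K {s : ℝ} (hs : 0 ≤ s) (hs' : s ≤ 1 / 100) : IsCompact (K s) := by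
  refine Metric.isCompact_of_isClosed_isBounded (isClosed_K s) ?_
  refine (Metric.isBounded_closedBall (x := (0 : E2)) (r := 5)).subset fun x hx => ?_
  rw [mem_closedBall, dist_zero_right]
  exact K_norm hs hs' hx

/-- `kap s` is concave for `s ≥ 0` (minimum of a constant and `3/2 - |p|`, times `s`) -/
theorem convex_K {s : ℝ} (hs : 0 ≤ s) : Convex ℝ (K s) := by
  have key : ∀ x : E2, x ∈ K s ↔ -(1 / 32) ≤ x 1 ∧ -(3 / 2) ≤ x 0 - 96 * x 1 ∧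
      x 0 - 96 * x 1 ≤ 3 / 2 ∧ x 1 ≤ s ∧ x 1 ≤ s * (3 / 2 - x 0) ∧ x 1 ≤ s * (3 / 2 + x 0) := by
    intro x
    have e : x 1 ≤ kap s (x 0) ↔ x 1 ≤ s ∧ x 1 ≤ s * (3 / 2 - x 0) ∧ x 1 ≤ s * (3 / 2 + x 0) := by
      unfold kap
      have e1 : 3 / 2 - |x 0| = min (3 / 2 - x 0) (3 / 2 + x 0) := by
        rcases le_total 0 (x 0) with h | h
        · rw [abs_of_nonneg h, min_eq_left (by linarith)]
        · rw [abs_of_nonpos h, min_eq_right (by linarith)]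
          ring
      rw [e1, mul_min_of_nonneg _ _ hs, mul_min_of_nonneg _ _ hs, mul_one, le_min_iff, le_min_iff]
    show (-(1 / 32) ≤ x 1 ∧ |x 0 - 96 * x 1| ≤ 3 / 2 ∧ x 1 ≤ kap s (x 0)) ↔ _
    rw [e, abs_le]
    tauto
  intro x hx y hy a b ha hb hab
  rw [key] at hx hy ⊢
  obtain ⟨x1, x2, x3, x4, x5, x6⟩ := hx
  obtain ⟨y1, y2, y3, y4, y5, y6⟩ := hy
  have c0 : (a • x + b • y) 0 = a * x 0 + b * y 0 := by simp
  have c1 : (a • x + b • y) 1 = a * x 1 + b * y 1 := by simp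
  rw [c0, c1]
  have m1 := mul_le_mul_of_nonneg_left x1 ha
  have m2 := mul_le_mul_of_nonneg_left x2 ha
  have m3 := mul_le_mul_of_nonneg_left x3 ha
  have m4 := mul_le_mul_of_nonneg_left x4 ha
  have m5 := mul_le_mul_of_nonneg_left x5 ha
  have m6 := mul_le_mul_of_nonneg_left x6 ha
  have n1 := mul_le_mul_of_nonneg_left y1 hb
  have n2 := mul_le_mul_of_nonneg_left y2 hb
  have n3 := mul_le_mul_of_nonneg_left y3 hb
  have n4 := mul_le_mul_of_nonneg_left y4 hb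
  have n5 := mul_le_mul_of_nonneg_left y5 hb
  have n6 := mul_le_mul_of_nonneg_left y6 hb
  obtain rfl : b = 1 - a := by linarith
  refine ⟨by linarith, by linarith, by linarith, by linarith, ?_, ?_⟩
  · have : s * (3 / 2 - (a * x 0 + (1 - a) * y 0)) =
        a * (s * (3 / 2 - x 0)) + (1 - a) * (s * (3 / 2 - y 0)) := by ring
    rw [this]
    linarith
  · have : s * (3 / 2 + (a * x 0 + (1 - a) * y 0)) =
        a * (s * (3 / 2 + x 0)) + (1 - a) * (s * (3 / 2 + y 0)) := by ring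
    rw [this]
    linarith

theorem isCompact_H {s : ℝ} (hs : 0 ≤ s) (hs' : s ≤ 1 / 100) : IsCompact (H s) := by
  have h0 := basic_cont 0
  have h1 := basic_cont 1
  refine Metric.isCompact_of_isClosed_isBounded ?_ ?_
  · have e : H s = {x : E2 | -(1 / 32) ≤ x 1} ∩ ({x : E2 | |x 0 - 96 * x 1| ≤ 3 / 2} ∩
        {x : E2 | x 1 ≤ s * (3 / 2 - |x 0|)}) := rfl
    rw [e]
    refine (isClosed_le continuous_const h1).inter ((isClosed_le ?_ continuous_const).inter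
      (isClosed_le h1 ?_))
    · fun_prop
    · fun_prop
  · refine (Metric.isBounded_closedBall (x := (0 : E2)) (r := 5)).subset fun x hx => ?_
    rw [mem_closedBall, dist_zero_right]
    obtain ⟨k1, k2, k3⟩ := hx
    have k4 : s * (3 / 2 - |x 0|) ≤ s * (3 / 2) :=
      mul_le_mul_of_nonneg_left (by linarith [abs_nonneg (x 0)]) hs
    have k5 : |x 1| ≤ 1 / 32 := abs_le.2 ⟨k1, by linarith⟩
    refine basic_norm k5 ?_
    rw [abs_le] at k2 k5 ⊢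
    constructor <;> linarith [k2.1, k2.2, k5.1, k5.2]

/-- `T₀` is contained in `K s` (for `x 1 < 0` and `s ≤ 1/96`: if `|x 0| ≤ 3/2` then `kap ≥ 0`;
otherwise `|x 0| - 3/2 ≤ 96 |x 1|`, so `kap s (x 0) ≥ - s * 96 |x 1| ≥ x 1`; note
`min 1 (3/2 - |p|) = 3/2 - |p|` for `|p| ≥ 1/2`). -/
theorem T₀_sub {s : ℝ} (hs : 0 ≤ s) (hs' : s ≤ 1 / 100) : T₀ ⊆ K s := by
  intro x hx
  obtain ⟨h1, h2, h3⟩ := hx
  refine ⟨h1.le, h3.le, ?_⟩
  unfold kap
  rw [mul_min_of_nonneg _ _ hs, mul_one]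
  refine le_min (by linarith) ?_
  have h4 : |x 0| ≤ 3 / 2 - 96 * x 1 := by
    rw [abs_lt] at h3
    rw [abs_le]
    constructor <;> linarith [h3.1, h3.2]
  have h5 : s * (96 * x 1) ≤ s * (3 / 2 - |x 0|) :=
    mul_le_mul_of_nonneg_left (by linarith) hs
  nlinarith

theorem isOpen_T₀ : IsOpen T₀ := by
  have h0 := basic_cont 0
  have h1 := basic_cont 1
  have e : T₀ = {x : E2 | -(1 / 32) < x 1} ∩ ({x : E2 | x 1 < 0} ∩
      {x : E2 | |x 0 - 96 * x 1| < 3 / 2}) := rfl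
  rw [e]
  refine (isOpen_lt continuous_const h1).inter ((isOpen_lt h1 continuous_const).inter
    (isOpen_lt ?_ continuous_const))
  fun_prop

/-- `T₀ ⊆ interior (K s)`, and `T₀` is not empty: `(-3/2, -1/64)` is in it -/
theorem T₀_sub_interior {s : ℝ} (hs : 0 ≤ s) (hs' : s ≤ 1 / 100) :
    T₀ ⊆ interior (K s) ∧ T₀.Nonempty := by
  refine ⟨interior_maximal (T₀_sub hs hs') isOpen_T₀, pt (-(3 / 2)) (-(1 / 64)), ?_⟩
  show -(1 / 32) < pt (-(3 / 2)) (-(1 / 64)) 1 ∧ pt (-(3 / 2)) (-(1 / 64)) 1 < 0 ∧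
    |pt (-(3 / 2)) (-(1 / 64)) 0 - 96 * pt (-(3 / 2)) (-(1 / 64)) 1| < 3 / 2
  rw [pt_zero, pt_one]
  norm_num

/-- the points `(p, 0)`, `|p| ≤ 3/2` are in the body, and so is `(-3, -1/32)` -/
theorem seg_mem {s : ℝ} (hs : 0 ≤ s) {p : ℝ} (hp : |p| ≤ 3 / 2) : pt p 0 ∈ K s := by
  show -(1 / 32) ≤ pt p 0 1 ∧ |pt p 0 0 - 96 * pt p 0 1| ≤ 3 / 2 ∧ pt p 0 1 ≤ kap s (pt p 0 0)
  rw [pt_zero, pt_one]
  refine ⟨by norm_num, by simpa using hp, ?_⟩
  unfold kap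
  exact mul_nonneg hs (le_min zero_le_one (by linarith))

theorem low_mem {s : ℝ} (hs : 0 ≤ s) (hs' : s ≤ 1 / 100) : pt (-3) (-(1 / 32)) ∈ K s := by
  show -(1 / 32) ≤ pt (-3) (-(1 / 32)) 1 ∧
    |pt (-3) (-(1 / 32)) 0 - 96 * pt (-3) (-(1 / 32)) 1| ≤ 3 / 2 ∧
    pt (-3) (-(1 / 32)) 1 ≤ kap s (pt (-3) (-(1 / 32)) 0)
  rw [pt_zero, pt_one]
  refine ⟨le_rfl, by norm_num, ?_⟩
  unfold kap
  have h1 : |(-3 : ℝ)| = 3 := by norm_num
  rw [h1, min_eq_right (by norm_num)]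
  linarith

end Pool.Cyl
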