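import Pool.Agent.W_0c5e58_h33.Sep

/-!
# The regions charged to the bulges
-/

open MeasureTheory Metric Set Filter
open scoped Topology ENNReal

namespace Pool.Cyl

open Pool.TC

/-- the trimmed long side -/
def seg : Set E2 := {x | |x 0| ≤ 5 / 4 ∧ x 1 = 0}

/-- the region above the bulge, with ceiling -/
def box (s : ℝ) : Set E2 := {x | |x 0| ≤ 5 / 4 ∧ kap s (x 0) < x 1 ∧ x 1 < 2 * s}

variable {κ : Type} {s : ℝ} {g : κ → E2 ≃ᵢ E2}

/-- body `j` comes within `ε` of the trimmed side of body `i` -/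
def Near (s ε : ℝ) (g : κ → E2 ≃ᵢ E2) (i j : κ) : Prop :=
  j ≠ i ∧ ∃ z ∈ g j '' K s, ∃ y ∈ g i '' seg, dist z y ≤ ε

/-- the region charged to body `i` -/
def U (D : Seps s g) (ε : ℝ) (i : κ) : Set E2 :=
  g i '' box s ∩ {x | ∀ j, Near s ε g i j → inner ℝ (D.u i j) x < D.c i j}

private theorem Cell_kap_pos (hs : 0 < s) {p : ℝ} (hp : |p| ≤ 5 / 4) : 0 < kap s p := by
  unfold kap
  apply mul_pos hs
  apply lt_min one_pos
  linarith

private theorem Cell_cont (i : Fin 2) : Continuous fun x : E2 => x i := by fun_prop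

private theorem Cell_meas_box (s : ℝ) : MeasurableSet (box s) := by
  have h0 : Measurable fun x : E2 => x 0 := (Cell_cont 0).measurable
  have h1 : Measurable fun x : E2 => x 1 := (Cell_cont 1).measurable
  have hk : Measurable fun x : E2 => kap s (x 0) := by
    unfold kap
    have : Continuous fun x : E2 => s * min 1 (3 / 2 - |x 0|) := by
      have := Cell_cont 0
      fun_prop
    exact this.measurable
  have ha : Measurable fun x : E2 => |x 0| := by
    have : Continuous fun x : E2 => |x 0| := by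
      have := Cell_cont 0
      fun_prop
    exact this.measurable
  exact (measurableSet_le ha measurable_const).inter
    ((measurableSet_lt hk h1).inter (measurableSet_lt h1 measurable_const))

/-- measurable: `κ` finite, `g i` is a homeomorphism, `box s` is measurable -/
theorem measurable_U [Finite κ] (D : Seps s g) (ε : ℝ) (i : κ) : MeasurableSet (U D ε i) := by
  unfold U
  apply MeasurableSet.inter
  · have h : g i '' box s = (g i).symm ⁻¹' box s := by
      ext x
      constructor
      · rintro ⟨a, ha, rfl⟩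
        simpa using ha
      · intro hx
        exact ⟨(g i).symm x, hx, by simp⟩
    rw [h]
    exact (g i).symm.continuous.measurable (Cell_meas_box s)
  · rw [setOf_forall]
    apply MeasurableSet.iInter
    intro j
    by_cases hj : Near s ε g i j
    · have : {x : E2 | Near s ε g i j → inner ℝ (D.u i j) x < D.c i j} =
          {x : E2 | inner ℝ (D.u i j) x < D.c i j} := by
        ext x
        simp [hj]
      rw [this]
      have hc : Continuous fun x : E2 => inner ℝ (D.u i j) x := by fun_prop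
      exact measurableSet_lt hc.measurable measurable_const
    · have : {x : E2 | Near s ε g i j → inner ℝ (D.u i j) x < D.c i j} = univ := by
        ext x
        simp [hj]
      rw [this]
      exact MeasurableSet.univ

/-- `x ∈ box s` is above the point `(x 0, 0)` of `seg` at distance `< 2 s`
(`kap s ≥ 0` for `|p| ≤ 5/4`) -/
theorem box_near (hs : 0 < s) {x : E2} (hx : x ∈ box s) : ∃ y ∈ seg, dist x y < 2 * s := by
  obtain ⟨h0, h1, h2⟩ := hx
  have hk := Cell_kap_pos hs h0
  refine ⟨pt (x 0) 0, ⟨h0, rfl⟩, ?_⟩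
  rw [EuclideanSpace.dist_eq, Fin.sum_univ_two]
  simp only [pt_zero, pt_one, dist_self, Real.dist_eq, sub_zero]
  rw [show (0 : ℝ) ^ 2 + |x 1| ^ 2 = |x 1| ^ 2 by ring, Real.sqrt_sq (abs_nonneg _),
    abs_of_pos (by linarith)]
  exact h2

private theorem Cell_seg_sub (hs : 0 < s) : seg ⊆ K s := by
  intro y hy
  have h := seg_mem hs.le (p := y 0) (by linarith [hy.1])
  have e : pt (y 0) 0 = y := by
    ext i
    fin_cases i
    · rfl
    · exact hy.2.symm
  rwa [e] at h

/-- disjoint from all bodies: `j = i`: `x 1 > kap s (x 0)`; `Near`: the line (the other side by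
`usymm, csymm, le`); otherwise the distance to `g i '' seg` is `< 2 s ≤ ε` -/
theorem U_disj_K (hs : 0 < s) {ε : ℝ} (hε : 4 * s ≤ ε) (D : Seps s g) (i j : κ) :
    Disjoint (U D ε i) (g j '' K s) := by
  rw [Set.disjoint_left]
  rintro x ⟨⟨a, ha, hax⟩, hx2⟩ hxj
  by_cases hij : j = i
  · subst hij
    obtain ⟨b, hb, hbx⟩ := hxj
    have hab : a = b := (g j).injective (hax.trans hbx.symm)
    subst hab
    exact absurd hb.2.2 (not_le.2 ha.2.1)
  · obtain ⟨y, hy, hd⟩ := box_near hs ha
    have hn : Near s ε g i j := by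
      refine ⟨hij, x, hxj, g i y, ⟨y, hy, rfl⟩, ?_⟩
      rw [← hax, (g i).dist_eq]
      linarith
    have h1 := hx2 j hn
    have h2 := D.le j i hij x hxj
    rw [D.usymm i j (Ne.symm hij), D.csymm i j (Ne.symm hij), inner_neg_left] at h2
    linarith

/-- pairwise disjoint: a common point is within `2 s` of both trimmed sides, the trimmed sides are
contained in the bodies (`seg ⊆ K s`), so both `Near`, and the point is strictly on both sides of
the same line -/
theorem U_disj_U (hs : 0 < s) {ε : ℝ} (hε : 4 * s ≤ ε) (D : Seps s g) {i j : κ} (hij : i ≠ j) :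
    Disjoint (U D ε i) (U D ε j) := by
  rw [Set.disjoint_left]
  rintro x ⟨⟨a, ha, hax⟩, hx2⟩ ⟨⟨b, hb, hbx⟩, hx3⟩
  obtain ⟨y, hy, hd⟩ := box_near hs ha
  obtain ⟨z, hz, he⟩ := box_near hs hb
  have hd' : dist x (g i y) < 2 * s := by rw [← hax, (g i).dist_eq]; exact hd
  have he' : dist x (g j z) < 2 * s := by rw [← hbx, (g j).dist_eq]; exact he
  have hyz : dist (g j z) (g i y) ≤ ε := by
    have := dist_triangle_left (g j z) (g i y) x
    linarith
  have hn1 : Near s ε g i j :=
    ⟨Ne.symm hij, g j z, ⟨z, Cell_seg_sub hs hz, rfl⟩, g i y, ⟨y, hy, rfl⟩, hyz⟩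
  have hn2 : Near s ε g j i :=
    ⟨hij, g i y, ⟨y, Cell_seg_sub hs hy, rfl⟩, g j z, ⟨z, hz, rfl⟩, by rw [dist_comm]; exact hyz⟩
  have h1 := hx2 j hn1
  have h2 := hx3 i hn2
  rw [D.usymm i j hij, D.csymm i j hij, inner_neg_left] at h2
  linarith

/-- `U i` is in the ball of radius `2` around `g i 0` (for `s ≤ 1/100`) -/
theorem U_ball (hs : 0 < s) (hs' : s ≤ 1 / 100) (ε : ℝ) (D : Seps s g) (i : κ) :
    U D ε i ⊆ ball (g i 0) 2 := by
  rintro x ⟨⟨a, ha, hax⟩, -⟩
  rw [mem_ball, ← hax, (g i).dist_eq, dist_zero_right, EuclideanSpace.norm_eq, Fin.sum_univ_two]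
  obtain ⟨h0, h1, h2⟩ := ha
  have hk := Cell_kap_pos hs h0
  simp only [Real.norm_eq_abs]
  have h3 : |a 1| ≤ 1 / 50 := by
    rw [abs_of_pos (by linarith)]
    linarith
  rw [show (2 : ℝ) = √(2 ^ 2) by rw [Real.sqrt_sq (by norm_num)]]
  apply Real.sqrt_lt_sqrt (by positivity)
  have h4 := abs_nonneg (a 0)
  have h5 := abs_nonneg (a 1)
  nlinarith

end Pool.Cyl
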