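import Pool.Agent.W_0c5e58_h33.Vol
import Pool.Agent.W_0c5e58_h33.Basic

/-!
# Bounded number of bodies near a point
-/

open MeasureTheory Metric Set Filter
open scoped Topology ENNReal

namespace Pool.Cyl

open Pool.TC

/-- Bodies of a packing overlap in null sets: the interiors are disjoint and convex sets have null
frontier (`Convex.addHaar_frontier`); the image under an isometry is convex and closed, interior of
the image = image of the interior. -/
theorem ae_disj {κ : Type} {s : ℝ} (hs : 0 ≤ s) (g : κ → E2 ≃ᵢ E2)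
    (hd : Pairwise fun i j => Disjoint (interior (g i '' K s)) (interior (g j '' K s)))
    {i j : κ} (hij : i ≠ j) : volume (g i '' K s ∩ g j '' K s) = 0 := by
  have hnull : ∀ k, volume (frontier (g k '' K s)) = 0 := by
    intro k
    have hc : Convex ℝ (g k '' K s) :=
      (convex_K hs).affine_image (g k).toRealAffineIsometryEquiv.toAffineEquiv.toAffineMap
    exact hc.addHaar_frontier volume
  have hsub : g i '' K s ∩ g j '' K s ⊆ frontier (g i '' K s) ∪ frontier (g j '' K s) := by
    rintro x ⟨hi, hj⟩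
    by_contra hx
    rw [mem_union, not_or] at hx
    have h1 : x ∈ interior (g i '' K s) := by
      by_contra h
      exact hx.1 ⟨subset_closure hi, h⟩
    have h2 : x ∈ interior (g j '' K s) := by
      by_contra h
      exact hx.2 ⟨subset_closure hj, h⟩
    exact (Set.disjoint_left.1 (hd hij)) h1 h2
  refine measure_mono_null hsub ?_
  exact measure_union_null (hnull i) (hnull j)

/-- all bodies with `dist (g j 0) x < 12` are in `ball x 17.5` (`K_norm`), their areas are
`≥ 3/32` (`vol_K`, `vol_isom`), and `π * 17.5 ^ 2 < 1000`. -/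
theorem count_le {κ : Type} [Fintype κ] {s : ℝ} (hs : 0 < s) (hs' : s ≤ 1 / 100)
    (g : κ → E2 ≃ᵢ E2)
    (hd : Pairwise fun i j => Disjoint (interior (g i '' K s)) (interior (g j '' K s)))
    (x : E2) (J : Finset κ) (hJ : ∀ j ∈ J, dist (g j 0) x < 12) : J.card ≤ 11000 := by
  have hmeas : ∀ j, MeasurableSet (g j '' K s) := fun j =>
    (((isCompact_K hs.le hs').image (g j).continuous).isClosed).measurableSet
  have h1 : volume (⋃ j ∈ J, g j '' K s) = ∑ j ∈ J, volume (g j '' K s) := by
    refine measure_biUnion_finset₀ ?_ fun j _ => (hmeas j).nullMeasurableSet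
    intro i _ j _ hij
    exact ae_disj hs.le g hd hij
  have h2 : (⋃ j ∈ J, g j '' K s) ⊆ ball x (35 / 2) := by
    intro z hz
    simp only [mem_iUnion, exists_prop] at hz
    obtain ⟨j, hj, y, hy, rfl⟩ := hz
    have h3 : dist (g j y) (g j 0) ≤ 5 := by
      rw [(g j).dist_eq, dist_zero_right]
      exact K_norm hs.le hs' hy
    rw [mem_ball]
    linarith [dist_triangle (g j y) (g j 0) x, hJ j hj]
  have h4 : ∑ j ∈ J, volume (g j '' K s) = J.card * ENNReal.ofReal (3 / 32 + 2 * s) := by
    rw [Finset.sum_congr rfl fun j _ => (vol_isom (g j) (K s)).trans (vol_K hs hs'),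
      Finset.sum_const, nsmul_eq_mul]
  have h5 := measure_mono (μ := volume) h2
  rw [h1, h4, EuclideanSpace.volume_ball_fin_two] at h5
  have h6 : (J.card : ℝ≥0∞) * ENNReal.ofReal (3 / 32 + 2 * s) =
      ENNReal.ofReal ((J.card : ℝ) * (3 / 32 + 2 * s)) := by
    rw [ENNReal.ofReal_mul (Nat.cast_nonneg _), ENNReal.ofReal_natCast]
  have h7 : ENNReal.ofReal (35 / 2) ^ 2 * ENNReal.ofReal Real.pi =
      ENNReal.ofReal ((35 / 2) ^ 2 * Real.pi) := by
    rw [ENNReal.ofReal_mul (by positivity), ENNReal.ofReal_pow (by norm_num)]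
  rw [h6, h7, ENNReal.ofReal_le_ofReal_iff (by positivity)] at h5
  by_contra hc
  push Not at hc
  have hc' : (11000 : ℝ) < J.card := by exact_mod_cast hc
  have hpi := Real.pi_lt_d2
  nlinarith [mul_pos hs (by linarith : (0 : ℝ) < (J.card : ℝ))]

end Pool.Cyl
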