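import Pool.Agent.W_0c5e58_h61.GUpper
import Pool.Agent.W_0c5e58_h61.GTile

/-!
# MP_0c5e58_co, disproof of Q1: definitions

The body is a thin sheared parallelogram `{-1/32 ≤ r ≤ 0, |p - 96 r| ≤ 3/2}` (coordinates
`p = x 0`, `r = x 1`) with the flat bulge `r ≤ s * min 1 (3/2 - |p|)` on its long side.
`K 0` is the parallelogram itself.  `H s` is the house: the same with the roof
`r ≤ s * (3/2 - |p|)`; `|H s| = |K s| + s / 4`.
Proof text: proofs row 527 of the team database.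
-/

open MeasureTheory Metric Set Filter
open scoped Topology ENNReal

namespace Pool.Cyl

open Pool.TC

/-- the profile of the bulge -/
noncomputable def kap (s p : ℝ) : ℝ := s * min 1 (3 / 2 - |p|)

/-- the body -/
def K (s : ℝ) : Set E2 := {x | -(1 / 32) ≤ x 1 ∧ |x 0 - 96 * x 1| ≤ 3 / 2 ∧ x 1 ≤ kap s (x 0)}

/-- the house -/
def H (s : ℝ) : Set E2 :=
  {x | -(1 / 32) ≤ x 1 ∧ |x 0 - 96 * x 1| ≤ 3 / 2 ∧ x 1 ≤ s * (3 / 2 - |x 0|)}

/-- a point of the plane -/
noncomputable def pt (p r : ℝ) : E2 := WithLp.toLp 2 ![p, r]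

@[simp] theorem pt_zero (p r : ℝ) : pt p r 0 = p := rfl
@[simp] theorem pt_one (p r : ℝ) : pt p r 1 = r := rfl

end Pool.Cyl
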