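import Pool.Agent.W_0c5e58_h33.Defs

/-!
# Basic facts on the body `K s` and the house `H s`: compact, convex, areas (helper47)
-/

open MeasureTheory Metric Set Filter
open scoped Topology ENNReal

namespace Pool.Cyl.KB

open Pool.TC

theorem kap_le {s p r : ℝ} (hs : 0 ≤ s) :
    r ≤ kap s p ↔ r ≤ s ∧ r ≤ s * (3 / 2 - p) ∧ r ≤ s * (3 / 2 + p) := by
  unfold kap
  constructor
  · intro h
    have h1 : min 1 (3 / 2 - |p|) ≤ 1 := min_le_left _ _
    have h2 : min 1 (3 / 2 - |p|) ≤ 3 / 2 - |p| := min_le_right _ _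
    have h3 := le_abs_self p
    have h4 := neg_abs_le p
    refine ⟨?_, ?_, ?_⟩
    · nlinarith [mul_le_mul_of_nonneg_left h1 hs]
    · exact h.trans (mul_le_mul_of_nonneg_left (by linarith) hs)
    · exact h.trans (mul_le_mul_of_nonneg_left (by linarith) hs)
  · rintro ⟨h1, h2, h3⟩
    rcases le_total 1 (3 / 2 - |p|) with h | h
    · rw [min_eq_left h]; linarith
    · rw [min_eq_right h]
      rcases abs_cases p with ⟨hp, _⟩ | ⟨hp, _⟩ <;> rw [hp]
      · exact h2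
      · rw [sub_neg_eq_add]; exact h3

theorem house_le {s p r : ℝ} (hs : 0 ≤ s) :
    r ≤ s * (3 / 2 - |p|) ↔ r ≤ s * (3 / 2 - p) ∧ r ≤ s * (3 / 2 + p) := by
  constructor
  · intro h
    have h3 := le_abs_self p
    have h4 := neg_abs_le p
    exact ⟨h.trans (mul_le_mul_of_nonneg_left (by linarith) hs),
      h.trans (mul_le_mul_of_nonneg_left (by linarith) hs)⟩
  · rintro ⟨h2, h3⟩
    rcases abs_cases p with ⟨hp, _⟩ | ⟨hp, _⟩ <;> rw [hp]
    · exact h2
    · rw [sub_neg_eq_add]; exact h3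

theorem mem_K {s : ℝ} (hs : 0 ≤ s) {x : E2} : x ∈ K s ↔ -(1 / 32) ≤ x 1 ∧ -(3 / 2) ≤ x 0 - 96 * x 1 ∧
    x 0 - 96 * x 1 ≤ 3 / 2 ∧ x 1 ≤ s ∧ x 1 ≤ s * (3 / 2 - x 0) ∧ x 1 ≤ s * (3 / 2 + x 0) := by
  unfold K
  rw [mem_setOf_eq, kap_le hs, abs_le]
  tauto

theorem mem_H {s : ℝ} (hs : 0 ≤ s) {x : E2} : x ∈ H s ↔ -(1 / 32) ≤ x 1 ∧ -(3 / 2) ≤ x 0 - 96 * x 1 ∧
    x 0 - 96 * x 1 ≤ 3 / 2 ∧ x 1 ≤ s * (3 / 2 - x 0) ∧ x 1 ≤ s * (3 / 2 + x 0) := by
  unfold H
  rw [mem_setOf_eq, house_le hs, abs_le]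
  tauto

theorem continuous_kap (s : ℝ) : Continuous (kap s) := by
  unfold kap
  fun_prop

theorem isClosed_K (s : ℝ) : IsClosed (K s) := by
  have h0 : Continuous (fun x : E2 => x 0) := by fun_prop
  have h1 : Continuous (fun x : E2 => x 1) := by fun_prop
  refine (isClosed_le continuous_const h1).inter (IsClosed.inter ?_ ?_)
  · exact isClosed_le ((h0.sub (continuous_const.mul h1)).abs) continuous_const
  · exact isClosed_le h1 ((continuous_kap s).comp h0)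

theorem isClosed_H (s : ℝ) : IsClosed (H s) := by
  have h0 : Continuous (fun x : E2 => x 0) := by fun_prop
  have h1 : Continuous (fun x : E2 => x 1) := by fun_prop
  refine (isClosed_le continuous_const h1).inter (IsClosed.inter ?_ ?_)
  · exact isClosed_le ((h0.sub (continuous_const.mul h1)).abs) continuous_const
  · exact isClosed_le h1 (continuous_const.mul (continuous_const.sub h0.abs))

theorem norm_le_of_coord {x : E2} {a b R : ℝ} (h0 : |x 0| ≤ a) (h1 : |x 1| ≤ b)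
    (hR : 0 ≤ R) (h : a ^ 2 + b ^ 2 ≤ R ^ 2) : ‖x‖ ≤ R := by
  have h2 : ‖x‖ ^ 2 = x 0 ^ 2 + x 1 ^ 2 := by
    rw [EuclideanSpace.norm_sq_eq, Fin.sum_univ_two]
    simp
  have h3 : x 0 ^ 2 ≤ a ^ 2 := by
    rw [← sq_abs (x 0)]
    exact pow_le_pow_left₀ (abs_nonneg _) h0 2
  have h4 : x 1 ^ 2 ≤ b ^ 2 := by
    rw [← sq_abs (x 1)]
    exact pow_le_pow_left₀ (abs_nonneg _) h1 2
  exact le_of_sq_le_sq (by rw [h2]; linarith) hR

/-- the house (hence the body) is in a small box: `-9/2 ≤ p ≤ 3/2`, `-1/32 ≤ r ≤ 3 s / 2` -/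
theorem H_box {s : ℝ} (hs : 0 ≤ s) {x : E2} (hx : x ∈ H s) :
    -(9 / 2) ≤ x 0 ∧ x 0 ≤ 3 / 2 + 96 * (3 * s / 2) ∧ -(1 / 32) ≤ x 1 ∧ x 1 ≤ 3 * s / 2 := by
  rw [mem_H hs] at hx
  obtain ⟨h1, h2, h3, h4, h5⟩ := hx
  have h6 : x 1 ≤ 3 * s / 2 := by linarith
  exact ⟨by linarith, by linarith, h1, h6⟩

theorem K_subset_H {s : ℝ} (hs : 0 ≤ s) : K s ⊆ H s := by
  intro x hx
  rw [mem_K hs] at hx
  rw [mem_H hs]
  tauto

theorem isCompact_H {s : ℝ} (hs : 0 ≤ s) : IsCompact (H s) := by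
  refine Metric.isCompact_of_isClosed_isBounded (isClosed_H s) ?_
  refine (Metric.isBounded_closedBall (x := (0 : E2)) (r := 6 + 146 * s)).subset ?_
  intro x hx
  obtain ⟨h1, h2, h3, h4⟩ := H_box hs hx
  rw [mem_closedBall_zero_iff]
  refine norm_le_of_coord (a := 5 + 144 * s) (b := 1 + 2 * s) ?_ ?_ (by positivity) ?_
  · rw [abs_le]; constructor <;> linarith
  · rw [abs_le]; constructor <;> linarith
  · nlinarith

theorem isCompact_K {s : ℝ} (hs : 0 ≤ s) : IsCompact (K s) :=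
  (isCompact_H hs).of_isClosed_subset (isClosed_K s) (K_subset_H hs)

theorem measurableSet_K (s : ℝ) : MeasurableSet (K s) := (isClosed_K s).measurableSet

theorem measurableSet_H (s : ℝ) : MeasurableSet (H s) := (isClosed_H s).measurableSet

theorem convex_lin (f : ℝ → ℝ → ℝ) (c : ℝ) (hf : ∀ a b x y x' y', f (a * x + b * x') (a * y + b * y')
    = a * f x y + b * f x' y') : Convex ℝ {x : E2 | f (x 0) (x 1) ≤ c} := by
  intro x hx y hy a b ha hb hab
  simp only [mem_setOf_eq] at hx hy ⊢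
  have e0 : (a • x + b • y) 0 = a * x 0 + b * y 0 := by simp
  have e1 : (a • x + b • y) 1 = a * x 1 + b * y 1 := by simp
  rw [e0, e1, hf]
  calc a * f (x 0) (x 1) + b * f (y 0) (y 1) ≤ a * c + b * c := by
        gcongr
    _ = c := by rw [← add_mul, hab, one_mul]

theorem convex_H {s : ℝ} (hs : 0 ≤ s) : Convex ℝ (H s) := by
  have e : H s = {x : E2 | -(x 1) ≤ 1 / 32} ∩ {x : E2 | 96 * x 1 - x 0 ≤ 3 / 2} ∩
      {x : E2 | x 0 - 96 * x 1 ≤ 3 / 2} ∩ {x : E2 | x 1 + s * x 0 ≤ s * (3 / 2)} ∩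
      {x : E2 | x 1 - s * x 0 ≤ s * (3 / 2)} := by
    ext x
    rw [mem_H hs]
    simp only [mem_inter_iff, mem_setOf_eq]
    constructor
    · rintro ⟨h1, h2, h3, h4, h5⟩
      refine ⟨⟨⟨⟨?_, ?_⟩, ?_⟩, ?_⟩, ?_⟩ <;> linarith
    · rintro ⟨⟨⟨⟨h1, h2⟩, h3⟩, h4⟩, h5⟩
      refine ⟨?_, ?_, ?_, ?_, ?_⟩ <;> linarith
  rw [e]
  refine ((((convex_lin (fun _ y => -y) _ ?_).inter (convex_lin (fun x y => 96 * y - x) _ ?_)).inter
    (convex_lin (fun x y => x - 96 * y) _ ?_)).inter (convex_lin (fun x y => y + s * x) _ ?_)).inter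
    (convex_lin (fun x y => y - s * x) _ ?_) <;> · intros; ring

theorem convex_K {s : ℝ} (hs : 0 ≤ s) : Convex ℝ (K s) := by
  have e : K s = H s ∩ {x : E2 | x 1 ≤ s} := by
    ext x
    simp only [mem_inter_iff, mem_setOf_eq]
    rw [mem_K hs, mem_H hs]
    tauto
  rw [e]
  exact (convex_H hs).inter (convex_lin (fun _ y => y) _ (by intros; ring))

theorem K_interior (s : ℝ) : (interior (K s)).Nonempty := by
  have h0 : Continuous (fun x : E2 => x 0) := by fun_prop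
  have h1 : Continuous (fun x : E2 => x 1) := by fun_prop
  have hO : IsOpen {x : E2 | -(1 / 32) < x 1 ∧ |x 0 - 96 * x 1| < 3 / 2 ∧ x 1 < kap s (x 0)} := by
    refine (isOpen_lt continuous_const h1).inter (IsOpen.inter ?_ ?_)
    · exact isOpen_lt ((h0.sub (continuous_const.mul h1)).abs) continuous_const
    · exact isOpen_lt h1 ((continuous_kap s).comp h0)
  refine ⟨pt (-(3 / 2)) (-(1 / 64)), interior_maximal (s := K s) ?_ hO ?_⟩
  · rintro x ⟨h1, h2, h3⟩
    exact ⟨h1.le, h2.le, h3.le⟩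
  · simp only [mem_setOf_eq, pt_zero, pt_one]
    refine ⟨by norm_num, by norm_num, ?_⟩
    unfold kap
    rw [abs_of_nonpos (by norm_num : (-(3 / 2) : ℝ) ≤ 0)]
    norm_num

theorem K_basic' {s : ℝ} (hs : 0 ≤ s) :
    IsCompact (K s) ∧ Convex ℝ (K s) ∧ (interior (K s)).Nonempty :=
  ⟨isCompact_K hs, convex_K hs, K_interior s⟩

/-! ## areas -/

theorem mp_coord : MeasurePreserving (fun x : E2 => ((x 0, x 1) : ℝ × ℝ)) volume volume :=
  (volume_preserving_finTwoArrow ℝ).comp (PiLp.volume_preserving_ofLp (Fin 2))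

/-- area of a region between two graphs over the second coordinate -/
theorem area_between {a b : ℝ} (hab : a ≤ b) {lo hi : ℝ → ℝ} (hlo : Continuous lo)
    (hhi : Continuous hi) (h : ∀ y ∈ Icc a b, lo y ≤ hi y) :
    volume {x : E2 | (a ≤ x 1 ∧ x 1 ≤ b) ∧ lo (x 1) ≤ x 0 ∧ x 0 ≤ hi (x 1)} =
      ENNReal.ofReal (∫ y in a..b, (hi y - lo y)) := by
  set S : Set (ℝ × ℝ) := {q | (a ≤ q.2 ∧ q.2 ≤ b) ∧ lo q.2 ≤ q.1 ∧ q.1 ≤ hi q.2} with hS
  have hSm : MeasurableSet S := by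
    refine ((measurableSet_le measurable_const measurable_snd).inter
      (measurableSet_le measurable_snd measurable_const)).inter
      ((measurableSet_le (hlo.measurable.comp measurable_snd) measurable_fst).inter
      (measurableSet_le measurable_fst (hhi.measurable.comp measurable_snd)))
  have e : {x : E2 | (a ≤ x 1 ∧ x 1 ≤ b) ∧ lo (x 1) ≤ x 0 ∧ x 0 ≤ hi (x 1)} =
      (fun x : E2 => ((x 0, x 1) : ℝ × ℝ)) ⁻¹' S := rfl
  rw [e, mp_coord.measure_preimage hSm.nullMeasurableSet, Measure.volume_eq_prod,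
    Measure.prod_apply_symm hSm]
  have e2 : ∀ y : ℝ, volume ((fun x : ℝ => (x, y)) ⁻¹' S) =
      (Icc a b).indicator (fun y => ENNReal.ofReal (hi y - lo y)) y := by
    intro y
    by_cases hy : y ∈ Icc a b
    · rw [indicator_of_mem hy]
      have : (fun x : ℝ => (x, y)) ⁻¹' S = Icc (lo y) (hi y) := by
        ext x
        simp only [hS, mem_preimage, mem_setOf_eq, mem_Icc]
        constructor
        · rintro ⟨_, h2⟩; exact h2
        · intro h2; exact ⟨hy, h2⟩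
      rw [this, Real.volume_Icc]
    · rw [indicator_of_notMem hy]
      have : (fun x : ℝ => (x, y)) ⁻¹' S = ∅ := by
        ext x
        simp only [hS, mem_preimage, mem_setOf_eq, mem_empty_iff_false, iff_false]
        rintro ⟨h1, _⟩
        exact hy h1
      rw [this, measure_empty]
  rw [lintegral_congr e2, lintegral_indicator measurableSet_Icc,
    intervalIntegral.integral_of_le hab, ← integral_Icc_eq_integral_Ioc,
    ofReal_integral_eq_lintegral_ofReal]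
  · exact (hhi.sub hlo).continuousOn.integrableOn_Icc
  · refine (ae_restrict_iff' measurableSet_Icc).2 (ae_of_all _ fun y hy => ?_)
    exact sub_nonneg.2 (h y hy)

/-- area of the part of the house below the height `b` -/
theorem area_part {s b : ℝ} (hs : 0 < s) (hs' : s ≤ 1 / 96) (hb : 0 ≤ b) (hb' : b ≤ 3 * s / 2) :
    volume {x : E2 | (-(1 / 32) ≤ x 1 ∧ x 1 ≤ b) ∧
      max (96 * x 1) (x 1 / s) - 3 / 2 ≤ x 0 ∧ x 0 ≤ min (96 * x 1) (-(x 1 / s)) + 3 / 2} =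
      ENNReal.ofReal (3 / 32 + 3 * b - b ^ 2 / s) := by
  have hs96 : 96 ≤ 1 / s := by
    rw [le_div_iff₀ hs]; linarith
  have key1 : ∀ y : ℝ, y ≤ 0 → max (96 * y) (y / s) = 96 * y ∧ min (96 * y) (-(y / s)) = 96 * y := by
    intro y hy
    have h1 : y / s ≤ 96 * y := by
      rw [div_eq_mul_one_div]
      nlinarith
    have h2 : y / s ≤ 0 := div_nonpos_of_nonpos_of_nonneg hy hs.le
    exact ⟨max_eq_left h1, min_eq_left (by linarith)⟩
  have key2 : ∀ y : ℝ, 0 ≤ y → max (96 * y) (y / s) = y / s ∧ min (96 * y) (-(y / s)) = -(y / s) := by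
    intro y hy
    have h1 : 96 * y ≤ y / s := by
      rw [div_eq_mul_one_div]
      nlinarith
    have h2 : 0 ≤ y / s := div_nonneg hy hs.le
    exact ⟨max_eq_right h1, min_eq_right (by linarith)⟩
  have clo : Continuous (fun y : ℝ => max (96 * y) (y / s) - 3 / 2) := by fun_prop
  have chi : Continuous (fun y : ℝ => min (96 * y) (-(y / s)) + 3 / 2) := by fun_prop
  rw [area_between (a := -(1 / 32)) (b := b) (by linarith) clo chi]
  · congr 1
    have cd : Continuous (fun y : ℝ => (min (96 * y) (-(y / s)) + 3 / 2) -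
      (max (96 * y) (y / s) - 3 / 2)) := chi.sub clo
    rw [← intervalIntegral.integral_add_adjacent_intervals (b := 0)
      (cd.intervalIntegrable _ _) (cd.intervalIntegrable _ _)]
    have i1 : ∫ y in (-(1 / 32) : ℝ)..0, ((min (96 * y) (-(y / s)) + 3 / 2) -
        (max (96 * y) (y / s) - 3 / 2)) = ∫ y in (-(1 / 32) : ℝ)..0, (3 : ℝ) := by
      refine intervalIntegral.integral_congr fun y hy => ?_
      rw [uIcc_of_le (by norm_num)] at hy
      obtain ⟨h1, h2⟩ := key1 y hy.2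
      simp only [h1, h2]
      ring
    have i2 : ∫ y in (0 : ℝ)..b, ((min (96 * y) (-(y / s)) + 3 / 2) -
        (max (96 * y) (y / s) - 3 / 2)) = ∫ y in (0 : ℝ)..b, (3 - (2 / s) * y) := by
      refine intervalIntegral.integral_congr fun y hy => ?_
      rw [uIcc_of_le hb] at hy
      obtain ⟨h1, h2⟩ := key2 y hy.1
      simp only [h1, h2]
      ring
    have i3 : ∫ y in (0 : ℝ)..b, (3 - (2 / s) * y) = 3 * b - b ^ 2 / s := by
      have c1 : IntervalIntegrable (fun _ : ℝ => (3 : ℝ)) volume 0 b := by simp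
      have c2 : IntervalIntegrable (fun y : ℝ => (2 / s) * y) volume 0 b :=
        (by fun_prop : Continuous (fun y : ℝ => (2 / s) * y)).intervalIntegrable _ _
      rw [intervalIntegral.integral_sub c1 c2, intervalIntegral.integral_const_mul, integral_id,
        intervalIntegral.integral_const, smul_eq_mul]
      ring
    rw [i1, i2, i3, intervalIntegral.integral_const, smul_eq_mul]
    ring
  · intro y hy
    rcases le_total y 0 with h | h
    · obtain ⟨h1, h2⟩ := key1 y h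
      rw [h1, h2]; linarith
    · obtain ⟨h1, h2⟩ := key2 y h
      rw [h1, h2]
      have : y / s ≤ 3 / 2 := by
        rw [div_le_iff₀ hs]; linarith [hy.2]
      linarith

theorem slice_iff (s p r : ℝ) :
    (max (96 * r) (r / s) - 3 / 2 ≤ p ∧ p ≤ min (96 * r) (-(r / s)) + 3 / 2) ↔
      ((96 * r - 3 / 2 ≤ p ∧ r / s - 3 / 2 ≤ p) ∧ p ≤ 96 * r + 3 / 2 ∧ p ≤ -(r / s) + 3 / 2) := by
  constructor
  · rintro ⟨h1, h2⟩
    have := le_max_left (96 * r) (r / s)
    have := le_max_right (96 * r) (r / s)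
    have := min_le_left (96 * r) (-(r / s))
    have := min_le_right (96 * r) (-(r / s))
    refine ⟨⟨?_, ?_⟩, ?_, ?_⟩ <;> linarith
  · rintro ⟨⟨h1, h2⟩, h3, h4⟩
    refine ⟨?_, ?_⟩
    · rcases le_total (96 * r) (r / s) with h | h
      · rw [max_eq_right h]; exact h2
      · rw [max_eq_left h]; exact h1
    · rcases le_total (96 * r) (-(r / s)) with h | h
      · rw [min_eq_left h]; exact h3
      · rw [min_eq_right h]; exact h4

theorem le_div_iff_h {s r p : ℝ} (hs : 0 < s) :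
    (r ≤ s * (3 / 2 - p) ↔ r / s ≤ 3 / 2 - p) ∧ (r ≤ s * (3 / 2 + p) ↔ r / s ≤ 3 / 2 + p) := by
  constructor <;> rw [div_le_iff₀ hs, mul_comm]

theorem vol_K_pos {s : ℝ} (hs : 0 < s) (hs' : s ≤ 1 / 96) :
    volume (K s) = ENNReal.ofReal (3 / 32 + 2 * s) := by
  have h := area_part hs hs' hs.le (by linarith : s ≤ 3 * s / 2)
  have e : K s = {x : E2 | (-(1 / 32) ≤ x 1 ∧ x 1 ≤ s) ∧
      max (96 * x 1) (x 1 / s) - 3 / 2 ≤ x 0 ∧ x 0 ≤ min (96 * x 1) (-(x 1 / s)) + 3 / 2} := by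
    ext x
    rw [mem_K hs.le, (le_div_iff_h hs).1, (le_div_iff_h hs).2]
    rw [mem_setOf_eq, slice_iff]
    constructor
    · rintro ⟨h1, h2, h3, h4, h5, h6⟩
      refine ⟨⟨h1, h4⟩, ⟨?_, ?_⟩, ?_, ?_⟩ <;> linarith
    · rintro ⟨⟨h1, h4⟩, ⟨h2, h3⟩, h5, h6⟩
      refine ⟨h1, ?_, ?_, h4, ?_, ?_⟩ <;> linarith
  rw [e, h]
  congr 1
  field_simp
  ring

theorem vol_H_pos {s : ℝ} (hs : 0 < s) (hs' : s ≤ 1 / 96) :
    volume (H s) = ENNReal.ofReal (3 / 32 + 9 * s / 4) := by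
  have h := area_part hs hs' (b := 3 * s / 2) (by positivity) le_rfl
  have e : H s = {x : E2 | (-(1 / 32) ≤ x 1 ∧ x 1 ≤ 3 * s / 2) ∧
      max (96 * x 1) (x 1 / s) - 3 / 2 ≤ x 0 ∧ x 0 ≤ min (96 * x 1) (-(x 1 / s)) + 3 / 2} := by
    ext x
    constructor
    · intro hx
      have hb := (H_box hs.le hx).2.2.2
      rw [mem_H hs.le, (le_div_iff_h hs).1, (le_div_iff_h hs).2] at hx
      rw [mem_setOf_eq, slice_iff]
      obtain ⟨h1, h2, h3, h5, h6⟩ := hx
      refine ⟨⟨h1, hb⟩, ⟨?_, ?_⟩, ?_, ?_⟩ <;> linarith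
    · rw [mem_H hs.le, (le_div_iff_h hs).1, (le_div_iff_h hs).2]
      rw [mem_setOf_eq, slice_iff]
      rintro ⟨⟨h1, h4⟩, ⟨h2, h3⟩, h5, h6⟩
      refine ⟨h1, ?_, ?_, ?_, ?_⟩ <;> linarith
  rw [e, h]
  congr 1
  field_simp
  ring

theorem vol_K_zero : volume (K 0) = ENNReal.ofReal (3 / 32) := by
  have h := area_between (a := -(1 / 32)) (b := 0) (by norm_num)
    (lo := fun y => 96 * y - 3 / 2) (hi := fun y => 96 * y + 3 / 2) (by fun_prop) (by fun_prop)
    (by intro y _; linarith)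
  have e : K 0 = {x : E2 | (-(1 / 32) ≤ x 1 ∧ x 1 ≤ 0) ∧
      96 * x 1 - 3 / 2 ≤ x 0 ∧ x 0 ≤ 96 * x 1 + 3 / 2} := by
    ext x
    rw [mem_K le_rfl]
    simp only [mem_setOf_eq, zero_mul]
    constructor
    · rintro ⟨h1, h2, h3, h4, h5, h6⟩
      refine ⟨⟨h1, h4⟩, ?_, ?_⟩ <;> linarith
    · rintro ⟨⟨h1, h4⟩, h2, h3⟩
      refine ⟨h1, ?_, ?_, h4, ?_, ?_⟩ <;> linarith
  rw [e, h]
  congr 1
  have : ∀ y : ℝ, 96 * y + 3 / 2 - (96 * y - 3 / 2) = 3 := by intro y; ring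
  simp only [this, intervalIntegral.integral_const, smul_eq_mul]
  norm_num

theorem vol_K {s : ℝ} (hs : 0 ≤ s) (hs' : s ≤ 1 / 96) :
    volume (K s) = ENNReal.ofReal (3 / 32 + 2 * s) := by
  rcases hs.eq_or_lt with rfl | h
  · rw [vol_K_zero]; norm_num
  · exact vol_K_pos h hs'

theorem H_zero : H 0 = K 0 := by
  ext x
  rw [mem_K le_rfl, mem_H le_rfl]
  simp only [zero_mul]
  tauto

theorem vol_H {s : ℝ} (hs : 0 ≤ s) (hs' : s ≤ 1 / 96) :
    volume (H s) = ENNReal.ofReal (3 / 32 + 9 * s / 4) := by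
  rcases hs.eq_or_lt with rfl | h
  · rw [H_zero, vol_K_zero]; norm_num
  · exact vol_H_pos h hs'

end Pool.Cyl.KB
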