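import Pool.Agent.W_0c5e58_h33.StructC
import Pool.Agent.W_0c5e58_h33.Cell

/-!
# Compactness
-/

open MeasureTheory Metric Set Filter
open scoped Topology ENNReal

namespace Pool.Cyl

open Pool.TC

/-- a configuration of `m` bodies, body `i₀` in standard position, three other bodies within `δ`
of its trimmed side, and void at most `δ` in the disc of radius `2` -/
def BadCfg (m : ℕ) (δ : ℝ) : Prop :=
  ∃ (s : ℝ) (M : Fin m → Mov) (i₀ j₁ j₂ j₃ : Fin m) (y₁ y₂ y₃ z₁ z₂ z₃ : E2),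
    0 < s ∧ s ≤ δ ∧ s ≤ 1 / 100 ∧ (∀ j, ‖(M j).b‖ ≤ 20) ∧ (∀ x, (M i₀).f x = x) ∧
    (∀ j k, j ≠ k → Disjoint (interior ((M j).body s)) (interior ((M k).body s))) ∧
    j₁ ≠ i₀ ∧ j₂ ≠ i₀ ∧ j₃ ≠ i₀ ∧ j₁ ≠ j₂ ∧ j₁ ≠ j₃ ∧ j₂ ≠ j₃ ∧
    y₁ ∈ seg ∧ y₂ ∈ seg ∧ y₃ ∈ seg ∧
    z₁ ∈ (M j₁).body s ∧ z₂ ∈ (M j₂).body s ∧ z₃ ∈ (M j₃).body s ∧
    dist z₁ y₁ ≤ δ ∧ dist z₂ y₂ ≤ δ ∧ dist z₃ y₃ ≤ δ ∧
    volume (ball (0 : E2) 2 \ ⋃ j, (M j).body s) ≤ ENNReal.ofReal δ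

/-- a bounded sequence in a finite dimensional space converges along an ultrafilter -/
theorem ultra_lim {V : Type*} [NormedAddCommGroup V] [NormedSpace ℝ V] [FiniteDimensional ℝ V]
    (F : Ultrafilter ℕ) (x : ℕ → V) {R : ℝ} (hx : ∀ n, ‖x n‖ ≤ R) :
    ∃ a, Tendsto x (F : Filter ℕ) (𝓝 a) := by
  have hprop : ProperSpace V := FiniteDimensional.proper ℝ _
  obtain ⟨a, _, ha⟩ := (isCompact_closedBall (0 : V) R).ultrafilter_le_nhds
    (Ultrafilter.map x F) (by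
      rw [le_principal_iff, Ultrafilter.coe_map, Filter.mem_map]
      exact Filter.univ_mem' (fun n => by
        show x n ∈ closedBall (0 : V) R
        rw [mem_closedBall_zero_iff]
        exact hx n))
  exact ⟨a, ha⟩

/-- motions with bounded translations converge along an ultrafilter to a motion -/
theorem ultra_mov (F : Ultrafilter ℕ) (M : ℕ → Mov) (hM : ∀ n, ‖(M n).b‖ ≤ 20) :
    ∃ N : Mov, Tendsto (fun n => (M n).A) (F : Filter ℕ) (𝓝 N.A) ∧
      Tendsto (fun n => (M n).b) (F : Filter ℕ) (𝓝 N.b) := by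
  have hA : ∀ n, ‖(M n).A‖ ≤ 1 := fun n =>
    ContinuousLinearMap.opNorm_le_bound _ zero_le_one fun x => by rw [(M n).iso x, one_mul]
  obtain ⟨A, hA'⟩ := ultra_lim F (fun n => (M n).A) hA
  obtain ⟨b, hb'⟩ := ultra_lim F (fun n => (M n).b) hM
  refine ⟨⟨A, b, fun x => ?_⟩, hA', hb'⟩
  have h1 : Tendsto (fun n => ‖(M n).A x‖) (F : Filter ℕ) (𝓝 ‖A x‖) :=
    (((ContinuousLinearMap.apply ℝ E2 x).continuous.tendsto _).comp hA').norm
  have h2 : Tendsto (fun n => ‖(M n).A x‖) (F : Filter ℕ) (𝓝 ‖x‖) := by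
    simp only [(M _).iso]
    exact tendsto_const_nhds
  exact tendsto_nhds_unique h1 h2

/-- a map to a finite type is constant on a set of the ultrafilter -/
theorem ultra_const {α : Type*} [Finite α] (F : Ultrafilter ℕ) (x : ℕ → α) :
    ∃ a, ∀ᶠ n in (F : Filter ℕ), x n = a := by
  have h : (⋃ a ∈ (univ : Set α), {n | x n = a}) ∈ F := by
    apply Filter.univ_mem'
    intro n
    simp
  obtain ⟨a, _, ha⟩ := (Ultrafilter.finite_biUnion_mem_iff (Set.finite_univ)).1 h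
  exact ⟨a, ha⟩

variable {F : Filter ℕ} {M : ℕ → Mov} {N : Mov} {s : ℕ → ℝ} {x : ℕ → E2} {x' : E2}

private theorem LimA_app {α : Type*} {G : Filter α} {A : α → (E2 →L[ℝ] E2)} {A' : E2 →L[ℝ] E2}
    {y : α → E2} {y' : E2} (hA : Tendsto A G (𝓝 A')) (hy : Tendsto y G (𝓝 y')) :
    Tendsto (fun n => A n (y n)) G (𝓝 (A' y')) := by
  have h1 : Continuous fun p : (E2 →L[ℝ] E2) × E2 => p.1 p.2 := isBoundedBilinearMap_apply.continuous
  exact (h1.tendsto (A', y')).comp (hA.prodMk_nhds hy)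

theorem lim_f (hA : Tendsto (fun n => (M n).A) F (𝓝 N.A)) (hb : Tendsto (fun n => (M n).b) F (𝓝 N.b))
    (hx : Tendsto x F (𝓝 x')) : Tendsto (fun n => (M n).f (x n)) F (𝓝 (N.f x')) :=
  (LimA_app hA hx).add hb

private theorem LimA_coord (i : Fin 2) : Continuous fun x : E2 => x i :=
  (continuous_apply i).comp (PiLp.continuous_ofLp 2 _)

private theorem LimA_closed : IsClosed {q : ℝ × E2 | q.2 ∈ K q.1} := by
  have h0 : Continuous fun q : ℝ × E2 => q.2 0 := (LimA_coord 0).comp continuous_snd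
  have h1 : Continuous fun q : ℝ × E2 => q.2 1 := (LimA_coord 1).comp continuous_snd
  have e : {q : ℝ × E2 | q.2 ∈ K q.1} = {q : ℝ × E2 | -(1 / 32) ≤ q.2 1} ∩
      ({q : ℝ × E2 | |q.2 0 - 96 * q.2 1| ≤ 3 / 2} ∩ {q : ℝ × E2 | q.2 1 ≤ kap q.1 (q.2 0)}) := rfl
  rw [e]
  refine (isClosed_le continuous_const h1).inter ((isClosed_le ?_ continuous_const).inter
    (isClosed_le h1 ?_))
  · fun_prop
  · unfold kap
    fun_prop

/-- `K s` is given by closed conditions which are jointly continuous in `s` and the point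
(`kap s p` is jointly continuous) -/
theorem lim_mem [F.NeBot] (hA : Tendsto (fun n => (M n).A) F (𝓝 N.A))
    (hb : Tendsto (fun n => (M n).b) F (𝓝 N.b)) (hs : Tendsto s F (𝓝 0))
    (hx : Tendsto x F (𝓝 x')) (h : ∀ᶠ n in F, x n ∈ (M n).body (s n)) : N.f x' ∈ K 0 := by
  have h1 : Tendsto (fun n => (s n, (M n).f (x n))) F (𝓝 ((0 : ℝ), N.f x')) :=
    hs.prodMk_nhds (lim_f hA hb hx)
  exact LimA_closed.mem_of_tendsto h1 h

/-- a point outside the limit body has a small disc which is outside the body for late `n`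
(by contradiction or directly: one of the continuous conditions fails by a margin) -/
theorem lim_nmem (hA : Tendsto (fun n => (M n).A) F (𝓝 N.A))
    (hb : Tendsto (fun n => (M n).b) F (𝓝 N.b)) (hs : Tendsto s F (𝓝 0))
    (h : N.f x' ∉ K 0) : ∃ ρ > 0, ∀ᶠ n in F, ∀ y ∈ ball x' ρ, y ∉ (M n).body (s n) := by
  have h1 : Tendsto (fun q : ℕ × E2 => (s q.1, (M q.1).f q.2)) (F ×ˢ 𝓝 x')
      (𝓝 ((0 : ℝ), N.f x')) := by
    refine (hs.comp tendsto_fst).prodMk_nhds ?_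
    exact (LimA_app (hA.comp tendsto_fst) tendsto_snd).add (hb.comp tendsto_fst)
  have h2 := h1.eventually (LimA_closed.isOpen_compl.mem_nhds h)
  obtain ⟨pa, ha, pb, hpb, hab⟩ := eventually_prod_iff.1 h2
  obtain ⟨ρ, hρ, hball⟩ := Metric.eventually_nhds_iff.1 hpb
  refine ⟨ρ, hρ, ?_⟩
  filter_upwards [ha] with n hn y hy
  exact hab hn (hball (mem_ball.1 hy))

theorem lim_int (hA : Tendsto (fun n => (M n).A) F (𝓝 N.A))
    (hb : Tendsto (fun n => (M n).b) F (𝓝 N.b)) (h : N.f x' ∈ T₀) :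
    ∀ᶠ n in F, (M n).f x' ∈ T₀ := by
  have h1 : Tendsto (fun n => (M n).f x') F (𝓝 (N.f x')) := lim_f hA hb tendsto_const_nhds
  exact h1.eventually (isOpen_T₀.mem_nhds h)

end Pool.Cyl
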