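import Pool.Agent.W_0c5e58_h33.LimA

/-!
# Compactness
-/

open MeasureTheory Metric Set Filter
open scoped Topology ENNReal

namespace Pool.Cyl

open Pool.TC

variable {F : Filter ℕ} {M : ℕ → Mov} {N : Mov} {s : ℕ → ℝ} {x : ℕ → E2} {x' : E2}

private theorem LimB_seg_closed : IsClosed seg := by
  have h0 : Continuous fun x : E2 => x 0 := by fun_prop
  have h1 : Continuous fun x : E2 => x 1 := by fun_prop
  exact (isClosed_le h0.abs continuous_const).inter (isClosed_eq h1 continuous_const)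

private theorem LimB_seg_norm {y : E2} (hy : y ∈ seg) : ‖y‖ ≤ 2 := by
  obtain ⟨h0, h1⟩ := hy
  rw [EuclideanSpace.norm_eq, Fin.sum_univ_two, h1]
  refine Real.sqrt_le_iff.2 ⟨by norm_num, ?_⟩
  have : ‖y 0‖ ^ 2 ≤ (5 / 4) ^ 2 := pow_le_pow_left₀ (norm_nonneg _) h0 2
  rw [norm_zero]
  norm_num at this ⊢
  linarith

private theorem LimB_seg_op {y : E2} (hy : y ∈ seg) : y ∈ op :=
  ⟨lt_of_le_of_lt hy.1 (by norm_num), hy.2⟩

/-- **Compactness**: for fixed `m` there are no bad configurations with small `δ`.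
Otherwise `BadCfg m (1/(n+1))` for all `n`; choose, take limits along `hyperfilter ℕ`
(`ultra_mov` for every `j : Fin m`, `ultra_lim` for the points, `ultra_const` for the four
indices; `seg` is compact).  The limit motions form a `Til`: `id` by `lim_f`, `dis` by `lim_int`,
`T₀_sub_interior`, `Mov.interior`; `cov`: a point `x ∈ ball 0 2` outside all limit bodies has by
`lim_nmem` a small disc inside the disc of radius `2` which is in the void for late `n`, its volume
is positive but `≤ 1/(n+1)`.  The three points have the same limits as the `y`'s, in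
`seg ⊆ op`: `lim_mem`, `structure_three`. -/
theorem no_bad (m : ℕ) : ∃ δ > 0, ¬ BadCfg m δ := by
  by_contra hcon
  push Not at hcon
  have H : ∀ n : ℕ, BadCfg m (1 / ((n : ℝ) + 1)) := fun n => hcon _ (by positivity)
  unfold BadCfg at H
  choose s M i₀ j₁ j₂ j₃ y₁ y₂ y₃ z₁ z₂ z₃ hs0 hs1 hs2 hb hid hdis n₁ n₂ n₃ n₁₂ n₁₃ n₂₃
    hy₁ hy₂ hy₃ hz₁ hz₂ hz₃ d₁ d₂ d₃ hvol using H
  set F : Ultrafilter ℕ := hyperfilter ℕ with hF
  have hFt : (F : Filter ℕ) ≤ atTop := Nat.hyperfilter_le_atTop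
  have hδ : Tendsto (fun n : ℕ => 1 / ((n : ℝ) + 1)) (F : Filter ℕ) (𝓝 0) :=
    tendsto_one_div_add_atTop_nhds_zero_nat.mono_left hFt
  have hs : Tendsto s (F : Filter ℕ) (𝓝 0) :=
    squeeze_zero (fun n => (hs0 n).le) hs1 hδ
  choose N hA hB using fun j : Fin m => ultra_mov F (fun n => M n j) (fun n => hb n j)
  obtain ⟨a₀, ha₀⟩ := ultra_const F i₀
  obtain ⟨a₁, ha₁⟩ := ultra_const F j₁
  obtain ⟨a₂, ha₂⟩ := ultra_const F j₂
  obtain ⟨a₃, ha₃⟩ := ultra_const F j₃
  obtain ⟨w₁, hw₁⟩ := ultra_lim F y₁ (fun n => LimB_seg_norm (hy₁ n))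
  obtain ⟨w₂, hw₂⟩ := ultra_lim F y₂ (fun n => LimB_seg_norm (hy₂ n))
  obtain ⟨w₃, hw₃⟩ := ultra_lim F y₃ (fun n => LimB_seg_norm (hy₃ n))
  have hv₁ : Tendsto z₁ (F : Filter ℕ) (𝓝 w₁) := by
    refine (tendsto_iff_of_dist ?_).1 hw₁
    refine squeeze_zero (fun n => dist_nonneg) (fun n => ?_) hδ
    rw [dist_comm]; exact d₁ n
  have hv₂ : Tendsto z₂ (F : Filter ℕ) (𝓝 w₂) := by
    refine (tendsto_iff_of_dist ?_).1 hw₂
    refine squeeze_zero (fun n => dist_nonneg) (fun n => ?_) hδ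
    rw [dist_comm]; exact d₂ n
  have hv₃ : Tendsto z₃ (F : Filter ℕ) (𝓝 w₃) := by
    refine (tendsto_iff_of_dist ?_).1 hw₃
    refine squeeze_zero (fun n => dist_nonneg) (fun n => ?_) hδ
    rw [dist_comm]; exact d₃ n
  have hg₁ : w₁ ∈ seg := LimB_seg_closed.mem_of_tendsto hw₁ (Eventually.of_forall hy₁)
  have hg₂ : w₂ ∈ seg := LimB_seg_closed.mem_of_tendsto hw₂ (Eventually.of_forall hy₂)
  have hg₃ : w₃ ∈ seg := LimB_seg_closed.mem_of_tendsto hw₃ (Eventually.of_forall hy₃)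
  have hT : Til N a₀ := by
    refine ⟨fun x => ?_, fun j k hjk x hx hx' => ?_, fun x hx => ?_⟩
    · have h1 := lim_f (hA a₀) (hB a₀) (tendsto_const_nhds (x := x) (f := (F : Filter ℕ)))
      have h2 : Tendsto (fun n => (M n a₀).f x) (F : Filter ℕ) (𝓝 x) := by
        refine tendsto_const_nhds.congr' ?_
        filter_upwards [ha₀] with n hn
        rw [← hn]
        exact (hid n x).symm
      exact tendsto_nhds_unique h1 h2
    · have h1 := lim_int (hA j) (hB j) hx
      have h2 := lim_int (hA k) (hB k) hx'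
      obtain ⟨n, hn1, hn2⟩ := (h1.and h2).exists
      have h3 : ∀ l : Fin m, (M n l).f x ∈ T₀ → x ∈ interior ((M n l).body (s n)) := by
        intro l hl
        have e : interior ((M n l).body (s n)) = {x | (M n l).f x ∈ interior (K (s n))} :=
          Mov.interior (M n l) (K (s n))
        rw [e]
        exact (T₀_sub_interior (hs0 n).le (hs2 n)).1 hl
      exact Set.disjoint_left.1 (hdis n j k hjk) (h3 j hn1) (h3 k hn2)
    · by_contra hno
      push Not at hno
      choose ρ hρ hev using fun j => lim_nmem (hA j) (hB j) hs (hno j)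
      obtain ⟨r, hr, hrb⟩ : ∃ r > 0, ball x r ⊆ ball (0 : E2) 2 := Metric.isOpen_iff.1 isOpen_ball x hx
      obtain ⟨t, ht, htr, htρ⟩ : ∃ t > 0, t ≤ r ∧ ∀ j, t ≤ ρ j := by
        rcases isEmpty_or_nonempty (Fin m) with he | he
        · exact ⟨r, hr, le_rfl, fun j => he.elim j⟩
        · obtain ⟨j₀, hj₀⟩ := Finite.exists_min ρ
          exact ⟨min r (ρ j₀), lt_min hr (hρ j₀), min_le_left _ _,
            fun j => (min_le_right _ _).trans (hj₀ j)⟩
      have hall : ∀ᶠ n in (F : Filter ℕ), ∀ j, ∀ y ∈ ball x (ρ j), y ∉ (M n j).body (s n) :=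
        eventually_all.2 hev
      have hle : ∀ᶠ n : ℕ in (F : Filter ℕ), volume (ball x t) ≤ ENNReal.ofReal (1 / ((n : ℝ) + 1)) := by
        filter_upwards [hall] with n hn
        refine (measure_mono ?_).trans (hvol n)
        intro y hy
        refine ⟨hrb (ball_subset_ball htr hy), ?_⟩
        simp only [mem_iUnion, not_exists]
        intro j
        exact hn j y (ball_subset_ball (htρ j) hy)
      have hlim : Tendsto (fun n : ℕ => ENNReal.ofReal (1 / ((n : ℝ) + 1))) (F : Filter ℕ) (𝓝 0) := by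
        have := (ENNReal.continuous_ofReal.tendsto 0).comp hδ
        rw [ENNReal.ofReal_zero] at this
        exact this
      have h0 : volume (ball x t) ≤ 0 := ge_of_tendsto hlim hle
      exact absurd h0 (not_le.2 (measure_ball_pos volume x ht))
  have hne : ∀ {p q : ℕ → Fin m} {a b : Fin m}, (∀ᶠ n in (F : Filter ℕ), p n = a) →
      (∀ᶠ n in (F : Filter ℕ), q n = b) → (∀ n, p n ≠ q n) → a ≠ b := by
    intro p q a b hp hq hpq hab
    obtain ⟨n, h1, h2⟩ := (hp.and hq).exists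
    exact hpq n (by rw [h1, h2, hab])
  have hm : ∀ {j : ℕ → Fin m} {a : Fin m} {z : ℕ → E2} {w : E2}, (∀ᶠ n in (F : Filter ℕ), j n = a) →
      Tendsto z (F : Filter ℕ) (𝓝 w) → (∀ n, z n ∈ (M n (j n)).body (s n)) → (N a).f w ∈ K 0 := by
    intro j a z w hj hz hzm
    refine lim_mem (hA a) (hB a) hs hz ?_
    filter_upwards [hj] with n hn
    have := hzm n
    rw [hn] at this
    exact this
  exact structure_three hT (hne ha₁ ha₀ n₁) (hne ha₂ ha₀ n₂) (hne ha₃ ha₀ n₃)
    (hne ha₁ ha₂ n₁₂) (hne ha₁ ha₃ n₁₃) (hne ha₂ ha₃ n₂₃)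
    (LimB_seg_op hg₁) (LimB_seg_op hg₂) (LimB_seg_op hg₃)
    (hm ha₁ hv₁ hz₁) (hm ha₂ hv₂ hz₂) (hm ha₃ hv₃ hz₃)

end Pool.Cyl
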