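import Pool.Agent.W_0c5e58_h33.SectorB

/-!
# Area of the parallelogram in small discs
-/

open MeasureTheory Metric Set Filter
open scoped Topology ENNReal

namespace Pool.Cyl

open Pool.TC

/-- `K 0` is the closed parallelogram (`kap 0 = 0`) -/
theorem mem_K_zero (x : E2) :
    x ∈ K 0 ↔ -(1 / 32) ≤ x 1 ∧ x 1 ≤ 0 ∧ |x 0 - 96 * x 1| ≤ 3 / 2 := by
  unfold K kap
  simp only [mem_ofPred_eq, zero_mul]
  tauto

private theorem LocArea_null {a b : ℝ} (hab : a ≠ 0 ∨ b ≠ 0) (c : ℝ) :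
    volume {x : E2 | a * x 0 + b * x 1 = c} = 0 := by
  by_cases hne : ∃ p : E2, a * p 0 + b * p 1 = c
  · obtain ⟨p, hp⟩ := hne
    let L : E2 →ₗ[ℝ] ℝ :=
      { toFun := fun x => a * x 0 + b * x 1
        map_add' := fun x y => by simp only [PiLp.add_apply]; ring
        map_smul' := fun r x => by
          simp only [PiLp.smul_apply, smul_eq_mul, RingHom.id_apply]; ring }
    have hL : ∀ x, L x = a * x 0 + b * x 1 := fun x => rfl
    have hset : {x : E2 | a * x 0 + b * x 1 = c} =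
        (AffineSubspace.mk' p (LinearMap.ker L) : Set E2) := by
      ext x
      rw [SetLike.mem_coe, AffineSubspace.mem_mk', vsub_eq_sub, LinearMap.mem_ker, map_sub,
        sub_eq_zero, hL, hL, hp]
      rfl
    rw [hset]
    refine Measure.addHaar_affineSubspace _ _ ?_
    intro htop
    have hall : ∀ x : E2, a * x 0 + b * x 1 = c := by
      intro x
      have : x ∈ (AffineSubspace.mk' p (LinearMap.ker L) : Set E2) := by
        rw [htop]; trivial
      rw [← hset] at this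
      exact this
    have h0 := hall 0
    have h1 := hall (pt 1 0)
    have h2 := hall (pt 0 1)
    simp only [PiLp.zero_apply, mul_zero, add_zero, pt_zero, pt_one, mul_one, zero_add] at h0 h1 h2
    rcases hab with h | h
    · exact h (by rw [h1, h0])
    · exact h (by rw [h2, h0])
  · have : {x : E2 | a * x 0 + b * x 1 = c} = ∅ := by
      ext x
      simp only [mem_ofPred_eq, mem_empty_iff_false, iff_false]
      exact fun h => hne ⟨x, h⟩
    rw [this, measure_empty]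

private theorem LocArea_coord (v : E2) : |v 1| ≤ ‖v‖ ∧ |v 0 - 96 * v 1| ≤ 97 * ‖v‖ := by
  have h0 : |v 0| ≤ ‖v‖ := by
    have := PiLp.norm_apply_le v 0
    rwa [Real.norm_eq_abs] at this
  have h1 : |v 1| ≤ ‖v‖ := by
    have := PiLp.norm_apply_le v 1
    rwa [Real.norm_eq_abs] at this
  refine ⟨h1, ?_⟩
  rw [abs_le] at h0 h1 ⊢
  constructor <;> linarith [h0.1, h0.2, h1.1, h1.2]

private theorem LocArea_core {x : E2} {P1 P2 : ℝ → Prop} {δ₁ δ₂ : ℝ} (hδ₁ : 0 < δ₁) (hδ₂ : 0 < δ₂)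
    (h1 : ∀ z, |z| < δ₁ → ((-(1 / 32) ≤ x 1 + z ∧ x 1 + z ≤ 0) ↔ P1 z))
    (h2 : ∀ z, |z| < δ₂ → ((-(3 / 2) ≤ x 0 - 96 * x 1 + z ∧ x 0 - 96 * x 1 + z ≤ 3 / 2) ↔ P2 z))
    (s1 : ∀ c : ℝ, 0 < c → ∀ z, P1 (c * z) ↔ P1 z) (s2 : ∀ c : ℝ, 0 < c → ∀ z, P2 (c * z) ↔ P2 z)
    {w : ℝ} (hvol : volume ({v : E2 | P1 (v 1) ∧ P2 (v 0 - 96 * v 1)} ∩ ball 0 1) =
      ENNReal.ofReal w) :
    ∃ ρ₀ > 0, ∀ ρ, 0 < ρ → ρ < ρ₀ →
        volume (K 0 ∩ ball x ρ) = ENNReal.ofReal (w * ρ ^ 2) := by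
  refine ⟨min δ₁ (δ₂ / 97), lt_min hδ₁ (by positivity), ?_⟩
  intro ρ hρ hρ'
  have hr1 : ρ < δ₁ := hρ'.trans_le (min_le_left _ _)
  have hr2 : ρ < δ₂ / 97 := hρ'.trans_le (min_le_right _ _)
  have hr2' : 97 * ρ < δ₂ := by linarith
  have hpre : (fun v : E2 => x + v) ⁻¹' (K 0 ∩ ball x ρ) =
      {v : E2 | P1 (v 1) ∧ P2 (v 0 - 96 * v 1)} ∩ ball 0 ρ := by
    ext v
    simp only [mem_preimage, mem_inter_iff, mem_ball, mem_ofPred_eq, dist_zero_right,
      dist_self_add_left, mem_K_zero, PiLp.add_apply]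
    constructor
    · rintro ⟨⟨a1, a2, a3⟩, hv⟩
      obtain ⟨b1, b2⟩ := LocArea_coord v
      have c1 := (h1 (v 1) (by linarith)).1 ⟨a1, a2⟩
      rw [abs_le] at a3
      have c2 := (h2 (v 0 - 96 * v 1) (by linarith)).1 ⟨by linarith [a3.1], by linarith [a3.2]⟩
      exact ⟨⟨c1, c2⟩, hv⟩
    · rintro ⟨⟨c1, c2⟩, hv⟩
      obtain ⟨b1, b2⟩ := LocArea_coord v
      have d1 := (h1 (v 1) (by linarith)).2 c1
      have d2 := (h2 (v 0 - 96 * v 1) (by linarith)).2 c2
      refine ⟨⟨d1.1, d1.2, ?_⟩, hv⟩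
      rw [abs_le]
      exact ⟨by linarith [d2.1], by linarith [d2.2]⟩
  have hcone : ∀ c : ℝ, 0 < c → ∀ v : E2, c • v ∈ {v : E2 | P1 (v 1) ∧ P2 (v 0 - 96 * v 1)} ↔
      v ∈ {v : E2 | P1 (v 1) ∧ P2 (v 0 - 96 * v 1)} := by
    intro c hc v
    simp only [mem_ofPred_eq, PiLp.smul_apply, smul_eq_mul]
    have e : c * v 0 - 96 * (c * v 1) = c * (v 0 - 96 * v 1) := by ring
    rw [e, s1 c hc, s2 c hc]
  have hc := vol_cone hcone hρ
  rw [← measure_preimage_add volume x (K 0 ∩ ball x ρ), hpre, hc, hvol,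
    ← ENNReal.ofReal_mul (by positivity), mul_comm]

private theorem LocArea_neg (C : Set E2) :
    volume ({v : E2 | -v ∈ C} ∩ ball 0 1) = volume (C ∩ ball 0 1) := by
  have : {v : E2 | -v ∈ C} ∩ ball 0 1 = (fun v : E2 => -v) ⁻¹' (C ∩ ball 0 1) := by
    ext v
    simp [mem_ball]
  rw [this]
  exact Measure.measure_preimage_neg volume _

private theorem LocArea_slant : volume ({v : E2 | v 0 - 96 * v 1 ≤ 0} ∩ ball 0 1) =
    ENNReal.ofReal (Real.pi / 2) := by
  have hmeas : ∀ i : Fin 2, Measurable fun v : E2 => v i := fun i =>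
    ((continuous_apply i).comp (PiLp.continuous_ofLp 2 _)).measurable
  have hob : volume ({v : E2 | 0 ≤ v 1 ∧ v 0 - 96 * v 1 ≤ 0} ∩ ball 0 1) =
      ENNReal.ofReal (Real.pi / 2 - wa) := by
    rw [← vol_obtuse, ← LocArea_neg obtuse]
    congr 2
    ext v
    simp only [obtuse, mem_ofPred_eq, PiLp.neg_apply]
    constructor <;> rintro ⟨a, b⟩ <;> constructor <;> linarith
  have hun : {v : E2 | v 0 - 96 * v 1 ≤ 0} ∩ ball 0 1 =
      (acute ∩ ball 0 1) ∪ ({v : E2 | 0 ≤ v 1 ∧ v 0 - 96 * v 1 ≤ 0} ∩ ball 0 1) := by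
    ext v
    simp only [acute, mem_inter_iff, mem_ofPred_eq, mem_union]
    rcases le_total (v 1) 0 with h | h <;> tauto
  have hdis : AEDisjoint volume (acute ∩ ball 0 1)
      ({v : E2 | 0 ≤ v 1 ∧ v 0 - 96 * v 1 ≤ 0} ∩ ball 0 1) := by
    refine measure_mono_null ?_ (LocArea_null (a := 0) (b := 1) (Or.inr one_ne_zero) 0)
    rintro v ⟨⟨⟨a, _⟩, _⟩, ⟨b, _⟩, _⟩
    simp only [mem_ofPred_eq, zero_mul, one_mul, zero_add]
    exact le_antisymm a b
  have hmset : MeasurableSet ({v : E2 | 0 ≤ v 1 ∧ v 0 - 96 * v 1 ≤ 0} ∩ ball 0 1) := by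
    refine MeasurableSet.inter ?_ measurableSet_ball
    exact (measurableSet_le measurable_const (hmeas 1)).inter
      (measurableSet_le ((hmeas 0).sub ((hmeas 1).const_mul 96)) measurable_const)
  have hwa := wa_pos
  have hwa' := wa_lt
  have hpi := Real.pi_pos
  rw [hun, measure_union₀ hmset.nullMeasurableSet hdis, vol_acute, hob,
    ← ENNReal.ofReal_add hwa.le (by linarith)]
  congr 1
  ring

private theorem LocArea_one {a b z₀ : ℝ} (hab : a < b) (h : a ≤ z₀ ∧ z₀ ≤ b) :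
    ∃ P : ℝ → Prop, (P = (fun _ => True) ∨ P = (fun z => z ≤ 0) ∨ P = (fun z => 0 ≤ z)) ∧
      ∃ δ > 0, ∀ z, |z| < δ → ((a ≤ z₀ + z ∧ z₀ + z ≤ b) ↔ P z) := by
  rcases eq_or_lt_of_le h.1 with h1 | h1
  · refine ⟨fun z => 0 ≤ z, Or.inr (Or.inr rfl), b - a, by linarith, ?_⟩
    intro z hz
    rw [abs_lt] at hz
    constructor
    · rintro ⟨c, d⟩
      show 0 ≤ z
      linarith
    · intro (c : 0 ≤ z)
      constructor <;> linarith [hz.2]
  · rcases eq_or_lt_of_le h.2 with h2 | h2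
    · refine ⟨fun z => z ≤ 0, Or.inr (Or.inl rfl), b - a, by linarith, ?_⟩
      intro z hz
      rw [abs_lt] at hz
      constructor
      · rintro ⟨c, d⟩
        show z ≤ 0
        linarith
      · intro (c : z ≤ 0)
        constructor <;> linarith [hz.1]
    · refine ⟨fun _ => True, Or.inl rfl, min (z₀ - a) (b - z₀), lt_min (by linarith) (by linarith),
        ?_⟩
      intro z hz
      have hz1 := hz.trans_le (min_le_left _ _)
      have hz2 := hz.trans_le (min_le_right _ _)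
      rw [abs_lt] at hz1 hz2
      constructor
      · intro _
        trivial
      · intro _
        constructor <;> linarith [hz1.1, hz2.2]

private theorem LocArea_scale {P : ℝ → Prop}
    (hP : P = (fun _ => True) ∨ P = (fun z => z ≤ 0) ∨ P = (fun z => 0 ≤ z)) :
    ∀ c : ℝ, 0 < c → ∀ z, P (c * z) ↔ P z := by
  intro c hc z
  rcases hP with rfl | rfl | rfl
  · exact Iff.rfl
  · show c * z ≤ 0 ↔ z ≤ 0
    constructor
    · intro h
      by_contra h'
      push Not at h'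
      have := mul_pos hc h'
      linarith
    · intro h
      exact mul_nonpos_of_nonneg_of_nonpos hc.le h
  · show 0 ≤ c * z ↔ 0 ≤ z
    constructor
    · intro h
      by_contra h'
      push Not at h'
      have := mul_neg_of_pos_of_neg hc h'
      linarith
    · intro h
      exact mul_nonneg hc.le h

/-- For a point `x` of the parallelogram and small `ρ` the set `K 0 ∩ ball x ρ` is
`x + (C ∩ ball 0 ρ)`, where `C` is the cone of the active constraints (at most one of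
`x 1 ≤ 0`, `-1/32 ≤ x 1`, at most one of `x 0 - 96 x 1 ≤ 3/2`, `≥ -3/2` is active): the plane, a
half plane (a rotated or reflected `v 1 ≤ 0`: every half plane through `0` has half of the disc by
`v ↦ -v`), `± acute` or `± obtuse`.  Then `vol_cone`, `vol_acute`, `vol_half`, `vol_obtuse`. -/
theorem loc_area {x : E2} (hx : x ∈ K 0) :
    ∃ w : ℝ, (w = wa ∨ w = Real.pi / 2 - wa ∨ w = Real.pi / 2 ∨ w = Real.pi) ∧
      ∃ ρ₀ > 0, ∀ ρ, 0 < ρ → ρ < ρ₀ →
        volume (K 0 ∩ ball x ρ) = ENNReal.ofReal (w * ρ ^ 2) := by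
  obtain ⟨x1, x2, x3⟩ := (mem_K_zero x).1 hx
  rw [abs_le] at x3
  obtain ⟨P1, hP1, δ₁, hδ₁, e1⟩ := LocArea_one (show (-(1 / 32) : ℝ) < 0 by norm_num) ⟨x1, x2⟩
  obtain ⟨P2, hP2, δ₂, hδ₂, e2⟩ := LocArea_one (show (-(3 / 2) : ℝ) < 3 / 2 by norm_num) x3
  have s1 := LocArea_scale hP1
  have s2 := LocArea_scale hP2
  have main : ∃ w : ℝ, (w = wa ∨ w = Real.pi / 2 - wa ∨ w = Real.pi / 2 ∨ w = Real.pi) ∧
      volume ({v : E2 | P1 (v 1) ∧ P2 (v 0 - 96 * v 1)} ∩ ball 0 1) = ENNReal.ofReal w := by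
    rcases hP1 with rfl | rfl | rfl <;> rcases hP2 with rfl | rfl | rfl
    · refine ⟨Real.pi, by tauto, ?_⟩
      have := vol_disc 0 (zero_le_one)
      rw [one_pow, mul_one] at this
      rw [← this]
      congr 1
      ext v
      simp
    · refine ⟨Real.pi / 2, by tauto, ?_⟩
      rw [← LocArea_slant]
      congr 2
      ext v
      simp
    · refine ⟨Real.pi / 2, by tauto, ?_⟩
      rw [← LocArea_slant, ← LocArea_neg {v : E2 | v 0 - 96 * v 1 ≤ 0}]
      congr 2
      ext v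
      simp only [mem_ofPred_eq, PiLp.neg_apply, true_and]
      constructor <;> intro h <;> linarith
    · refine ⟨Real.pi / 2, by tauto, ?_⟩
      rw [← vol_half]
      congr 2
      ext v
      simp
    · exact ⟨wa, by tauto, vol_acute⟩
    · exact ⟨Real.pi / 2 - wa, by tauto, vol_obtuse⟩
    · refine ⟨Real.pi / 2, by tauto, ?_⟩
      rw [← vol_half, ← LocArea_neg {v : E2 | v 1 ≤ 0}]
      congr 2
      ext v
      simp
    · refine ⟨Real.pi / 2 - wa, by tauto, ?_⟩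
      rw [← vol_obtuse, ← LocArea_neg obtuse]
      congr 2
      ext v
      simp only [obtuse, mem_ofPred_eq, PiLp.neg_apply]
      constructor <;> rintro ⟨a, b⟩ <;> constructor <;> linarith
    · refine ⟨wa, by tauto, ?_⟩
      rw [← vol_acute, ← LocArea_neg acute]
      congr 2
      ext v
      simp only [acute, mem_ofPred_eq, PiLp.neg_apply]
      constructor <;> rintro ⟨a, b⟩ <;> constructor <;> linarith
  obtain ⟨w, hw, hvol⟩ := main
  exact ⟨w, hw, LocArea_core hδ₁ hδ₂ e1 e2 s1 s2 hvol⟩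

/-- on the open long side the density is `π/2` -/
theorem loc_area_side {x : E2} (h0 : |x 0| < 3 / 2) (h1 : x 1 = 0) :
    ∃ ρ₀ > 0, ∀ ρ, 0 < ρ → ρ < ρ₀ →
      volume (K 0 ∩ ball x ρ) = ENNReal.ofReal (Real.pi / 2 * ρ ^ 2) := by
  rw [abs_lt] at h0
  refine LocArea_core (P1 := fun z => z ≤ 0) (P2 := fun _ => True) (δ₁ := 1 / 32)
    (δ₂ := min (3 / 2 - x 0) (x 0 + 3 / 2)) (by norm_num)
    (lt_min (by linarith) (by linarith)) ?_ ?_
    (LocArea_scale (P := fun z => z ≤ 0) (Or.inr (Or.inl rfl)))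
    (LocArea_scale (P := fun _ => True) (Or.inl rfl)) ?_
  · intro z hz
    rw [abs_lt] at hz
    rw [h1]
    constructor
    · rintro ⟨_, b⟩
      linarith
    · intro b
      constructor <;> linarith [hz.1]
  · intro z hz
    have hz1 := hz.trans_le (min_le_left _ _)
    have hz2 := hz.trans_le (min_le_right _ _)
    rw [abs_lt] at hz1 hz2
    rw [h1]
    constructor
    · intro _
      trivial
    · intro _
      constructor <;> linarith [hz1.2, hz2.1]
  · rw [← vol_half]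
    congr 2
    ext v
    simp

/-- the boundary is a null set: it is contained in four lines -/
theorem null_bdry : volume (K 0 \ T₀) = 0 := by
  have hsub : K 0 \ T₀ ⊆ (({x : E2 | 0 * x 0 + 1 * x 1 = -(1 / 32)} ∪
      {x : E2 | 0 * x 0 + 1 * x 1 = 0}) ∪ {x : E2 | 1 * x 0 + (-96) * x 1 = 3 / 2}) ∪
      {x : E2 | 1 * x 0 + (-96) * x 1 = -(3 / 2)} := by
    rintro x ⟨hx, hx'⟩
    obtain ⟨x1, x2, x3⟩ := (mem_K_zero x).1 hx
    simp only [mem_union, mem_ofPred_eq]
    by_contra hcon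
    push Not at hcon
    obtain ⟨⟨⟨n1, n2⟩, n3⟩, n4⟩ := hcon
    rw [abs_le] at x3
    apply hx'
    refine ⟨lt_of_le_of_ne x1 fun h => n1 (by linarith), lt_of_le_of_ne x2 fun h => n2 (by linarith),
      ?_⟩
    rw [abs_lt]
    exact ⟨lt_of_le_of_ne x3.1 fun h => n4 (by linarith), lt_of_le_of_ne x3.2 fun h => n3 (by linarith)⟩
  refine measure_mono_null hsub ?_
  refine measure_union_null (measure_union_null (measure_union_null ?_ ?_) ?_) ?_
  · exact LocArea_null (Or.inr one_ne_zero) _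
  · exact LocArea_null (Or.inr one_ne_zero) _
  · exact LocArea_null (Or.inl one_ne_zero) _
  · exact LocArea_null (Or.inl one_ne_zero) _

end Pool.Cyl
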