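import Pool.Agent.W_0c5e58_h33.Basic

/-!
# Motions and exact tilings near the long side
-/

open MeasureTheory Metric Set Filter
open scoped Topology ENNReal

namespace Pool.Cyl

open Pool.TC

/-- a motion `x ↦ A x + b` -/
structure Mov where
  A : E2 →L[ℝ] E2
  b : E2
  iso : ∀ x, ‖A x‖ = ‖x‖

def Mov.f (M : Mov) (x : E2) : E2 := M.A x + M.b

/-- the moved body (the preimage) -/
def Mov.body (M : Mov) (s : ℝ) : Set E2 := {x | M.f x ∈ K s}

theorem Mov.dist (M : Mov) (x y : E2) : dist (M.f x) (M.f y) = dist x y := by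
  unfold Mov.f
  rw [dist_add_right, dist_eq_norm, dist_eq_norm, ← map_sub, M.iso]

theorem Mov.cont (M : Mov) : Continuous M.f :=
  M.A.continuous.add continuous_const

/-- `A` is injective, hence surjective in dimension `2` -/
theorem Mov.toIso (M : Mov) : ∃ g : E2 ≃ᵢ E2, ∀ x, g x = M.f x := by
  have hinj : Function.Injective (M.A : E2 →ₗ[ℝ] E2) := by
    rw [← LinearMap.ker_eq_bot, LinearMap.ker_eq_bot']
    intro x hx
    have h1 := M.iso x
    have h2 : M.A x = 0 := hx
    rw [h2, norm_zero] at h1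
    exact norm_eq_zero.1 h1.symm
  have hsurj : Function.Surjective (M.A : E2 →ₗ[ℝ] E2) := LinearMap.injective_iff_surjective.1 hinj
  have hiso : Isometry M.f := Isometry.of_dist_eq M.dist
  have hs : Function.Surjective M.f := by
    intro y
    obtain ⟨x, hx⟩ := hsurj (y - M.b)
    refine ⟨x, ?_⟩
    have hx' : M.A x = y - M.b := hx
    unfold Mov.f
    rw [hx', sub_add_cancel]
  exact ⟨IsometryEquiv.mk (Equiv.ofBijective M.f ⟨hiso.injective, hs⟩) hiso, fun x => rfl⟩

/-- Mazur-Ulam (`IsometryEquiv.toRealAffineIsometryEquiv`) -/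
theorem Mov.ofIso (g : E2 ≃ᵢ E2) : ∃ M : Mov, (∀ x, M.f x = g x) ∧ M.b = g 0 := by
  set A := g.toRealAffineIsometryEquiv with hA
  refine ⟨⟨(A.linearIsometryEquiv.toContinuousLinearEquiv : E2 →L[ℝ] E2), g 0, fun x =>
    A.linearIsometryEquiv.norm_map x⟩, fun x => ?_, rfl⟩
  have h1 := A.map_vadd (0 : E2) x
  have h2 : ∀ z, A z = g z := fun z => rfl
  rw [h2, h2, vadd_eq_add, vadd_eq_add, add_zero] at h1
  exact h1.symm

/-- preimages of convex sets are convex -/
theorem Mov.convex (M : Mov) {C : Set E2} (hC : Convex ℝ C) : Convex ℝ {x | M.f x ∈ C} := by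
  intro x hx y hy a b ha hb hab
  have e : M.f (a • x + b • y) = a • M.f x + b • M.f y := by
    unfold Mov.f
    rw [map_add, map_smul, map_smul, smul_add, smul_add]
    have : M.b = a • M.b + b • M.b := by rw [← add_smul, hab, one_smul]
    nth_rewrite 1 [this]
    abel
  change M.f (a • x + b • y) ∈ C
  rw [e]
  exact hC hx hy ha hb hab

/-- the measure of preimages (`Mov.toIso` and `vol_isom` or `IsometryEquiv.measurePreserving`) -/
theorem Mov.vol (M : Mov) {C : Set E2} (hC : MeasurableSet C) :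
    volume {x | M.f x ∈ C} = volume C := by
  obtain ⟨g, hg⟩ := M.toIso
  have e : {x | M.f x ∈ C} = g.symm '' C := by
    ext x
    simp only [← hg, mem_ofPred_eq, mem_image]
    constructor
    · intro h
      exact ⟨g x, h, g.symm_apply_apply x⟩
    · rintro ⟨y, hy, rfl⟩
      rw [g.apply_symm_apply]
      exact hy
  rw [e, vol_isom]

/-- the interior of the preimage is the preimage of the interior -/
theorem Mov.interior (M : Mov) (C : Set E2) : interior {x | M.f x ∈ C} = {x | M.f x ∈ interior C} := by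
  obtain ⟨g, hg⟩ := M.toIso
  simp only [← hg]
  exact (g.toHomeomorph.preimage_interior C).symm

/-- exact tiling of the disc of radius `2` by copies of the parallelogram, the copy `i₀` is the
parallelogram itself -/
structure Til {m : ℕ} (M : Fin m → Mov) (i₀ : Fin m) : Prop where
  id : ∀ x, (M i₀).f x = x
  dis : ∀ j k, j ≠ k → ∀ x, (M j).f x ∈ T₀ → (M k).f x ∉ T₀
  cov : ∀ x ∈ ball (0 : E2) 2, ∃ j, (M j).f x ∈ K 0

/-- the open long side -/
def op : Set E2 := {x | |x 0| < 3 / 2 ∧ x 1 = 0}

end Pool.Cyl
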