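import Pool.Agent.W_0c5e58_h33.LimB
import Pool.Agent.W_0c5e58_h33.Count

/-!
# Bad bodies have void around them
-/

open MeasureTheory Metric Set Filter
open scoped Topology ENNReal

namespace Pool.Cyl

open Pool.TC

/-- `BadCfg` is monotone in `δ` -/
theorem BadCfg.mono {m : ℕ} {δ δ' : ℝ} (h : δ ≤ δ') (hb : BadCfg m δ) : BadCfg m δ' := by
  obtain ⟨s, M, i₀, j₁, j₂, j₃, y₁, y₂, y₃, z₁, z₂, z₃, h1, h2, h3, h4, h5, h6, h7, h8, h9, h10,
    h11, h12, h13, h14, h15, h16, h17, h18, h19, h20, h21, h22⟩ := hb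
  exact ⟨s, M, i₀, j₁, j₂, j₃, y₁, y₂, y₃, z₁, z₂, z₃, h1, h2.trans h, h3, h4, h5, h6, h7, h8, h9,
    h10, h11, h12, h13, h14, h15, h16, h17, h18, h19.trans h, h20.trans h, h21.trans h,
    h22.trans (ENNReal.ofReal_le_ofReal h)⟩

/-- one `δ` for all `m ≤ 11000` -/
theorem no_bad_le : ∃ δ > 0, ∀ m ≤ 11000, ¬ BadCfg m δ := by
  have key : ∀ n : ℕ, ∃ δ > 0, ∀ m ≤ n, ¬ BadCfg m δ := by
    intro n
    induction n with
    | zero =>
      obtain ⟨δ, hδ, h⟩ := no_bad 0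
      refine ⟨δ, hδ, fun m hm => ?_⟩
      obtain rfl : m = 0 := by omega
      exact h
    | succ n ih =>
      obtain ⟨δ, hδ, h⟩ := ih
      obtain ⟨δ', hδ', h'⟩ := no_bad (n + 1)
      refine ⟨min δ δ', lt_min hδ hδ', fun m hm hb => ?_⟩
      rcases Nat.lt_or_ge m (n + 1) with hlt | hge
      · exact h m (by omega) (hb.mono (min_le_left _ _))
      · obtain rfl : m = n + 1 := by omega
        exact h' (hb.mono (min_le_right _ _))
  exact key 11000

private theorem Reduce_seg_norm {x : E2} (hx : x ∈ seg) : ‖x‖ ≤ 5 / 4 := by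
  have e : ‖x‖ ^ 2 = (x 0) ^ 2 + (x 1) ^ 2 := by
    rw [EuclideanSpace.norm_sq_eq, Fin.sum_univ_two]
    simp only [Real.norm_eq_abs, sq_abs]
  have k0 : (x 0) ^ 2 ≤ (5 / 4) ^ 2 := by
    rw [← sq_abs]
    exact pow_le_pow_left₀ (abs_nonneg _) hx.1 2
  have k1 : x 1 = 0 := hx.2
  refine abs_le_of_sq_le_sq' ?_ (by norm_num) |>.2
  rw [e, k1]
  norm_num at k0 ⊢
  linarith

/-- `c₀ = min` of the `δ` of `no_bad_le` and `1/4000`.  If three different bodies are near body `i`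
and the void in `ball (g i 0) 2` has area `< c₀`, take the bodies `j` with
`dist (g j 0) (g i 0) < 12` (at most `11000`: `count_le`), with the motions
`x ↦ (g j)⁻¹ (g i x)` (`Mov.ofIso`), whose bodies are `(g i)⁻¹ (g j '' K s)`, in `Fin m` by
`Finset.equivFin`; all bodies meeting `ball (g i 0) 2` and all near bodies are among them (`K_norm`).
This is a `BadCfg m c₀`. -/
theorem bad_void : ∃ c₀ > 0, c₀ ≤ 1 / 4000 ∧ ∀ s, 0 < s → s ≤ c₀ → ∀ (κ : Type) [Fintype κ]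
    (g : κ → E2 ≃ᵢ E2),
    (Pairwise fun i j => Disjoint (interior (g i '' K s)) (interior (g j '' K s))) →
    ∀ i j₁ j₂ j₃, j₁ ≠ j₂ → j₁ ≠ j₃ → j₂ ≠ j₃ →
      Near s c₀ g i j₁ → Near s c₀ g i j₂ → Near s c₀ g i j₃ →
      ENNReal.ofReal c₀ ≤ volume (ball (g i 0) 2 \ ⋃ j, g j '' K s) := by
  classical
  obtain ⟨δ, hδ, hbad⟩ := no_bad_le
  refine ⟨min δ (1 / 4000), lt_min hδ (by norm_num), min_le_right _ _, ?_⟩
  intro s hs hsc κ _ g hd i j₁ j₂ j₃ h12 h13 h23 hN1 hN2 hN3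
  set c₀ := min δ (1 / 4000) with hc₀
  have hc1 : c₀ ≤ 1 / 4000 := min_le_right _ _
  have hc2 : c₀ ≤ δ := min_le_left _ _
  have hs' : s ≤ 1 / 100 := by linarith
  by_contra hlt
  rw [not_le] at hlt
  -- the near bodies
  let J : Finset κ := Finset.univ.filter fun j => dist (g j 0) (g i 0) < 12
  have memJ : ∀ j, j ∈ J ↔ dist (g j 0) (g i 0) < 12 := fun j => by simp [J]
  have hJ : J.card ≤ 11000 := count_le hs hs' g hd (g i 0) J fun j hj => (memJ j).1 hj
  let e : J ≃ Fin J.card := J.equivFin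
  -- the motions
  choose N hN hNb using fun j : κ => Mov.ofIso ((g i).trans (g j).symm)
  have hNf : ∀ j x, (N j).f x = (g j).symm (g i x) := fun j x => hN j x
  have hbody : ∀ j x, x ∈ (N j).body s ↔ g i x ∈ g j '' K s := by
    intro j x
    show (N j).f x ∈ K s ↔ _
    rw [hNf]
    constructor
    · intro h
      exact ⟨_, h, (g j).apply_symm_apply _⟩
    · rintro ⟨y, hy, hyx⟩
      rw [← hyx, (g j).symm_apply_apply]
      exact hy
  have hnorm : ∀ {j : κ} {z : E2}, z ∈ g j '' K s → dist (g j 0) z ≤ 5 := by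
    rintro j z ⟨y, hy, rfl⟩
    rw [(g j).isometry.dist_eq, dist_zero_left]
    exact K_norm hs.le hs' hy
  have hi : i ∈ J := by
    rw [memJ, dist_self]
    norm_num
  have hnear : ∀ j, Near s c₀ g i j → j ∈ J ∧ j ≠ i ∧ ∃ y ∈ seg, ∃ z ∈ (N j).body s,
      dist z y ≤ c₀ := by
    rintro j ⟨hji, z, hz, y, ⟨y', hy', rfl⟩, hzy⟩
    refine ⟨?_, hji, y', hy', (g i).symm z, ?_, ?_⟩
    · rw [memJ]
      have h1 := hnorm hz
      have h2 : dist (g i y') (g i 0) ≤ 5 / 4 := by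
        rw [(g i).isometry.dist_eq, dist_zero_right]
        exact Reduce_seg_norm hy'
      have h3 := dist_triangle4 (g j 0) z (g i y') (g i 0)
      linarith
    · rw [hbody, (g i).apply_symm_apply]
      exact hz
    · rw [← (g i).isometry.dist_eq, (g i).apply_symm_apply]
      exact hzy
  obtain ⟨m1, n1, y₁, hy₁, z₁, hz₁, d1⟩ := hnear j₁ hN1
  obtain ⟨m2, n2, y₂, hy₂, z₂, hz₂, d2⟩ := hnear j₂ hN2
  obtain ⟨m3, n3, y₃, hy₃, z₃, hz₃, d3⟩ := hnear j₃ hN3
  let M : Fin J.card → Mov := fun k => N ((e.symm k : J) : κ)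
  have hM : ∀ (j : κ) (hj : j ∈ J), M (e ⟨j, hj⟩) = N j := by
    intro j hj
    show N ((e.symm (e ⟨j, hj⟩) : J) : κ) = N j
    rw [e.symm_apply_apply]
  have hne : ∀ {j k : κ} (hj : j ∈ J) (hk : k ∈ J), j ≠ k → e ⟨j, hj⟩ ≠ e ⟨k, hk⟩ := by
    intro j k hj hk hjk h
    exact hjk (congrArg Subtype.val (e.injective h))
  -- interiors
  have hint : ∀ j, interior ((N j).body s) = g i ⁻¹' interior (g j '' K s) := by
    intro j
    have h1 : (N j).body s = g i ⁻¹' (g j '' K s) := by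
      ext x
      exact hbody j x
    rw [h1]
    exact ((g i).toHomeomorph.preimage_interior _).symm
  have hdis : ∀ j k, j ≠ k → Disjoint (interior ((N j).body s)) (interior ((N k).body s)) := by
    intro j k hjk
    rw [hint, hint]
    exact (hd hjk).preimage _
  -- the void
  have hmeas : MeasurableSet (ball (g i 0) 2 \ ⋃ j, g j '' K s) := by
    refine measurableSet_ball.diff ?_
    refine MeasurableSet.iUnion fun j => ?_
    exact ((isCompact_K hs.le hs').image (g j).continuous).measurableSet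
  obtain ⟨P, hP, -⟩ := Mov.ofIso (g i)
  have hvol := P.vol hmeas
  have hsub : ball (0 : E2) 2 \ ⋃ k, (M k).body s ⊆
      {x | P.f x ∈ ball (g i 0) 2 \ ⋃ j, g j '' K s} := by
    rintro x ⟨hx, hxn⟩
    show P.f x ∈ ball (g i 0) 2 \ ⋃ j, g j '' K s
    rw [hP]
    have hx2 : dist (g i x) (g i 0) < 2 := by
      rw [(g i).isometry.dist_eq]
      exact hx
    refine ⟨hx2, fun hmem => hxn ?_⟩
    obtain ⟨j, hj⟩ := mem_iUnion.1 hmem
    have hjJ : j ∈ J := by
      rw [memJ]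
      have h1 := hnorm hj
      have h2 := dist_triangle (g j 0) (g i x) (g i 0)
      linarith
    rw [mem_iUnion]
    refine ⟨e ⟨j, hjJ⟩, ?_⟩
    rw [hM]
    exact (hbody j x).2 hj
  refine hbad J.card hJ (BadCfg.mono hc2 ?_)
  refine ⟨s, M, e ⟨i, hi⟩, e ⟨j₁, m1⟩, e ⟨j₂, m2⟩, e ⟨j₃, m3⟩, y₁, y₂, y₃, z₁, z₂, z₃, hs, hsc,
    hs', ?_, ?_, ?_, hne m1 hi n1, hne m2 hi n2, hne m3 hi n3, hne m1 m2 h12, hne m1 m3 h13,
    hne m2 m3 h23, hy₁, hy₂, hy₃, ?_, ?_, ?_, d1, d2, d3, ?_⟩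
  · intro k
    show ‖(N ((e.symm k : J) : κ)).b‖ ≤ 20
    rw [hNb]
    show ‖(g _).symm (g i 0)‖ ≤ 20
    have h1 := (memJ _).1 (e.symm k).2
    rw [← dist_zero_right, ← (g ((e.symm k : J) : κ)).isometry.dist_eq,
      IsometryEquiv.apply_symm_apply, dist_comm]
    linarith
  · intro x
    rw [hM, hNf, IsometryEquiv.symm_apply_apply]
  · intro k l hkl
    apply hdis
    intro h
    exact hkl (e.symm.injective (Subtype.ext h))
  · rw [hM]; exact hz₁
  · rw [hM]; exact hz₂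
  · rw [hM]; exact hz₃
  · exact ((measure_mono hsub).trans hvol.le).trans hlt.le

end Pool.Cyl
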