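import Pool.Agent.W_0c5e58_h33.Basic

/-!
# Areas of the corner cones
-/

open MeasureTheory Metric Set Filter
open scoped Topology ENNReal Pointwise

namespace Pool.Cyl

open Pool.TC

/-- the acute corner cone of the parallelogram (angle `arctan (1/96)`) -/
def acute : Set E2 := {v | v 1 ≤ 0 ∧ v 0 - 96 * v 1 ≤ 0}

/-- the obtuse corner cone -/
def obtuse : Set E2 := {v | v 1 ≤ 0 ∧ 0 ≤ v 0 - 96 * v 1}

/-- area density of the acute corner -/
noncomputable def wa : ℝ := Real.arctan (1 / 96) / 2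

/-- `volume (ball x r) = π r²` in the plane (`EuclideanSpace.volume_ball_fin_two`) -/
theorem vol_disc (x : E2) {r : ℝ} (hr : 0 ≤ r) :
    volume (ball x r) = ENNReal.ofReal (Real.pi * r ^ 2) := by
  rw [EuclideanSpace.volume_ball_fin_two, ← ENNReal.ofReal_pow hr,
    ← ENNReal.ofReal_mul (by positivity), mul_comm]

/-- the coordinate map is measure preserving -/
theorem SectorA_mp : MeasurePreserving (fun x : E2 => ((x 0, x 1) : ℝ × ℝ)) volume volume :=
  (volume_preserving_finTwoArrow ℝ).comp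
    (EuclideanSpace.volume_preserving_symm_measurableEquiv_toLp (Fin 2))

/-- the sector in coordinates, reflected -/
def SectorA_S : Set (ℝ × ℝ) := {p | 0 ≤ p.2 ∧ 96 * p.2 ≤ p.1 ∧ p.1 ^ 2 + p.2 ^ 2 < 1}

theorem SectorA_meas : MeasurableSet SectorA_S := by
  refine MeasurableSet.inter (measurableSet_le measurable_const measurable_snd) ?_
  refine MeasurableSet.inter (measurableSet_le (measurable_snd.const_mul 96) measurable_fst) ?_
  exact measurableSet_lt ((measurable_fst.pow_const 2).add (measurable_snd.pow_const 2))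
    measurable_const

theorem SectorA_mem {r θ : ℝ} (hr : 0 < r) (h1 : -Real.pi < θ) (h2 : θ < Real.pi) :
    (r * Real.cos θ, r * Real.sin θ) ∈ SectorA_S ↔
      r < 1 ∧ 0 ≤ θ ∧ θ ≤ Real.arctan (1 / 96) := by
  have hpi := Real.pi_pos
  have hα : Real.arctan (1 / 96) < Real.pi / 2 := Real.arctan_lt_pi_div_two _
  have hsq : (r * Real.cos θ) ^ 2 + (r * Real.sin θ) ^ 2 = r ^ 2 := by
    have := Real.sin_sq_add_cos_sq θ
    linear_combination r ^ 2 * this
  have hr1 : r ^ 2 < 1 ↔ r < 1 := by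
    constructor
    · intro h
      nlinarith
    · intro h
      nlinarith
  simp only [SectorA_S, mem_ofPred_eq]
  rw [hsq, hr1]
  constructor
  · rintro ⟨a1, a2, a3⟩
    have s0 : 0 ≤ Real.sin θ := nonneg_of_mul_nonneg_right a1 hr
    have c0 : 96 * Real.sin θ ≤ Real.cos θ := by
      have : r * (96 * Real.sin θ) ≤ r * Real.cos θ := by linarith
      exact le_of_mul_le_mul_left this hr
    have t0 : 0 ≤ θ := by
      by_contra hc
      push Not at hc
      have := Real.sin_neg_of_neg_of_neg_pi_lt hc h1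
      linarith
    have t1 : θ < Real.pi / 2 := by
      by_contra hc
      push Not at hc
      have k1 : Real.cos θ ≤ 0 := Real.cos_nonpos_of_pi_div_two_le_of_le hc (by linarith)
      have k2 : 0 < Real.sin θ := Real.sin_pos_of_pos_of_lt_pi (by linarith) h2
      linarith
    refine ⟨a3, t0, ?_⟩
    have cp : 0 < Real.cos θ := Real.cos_pos_of_mem_Ioo ⟨by linarith, t1⟩
    have ht : Real.tan θ ≤ 1 / 96 := by
      rw [Real.tan_eq_sin_div_cos, div_le_div_iff₀ cp (by norm_num)]
      linarith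
    calc θ = Real.arctan (Real.tan θ) := (Real.arctan_tan (by linarith) t1).symm
      _ ≤ Real.arctan (1 / 96) := Real.arctan_strictMono.monotone ht
  · rintro ⟨a1, a2, a3⟩
    have cp : 0 < Real.cos θ := Real.cos_pos_of_mem_Ioo ⟨by linarith, by linarith⟩
    have sp : 0 ≤ Real.sin θ := Real.sin_nonneg_of_nonneg_of_le_pi a2 (by linarith)
    have ht : Real.tan θ ≤ 1 / 96 := by
      rw [← Real.tan_arctan (1 / 96)]
      rcases eq_or_lt_of_le a3 with h | h
      · rw [h]
      · exact (Real.tan_lt_tan_of_nonneg_of_lt_pi_div_two a2 hα h).le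
    rw [Real.tan_eq_sin_div_cos, div_le_div_iff₀ cp (by norm_num)] at ht
    refine ⟨by positivity, ?_, a1⟩
    have : r * (96 * Real.sin θ) ≤ r * Real.cos θ :=
      mul_le_mul_of_nonneg_left (by linarith) hr.le
    linarith

theorem SectorA_int : ∫⁻ r in Ioo (0 : ℝ) 1, ENNReal.ofReal r = ENNReal.ofReal (1 / 2) := by
  rw [← ofReal_integral_eq_lintegral_ofReal]
  · congr 1
    rw [← integral_Ioc_eq_integral_Ioo, ← intervalIntegral.integral_of_le zero_le_one, integral_id]
    norm_num
  · exact (continuous_id.integrableOn_Icc (a := (0 : ℝ)) (b := 1)).mono_set Ioo_subset_Icc_self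
  · refine (ae_restrict_iff' measurableSet_Ioo).2 (Eventually.of_forall fun r hr => hr.1.le)

theorem SectorA_vol : volume SectorA_S = ENNReal.ofReal wa := by
  have hα : 0 ≤ Real.arctan (1 / 96) := Real.arctan_nonneg.2 (by norm_num)
  have e1 : volume SectorA_S = ∫⁻ p, SectorA_S.indicator 1 p := by
    rw [lintegral_indicator_one SectorA_meas]
  rw [e1, ← lintegral_comp_polarCoord_symm]
  have e2 : ∫⁻ p in polarCoord.target, ENNReal.ofReal p.1 •
      SectorA_S.indicator (1 : ℝ × ℝ → ℝ≥0∞) (polarCoord.symm p) =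
      ∫⁻ p in polarCoord.target, (Ioo (0 : ℝ) 1 ×ˢ Icc 0 (Real.arctan (1 / 96))).indicator
        (fun p => ENNReal.ofReal p.1) p := by
    refine setLIntegral_congr_fun polarCoord.open_target.measurableSet fun p hp => ?_
    have hp' : p ∈ Ioi (0 : ℝ) ×ˢ Ioo (-Real.pi) Real.pi := hp
    obtain ⟨p1, p2, p3⟩ := hp'
    have hs : polarCoord.symm p = (p.1 * Real.cos p.2, p.1 * Real.sin p.2) := rfl
    have hiff := SectorA_mem p1 p2 p3
    by_cases hm : p ∈ Ioo (0 : ℝ) 1 ×ˢ Icc 0 (Real.arctan (1 / 96))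
    · have h1 : polarCoord.symm p ∈ SectorA_S := by
        rw [hs]
        exact hiff.2 ⟨hm.1.2, hm.2.1, hm.2.2⟩
      rw [indicator_of_mem hm, indicator_of_mem h1]
      simp
    · have h1 : polarCoord.symm p ∉ SectorA_S := by
        rw [hs]
        intro hc
        obtain ⟨q1, q2, q3⟩ := hiff.1 hc
        exact hm ⟨⟨p1, q1⟩, q2, q3⟩
      rw [indicator_of_notMem hm, indicator_of_notMem h1]
      simp
  rw [e2, setLIntegral_indicator (measurableSet_Ioo.prod measurableSet_Icc)]
  have e3 : Ioo (0 : ℝ) 1 ×ˢ Icc 0 (Real.arctan (1 / 96)) ∩ polarCoord.target =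
      Ioo (0 : ℝ) 1 ×ˢ Icc 0 (Real.arctan (1 / 96)) := by
    refine inter_eq_left.2 fun p hp => ?_
    have hpi := Real.pi_pos
    have hα' : Real.arctan (1 / 96) < Real.pi / 2 := Real.arctan_lt_pi_div_two _
    exact ⟨hp.1.1, by linarith [hp.2.1], by linarith [hp.2.2]⟩
  rw [e3]
  have e4 : (volume : Measure (ℝ × ℝ)) = (volume : Measure ℝ).prod volume := rfl
  rw [e4, ← Measure.prod_restrict]
  have e5 := lintegral_prod_mul (μ := (volume : Measure ℝ).restrict (Ioo 0 1))
    (ν := (volume : Measure ℝ).restrict (Icc 0 (Real.arctan (1 / 96))))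
    (f := fun r => ENNReal.ofReal r) (g := fun _ => (1 : ℝ≥0∞))
    ENNReal.measurable_ofReal.aemeasurable aemeasurable_const
  simp only [mul_one] at e5
  rw [e5, SectorA_int, lintegral_const, Measure.restrict_apply MeasurableSet.univ, univ_inter,
    Real.volume_Icc, one_mul, ← ENNReal.ofReal_mul (by norm_num)]
  congr 1
  unfold wa
  ring

theorem SectorA_norm (x : E2) : x ∈ ball (0 : E2) 1 ↔ x 0 ^ 2 + x 1 ^ 2 < 1 := by
  rw [mem_ball_zero_iff, ← sq_lt_one_iff₀ (norm_nonneg x), EuclideanSpace.norm_sq_eq,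
    Fin.sum_univ_two]
  simp only [Real.norm_eq_abs, sq_abs]

theorem SectorA_neg (S : Set E2) : volume ((fun v : E2 => -v) ⁻¹' S) = volume S :=
  Measure.measure_preimage_neg volume S

/-- Polar coordinates: the reflected cone is `{0 ≤ v 1, 96 v 1 ≤ v 0}`, in `ℂ` it is
`{0 ≤ arg z ≤ arctan (1/96)}` up to `0`; with `Complex.lintegral_comp_polarCoord_symm` (or
`integral_comp_polarCoord_symm`) the area inside the unit disc is `∫₀¹ r dr * arctan (1/96)`. -/
theorem vol_acute : volume (acute ∩ ball 0 1) = ENNReal.ofReal wa := by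
  have e1 : acute ∩ ball 0 1 = (fun v : E2 => -v) ⁻¹'
      ((fun x : E2 => ((x 0, x 1) : ℝ × ℝ)) ⁻¹' SectorA_S) := by
    ext v
    have h0 : (-v) 0 = - v 0 := rfl
    have h1 : (-v) 1 = - v 1 := rfl
    simp only [acute, mem_inter_iff, mem_ofPred_eq, SectorA_norm, mem_preimage, SectorA_S, h0, h1,
      neg_sq]
    constructor
    · rintro ⟨⟨a, b⟩, c⟩
      exact ⟨by linarith, by linarith, c⟩
    · rintro ⟨a, b, c⟩
      exact ⟨⟨by linarith, by linarith⟩, c⟩
  rw [e1, SectorA_neg, SectorA_mp.measure_preimage SectorA_meas.nullMeasurableSet, SectorA_vol]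

/-- a line through the origin is a null set -/
theorem SectorA_null {a b : ℝ} (h : a ≠ 0 ∨ b ≠ 0) :
    volume {v : E2 | a * v 0 + b * v 1 = 0} = 0 := by
  let f : E2 →ₗ[ℝ] ℝ :=
    { toFun := fun v => a * v 0 + b * v 1
      map_add' := fun x y => by
        have h0 : (x + y) 0 = x 0 + y 0 := rfl
        have h1 : (x + y) 1 = x 1 + y 1 := rfl
        rw [h0, h1]
        ring
      map_smul' := fun c x => by
        have h0 : (c • x) 0 = c * x 0 := rfl
        have h1 : (c • x) 1 = c * x 1 := rfl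
        rw [h0, h1]
        simp only [RingHom.id_apply, smul_eq_mul]
        ring }
  have hset : {v : E2 | a * v 0 + b * v 1 = 0} = (LinearMap.ker f : Set E2) := by
    ext v
    exact Iff.rfl
  rw [hset]
  refine Measure.addHaar_submodule volume _ fun htop => ?_
  have hv : ∀ v : E2, f v = 0 := fun v => by
    have : v ∈ LinearMap.ker f := by
      rw [htop]
      exact Submodule.mem_top
    exact this
  have q1 := hv (pt 1 0)
  have q2 := hv (pt 0 1)
  have r1 : a * 1 + b * 0 = 0 := q1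
  have r2 : a * 0 + b * 1 = 0 := q2
  rcases h with h | h
  · exact h (by linarith)
  · exact h (by linarith)

theorem SectorA_cont (i : Fin 2) : Continuous fun v : E2 => v i := by fun_prop

/-- `v ↦ -v` exchanges the two half discs, the line is a null set -/
theorem vol_half : volume ({v : E2 | v 1 ≤ 0} ∩ ball 0 1) = ENNReal.ofReal (Real.pi / 2) := by
  have hd := vol_disc (0 : E2) (r := 1) zero_le_one
  set A : Set E2 := {v : E2 | v 1 ≤ 0} ∩ ball 0 1 with hA
  set B : Set E2 := {v : E2 | 0 ≤ v 1} ∩ ball 0 1 with hB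
  have hAB : volume B = volume A := by
    rw [← SectorA_neg A]
    congr 1
    ext v
    have h1 : (-v) 1 = - v 1 := rfl
    simp only [hA, hB, mem_inter_iff, mem_ofPred_eq, mem_preimage, h1, mem_ball_zero_iff, norm_neg]
    constructor
    · rintro ⟨a, c⟩
      exact ⟨by linarith, c⟩
    · rintro ⟨a, c⟩
      exact ⟨by linarith, c⟩
  have hu : A ∪ B = ball (0 : E2) 1 := by
    ext v
    simp only [hA, hB, mem_union, mem_inter_iff, mem_ofPred_eq]
    constructor
    · rintro (⟨_, h⟩ | ⟨_, h⟩) <;> exact h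
    · intro h
      rcases le_total (v 1) 0 with h' | h'
      · exact Or.inl ⟨h', h⟩
      · exact Or.inr ⟨h', h⟩
  have hBm : MeasurableSet B :=
    (measurableSet_le measurable_const (SectorA_cont 1).measurable).inter measurableSet_ball
  have hnull : AEDisjoint volume A B := by
    refine measure_mono_null ?_ (SectorA_null (a := 0) (b := 1) (Or.inr one_ne_zero))
    rintro v ⟨⟨h1, _⟩, ⟨h2, _⟩⟩
    have h1' : v 1 ≤ 0 := h1
    have h2' : 0 ≤ v 1 := h2
    simp only [mem_ofPred_eq]
    linarith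
  have hsum := measure_union₀ hBm.nullMeasurableSet hnull
  rw [hu, hd, hAB] at hsum
  have hfin : volume A ≠ ⊤ :=
    ((measure_mono inter_subset_right).trans_lt (measure_ball_lt_top (x := (0 : E2)))).ne
  rw [← ENNReal.ofReal_toReal hfin, ← ENNReal.ofReal_add ENNReal.toReal_nonneg
    ENNReal.toReal_nonneg] at hsum
  have h2 := (ENNReal.ofReal_eq_ofReal_iff (by positivity) (by positivity)).1 hsum
  rw [← ENNReal.ofReal_toReal hfin]
  congr 1
  linarith

/-- half disc minus acute cone; the ray is a null set -/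
theorem vol_obtuse : volume (obtuse ∩ ball 0 1) = ENNReal.ofReal (Real.pi / 2 - wa) := by
  have hu : (acute ∩ ball 0 1) ∪ (obtuse ∩ ball 0 1) = {v : E2 | v 1 ≤ 0} ∩ ball 0 1 := by
    ext v
    simp only [acute, obtuse, mem_union, mem_inter_iff, mem_ofPred_eq]
    constructor
    · rintro (⟨⟨a, _⟩, h⟩ | ⟨⟨a, _⟩, h⟩) <;> exact ⟨a, h⟩
    · rintro ⟨a, h⟩
      rcases le_total (v 0 - 96 * v 1) 0 with h' | h'
      · exact Or.inl ⟨⟨a, h'⟩, h⟩
      · exact Or.inr ⟨⟨a, h'⟩, h⟩
  have hm : MeasurableSet (obtuse ∩ ball (0 : E2) 1) := by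
    refine MeasurableSet.inter (MeasurableSet.inter ?_ ?_) measurableSet_ball
    · exact measurableSet_le (SectorA_cont 1).measurable measurable_const
    · exact measurableSet_le measurable_const
        ((SectorA_cont 0).sub ((SectorA_cont 1).const_smul (96 : ℝ))).measurable
  have hnull : AEDisjoint volume (acute ∩ ball 0 1) (obtuse ∩ ball 0 1) := by
    refine measure_mono_null ?_ (SectorA_null (a := 1) (b := -96) (Or.inl one_ne_zero))
    rintro v ⟨⟨⟨_, h1⟩, _⟩, ⟨⟨_, h2⟩, _⟩⟩
    simp only [mem_ofPred_eq]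
    linarith
  have hsum := measure_union₀ hm.nullMeasurableSet hnull
  rw [hu, vol_half, vol_acute] at hsum
  have hfin : volume (obtuse ∩ ball (0 : E2) 1) ≠ ⊤ :=
    ((measure_mono inter_subset_right).trans_lt (measure_ball_lt_top (x := (0 : E2)))).ne
  have hwa : 0 ≤ wa := by
    unfold wa
    have : 0 ≤ Real.arctan (1 / 96) := Real.arctan_nonneg.2 (by norm_num)
    positivity
  rw [← ENNReal.ofReal_toReal hfin, ← ENNReal.ofReal_add hwa ENNReal.toReal_nonneg] at hsum
  have h2 := (ENNReal.ofReal_eq_ofReal_iff (by positivity)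
    (add_nonneg hwa ENNReal.toReal_nonneg)).1 hsum
  rw [← ENNReal.ofReal_toReal hfin]
  congr 1
  linarith

/-- Scaling of cones (`Measure.addHaar_smul`, `finrank = 2`). -/
theorem vol_cone {C : Set E2} (hC : ∀ c : ℝ, 0 < c → ∀ v, c • v ∈ C ↔ v ∈ C) {ρ : ℝ} (hρ : 0 < ρ) :
    volume (C ∩ ball 0 ρ) = ENNReal.ofReal (ρ ^ 2) * volume (C ∩ ball 0 1) := by
  have hset : C ∩ ball 0 ρ = ρ • (C ∩ ball 0 1) := by
    ext v
    rw [mem_smul_set_iff_inv_smul_mem₀ hρ.ne', mem_inter_iff, mem_inter_iff,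
      hC ρ⁻¹ (inv_pos.2 hρ), mem_ball_zero_iff, mem_ball_zero_iff, norm_smul, norm_inv,
      Real.norm_of_nonneg hρ.le, inv_mul_lt_iff₀ hρ, mul_one]
  rw [hset, Measure.addHaar_smul, finrank_euclideanSpace_fin, abs_of_nonneg (by positivity)]

end Pool.Cyl
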