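import Pool.Agent.W_0c5e58_h33.SectorA

/-!
# Areas of the corner cones
-/

open MeasureTheory Metric Set Filter
open scoped Topology ENNReal

namespace Pool.Cyl

open Pool.TC

theorem wa_pos : 0 < wa := by
  unfold wa
  have h : 0 < Real.arctan (1 / 96) := Real.arctan_pos.2 (by norm_num)
  linarith

theorem wa_lt : wa < Real.pi / 8 := by
  unfold wa
  have h : Real.arctan (1 / 96) < Real.arctan 1 := Real.arctan_strictMono (by norm_num)
  rw [Real.arctan_one] at h
  linarith

/-- the powers of `96 + i` -/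
private theorem powers (k : ℕ) : ∃ x y : ℤ,
    (96 / Real.cos (Real.arctan (1 / 96))) ^ (k + 1) *
      Real.cos (((k + 1 : ℕ) : ℝ) * Real.arctan (1 / 96)) = x ∧
    (96 / Real.cos (Real.arctan (1 / 96))) ^ (k + 1) *
      Real.sin (((k + 1 : ℕ) : ℝ) * Real.arctan (1 / 96)) = y ∧
    (13 : ℤ) ∣ x - 5 * y ∧ ¬ (13 : ℤ) ∣ y := by
  have hc : Real.cos (Real.arctan (1 / 96)) ≠ 0 := (Real.cos_arctan_pos _).ne'
  have h1 : 96 / Real.cos (Real.arctan (1 / 96)) * Real.cos (Real.arctan (1 / 96)) = 96 :=
    div_mul_cancel₀ _ hc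
  have h2 : 96 / Real.cos (Real.arctan (1 / 96)) * Real.sin (Real.arctan (1 / 96)) = 1 := by
    have h3 := Real.tan_arctan (1 / 96)
    rw [Real.tan_eq_sin_div_cos] at h3
    have h4 : 96 / Real.cos (Real.arctan (1 / 96)) * Real.sin (Real.arctan (1 / 96)) =
        96 * (Real.sin (Real.arctan (1 / 96)) / Real.cos (Real.arctan (1 / 96))) := by ring
    rw [h4, h3]
    norm_num
  induction k with
  | zero =>
    refine ⟨96, 1, ?_, ?_, by norm_num, by norm_num⟩
    · simp only [zero_add, pow_one, Nat.cast_one, one_mul]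
      rw [h1]
      norm_num
    · simp only [zero_add, pow_one, Nat.cast_one, one_mul]
      rw [h2]
      norm_num
  | succ k ih =>
    obtain ⟨x, y, hx, hy, h3, h4⟩ := ih
    have h5 : ((k + 1 + 1 : ℕ) : ℝ) * Real.arctan (1 / 96) =
        ((k + 1 : ℕ) : ℝ) * Real.arctan (1 / 96) + Real.arctan (1 / 96) := by
      push_cast
      ring
    refine ⟨96 * x - y, x + 96 * y, ?_, ?_, ?_, ?_⟩
    · rw [h5, Real.cos_add, pow_succ]
      have h6 : ∀ R c C s S : ℝ, R ^ (k + 1) * R * (C * c - S * s) =
          (R ^ (k + 1) * C) * (R * c) - (R ^ (k + 1) * S) * (R * s) := by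
        intro R c C s S
        ring
      rw [h6, hx, hy, h1, h2]
      push_cast
      ring
    · rw [h5, Real.sin_add, pow_succ]
      have h6 : ∀ R c C s S : ℝ, R ^ (k + 1) * R * (S * c + C * s) =
          (R ^ (k + 1) * S) * (R * c) + (R ^ (k + 1) * C) * (R * s) := by
        intro R c C s S
        ring
      rw [h6, hx, hy, h1, h2]
      push_cast
      ring
    · have h6 : 96 * x - y - 5 * (x + 96 * y) = 91 * (x - 5 * y) - 13 * 2 * y := by ring
      omega
    · omega

/-- `k * arctan (1/96) = π` is impossible: `96 + i = r exp(i arctan (1/96))`, so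
`(96 + i)^k = - r^k` would be real.  But for the integer sequence `Im (96+i)^k = y k`,
`y 0 = 0, y 1 = 1, y (k+2) = 192 * y (k+1) - 9217 * y k`, `9217 = 13 * 709`, so
`y (k+2) ≡ 10 * y (k+1) (mod 13)` and `13` does not divide `y k` for `k ≥ 1`. -/
theorem mult_ne (k : ℕ) : (k : ℝ) * wa ≠ Real.pi / 2 := by
  intro h
  have h1 : (k : ℝ) * Real.arctan (1 / 96) = Real.pi := by
    unfold wa at h
    linarith
  rcases k with _ | k
  · rw [Nat.cast_zero, zero_mul] at h1
    exact Real.pi_pos.ne h1
  · obtain ⟨x, y, _, hy, _, h4⟩ := powers k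
    rw [h1, Real.sin_pi, mul_zero] at hy
    have h5 : y = 0 := by exact_mod_cast hy.symm
    rw [h5] at h4
    exact h4 (dvd_zero _)

/-- Weights at a boundary point: at least three weights with sum `π/2` are impossible.
If one is `π` or `π/2` the others are positive: contradiction.  If one is `π/2 - wa`, the others
(at least two, each `≥ wa`) have sum `≥ 2 wa > wa`.  If all are `wa`: `mult_ne`. -/
theorem sum_weights {α : Type} (J : Finset α) (w : α → ℝ)
    (hw : ∀ j ∈ J, w j = wa ∨ w j = Real.pi / 2 - wa ∨ w j = Real.pi / 2 ∨ w j = Real.pi)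
    (hs : ∑ j ∈ J, w j = Real.pi / 2) : J.card ≤ 2 := by
  classical
  by_contra hcard
  push Not at hcard
  have h0 := wa_pos
  have h8 := wa_lt
  have hpi := Real.pi_pos
  have hge : ∀ j ∈ J, wa ≤ w j := by
    intro j hj
    rcases hw j hj with h | h | h | h <;> rw [h] <;> linarith
  have hall : ∀ j ∈ J, w j = wa := by
    intro j hj
    have h1 : w j + ∑ i ∈ J.erase j, w i = Real.pi / 2 := by
      rw [Finset.add_sum_erase J w hj, hs]
    have h2 : (J.erase j).card • wa ≤ ∑ i ∈ J.erase j, w i :=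
      Finset.card_nsmul_le_sum _ _ _ fun i hi => hge i (Finset.mem_of_mem_erase hi)
    have h3 : 2 ≤ (J.erase j).card := by
      rw [Finset.card_erase_of_mem hj]
      omega
    have h4 : 2 * wa ≤ (J.erase j).card • wa := by
      rw [nsmul_eq_mul]
      have h5 : (2 : ℝ) ≤ ((J.erase j).card : ℝ) := by exact_mod_cast h3
      exact mul_le_mul_of_nonneg_right h5 h0.le
    rcases hw j hj with h | h | h | h
    · exact h
    · rw [h] at h1
      linarith
    · rw [h] at h1
      linarith
    · rw [h] at h1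
      linarith
  have h1 : ∑ j ∈ J, w j = (J.card : ℝ) * wa := by
    rw [Finset.sum_congr rfl hall, Finset.sum_const, nsmul_eq_mul]
  rw [hs] at h1
  exact mult_ne J.card h1.symm

end Pool.Cyl
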