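import Pool.Agent.W_0c5e58_h33.Basic

/-!
# Separating lines
-/

open MeasureTheory Metric Set Filter
open scoped Topology ENNReal

namespace Pool.Cyl

open Pool.TC

/-- one separating line for every unordered pair of bodies -/
structure Seps {κ : Type} (s : ℝ) (g : κ → E2 ≃ᵢ E2) where
  u : κ → κ → E2
  c : κ → κ → ℝ
  unit : ∀ i j, i ≠ j → ‖u i j‖ = 1
  usymm : ∀ i j, i ≠ j → u j i = - u i j
  csymm : ∀ i j, i ≠ j → c j i = - c i j
  le : ∀ i j, i ≠ j → ∀ x ∈ g i '' K s, inner ℝ (u i j) x ≤ c i j

/-- Two convex sets with nonempty, disjoint interiors: a unit vector separates them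
(`geometric_hahn_banach_open` for `interior A` and `interior B`, Riesz `InnerProductSpace.toDual`,
closure of the interior, normalization). -/
theorem exists_sep {A B : Set E2} (hA : Convex ℝ A) (hB : Convex ℝ B)
    (hA0 : (interior A).Nonempty) (hB0 : (interior B).Nonempty)
    (hd : Disjoint (interior A) (interior B)) :
    ∃ (u : E2) (c : ℝ), ‖u‖ = 1 ∧ (∀ x ∈ A, inner ℝ u x ≤ c) ∧ ∀ x ∈ B, c ≤ inner ℝ u x := by
  obtain ⟨f, t, hf1, hf2⟩ := geometric_hahn_banach_open_open hA.interior isOpen_interior
    hB.interior isOpen_interior hd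
  obtain ⟨a0, ha0⟩ := hA0
  obtain ⟨b0, hb0⟩ := hB0
  have hA1 : ∀ x ∈ A, f x ≤ t := by
    intro x hx
    have h1 : x ∈ closure (interior A) := by
      rw [hA.closure_interior_eq_closure_of_nonempty_interior ⟨a0, ha0⟩]
      exact subset_closure hx
    have h2 : closure (interior A) ⊆ {x | f x ≤ t} :=
      closure_minimal (fun y hy => (hf1 y hy).le) (isClosed_le f.continuous continuous_const)
    exact h2 h1
  have hB1 : ∀ x ∈ B, t ≤ f x := by
    intro x hx
    have h1 : x ∈ closure (interior B) := by
      rw [hB.closure_interior_eq_closure_of_nonempty_interior ⟨b0, hb0⟩]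
      exact subset_closure hx
    have h2 : closure (interior B) ⊆ {x | t ≤ f x} :=
      closure_minimal (fun y hy => (hf2 y hy).le) (isClosed_le continuous_const f.continuous)
    exact h2 h1
  obtain ⟨v, hv⟩ : ∃ v : E2, ∀ x, inner ℝ v x = f x :=
    ⟨(InnerProductSpace.toDual ℝ E2).symm f, fun x => InnerProductSpace.toDual_symm_apply⟩
  have hv0 : v ≠ 0 := by
    rintro rfl
    have h1 := hf1 a0 ha0
    have h2 := hf2 b0 hb0
    rw [← hv, inner_zero_left] at h1 h2
    linarith
  have hn : 0 < ‖v‖ := norm_pos_iff.2 hv0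
  refine ⟨‖v‖⁻¹ • v, ‖v‖⁻¹ * t, ?_, fun x hx => ?_, fun x hx => ?_⟩
  · rw [norm_smul, norm_inv, norm_norm, inv_mul_cancel₀ hn.ne']
  · rw [real_inner_smul_left, hv]
    exact mul_le_mul_of_nonneg_left (hA1 x hx) (inv_pos.2 hn).le
  · rw [real_inner_smul_left, hv]
    exact mul_le_mul_of_nonneg_left (hB1 x hx) (inv_pos.2 hn).le

/-- `exists_sep` for the pairs `i < j` (any linear order on `κ`, e.g. `linearOrderOfSTO
WellOrderingRel`), and the negative for `i > j`.  The image of a convex set under an isometry
`E2 ≃ᵢ E2` is convex (`IsometryEquiv.toRealAffineIsometryEquiv`), the interior of the image is the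
image of the interior. -/
theorem exists_seps {κ : Type} {s : ℝ} (hs : 0 ≤ s) (hs' : s ≤ 1 / 100) (g : κ → E2 ≃ᵢ E2)
    (hd : Pairwise fun i j => Disjoint (interior (g i '' K s)) (interior (g j '' K s))) :
    Nonempty (Seps s g) := by
  classical
  have hconv : ∀ i, Convex ℝ (g i '' K s) := by
    intro i
    have h := (convex_K hs).affine_image
      ((g i).toRealAffineIsometryEquiv.toAffineEquiv : E2 →ᵃ[ℝ] E2)
    have e : (((g i).toRealAffineIsometryEquiv.toAffineEquiv : E2 →ᵃ[ℝ] E2) : E2 → E2) = g i := by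
      funext x
      simp
    rwa [e] at h
  have hint : ∀ i, (interior (g i '' K s)).Nonempty := by
    intro i
    obtain ⟨h1, h2⟩ := T₀_sub_interior hs hs'
    have h3 : g i '' interior (K s) = interior (g i '' K s) :=
      (g i).toHomeomorph.image_interior (K s)
    rw [← h3]
    exact (h2.mono h1).image _
  have hex : ∀ i j, ∃ (u : E2) (c : ℝ), i ≠ j → ‖u‖ = 1 ∧
      (∀ x ∈ g i '' K s, inner ℝ u x ≤ c) ∧ ∀ x ∈ g j '' K s, c ≤ inner ℝ u x := by
    intro i j
    by_cases hij : i = j
    · exact ⟨0, 0, fun h => absurd hij h⟩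
    · obtain ⟨u, c, h⟩ := exists_sep (hconv i) (hconv j) (hint i) (hint j) (hd hij)
      exact ⟨u, c, fun _ => h⟩
  choose U C hUC using hex
  have hasy : ∀ i j : κ, WellOrderingRel i j → ¬ WellOrderingRel j i := fun i j h1 h2 =>
    asymm h1 h2
  have htri : ∀ i j : κ, i ≠ j → ¬ WellOrderingRel i j → WellOrderingRel j i := by
    intro i j hij h
    rcases trichotomous_of (WellOrderingRel (α := κ)) i j with h1 | h1 | h1
    · exact absurd h1 h
    · exact absurd h1 hij
    · exact h1
  refine ⟨⟨fun i j => if WellOrderingRel i j then U i j else -U j i,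
    fun i j => if WellOrderingRel i j then C i j else -C j i, ?_, ?_, ?_, ?_⟩⟩
  · intro i j hij
    by_cases h : WellOrderingRel i j
    · simp only [if_pos h]
      exact (hUC i j hij).1
    · simp only [if_neg h, norm_neg]
      exact (hUC j i hij.symm).1
  · intro i j hij
    by_cases h : WellOrderingRel i j
    · simp only [if_pos h, if_neg (hasy i j h)]
    · simp only [if_neg h, if_pos (htri i j hij h), neg_neg]
  · intro i j hij
    by_cases h : WellOrderingRel i j
    · simp only [if_pos h, if_neg (hasy i j h)]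
    · simp only [if_neg h, if_pos (htri i j hij h), neg_neg]
  · intro i j hij x hx
    by_cases h : WellOrderingRel i j
    · simp only [if_pos h]
      exact (hUC i j hij).2.1 x hx
    · simp only [if_neg h, inner_neg_left]
      have := (hUC j i hij.symm).2.2 x hx
      linarith

end Pool.Cyl
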