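import Pool.Agent.W_0c5e58_h33.Three

/-!
# Structure of an exact tiling at the open long side
-/

open MeasureTheory Metric Set Filter
open scoped Topology ENNReal

namespace Pool.Cyl

open Pool.TC

variable {m : ℕ} {M : Fin m → Mov} {i₀ : Fin m}

private theorem sa_abs (x y : E2) (i : Fin 2) : |x i - y i| ≤ dist x y := by
  have h := PiLp.norm_apply_le (x - y) i
  rw [Real.norm_eq_abs] at h
  rw [dist_eq_norm]
  exact h

private theorem sa_dist (x y : E2) : dist x y ≤ |x 0 - y 0| + |x 1 - y 1| := by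
  rw [EuclideanSpace.dist_eq, Fin.sum_univ_two, Real.dist_eq, Real.dist_eq]
  rw [Real.sqrt_le_left (by positivity)]
  nlinarith [abs_nonneg (x 0 - y 0), abs_nonneg (x 1 - y 1)]

private theorem sa_pt (x : E2) : pt (x 0) (x 1) = x := by
  ext i
  fin_cases i <;> rfl

/-- a point of an open set has a square around it -/
private theorem sa_open {C : Set E2} {x : E2} (hx : x ∈ interior C) :
    ∃ δ > 0, ∀ a b : ℝ, |a| ≤ δ → |b| ≤ δ → pt (x 0 + a) (x 1 + b) ∈ interior C := by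
  obtain ⟨ε, hε, h⟩ := Metric.isOpen_iff.1 isOpen_interior x hx
  refine ⟨ε / 3, by positivity, fun a b ha hb => h ?_⟩
  rw [mem_ball]
  refine (sa_dist _ _).trans_lt ?_
  rw [pt_zero, pt_one, add_sub_cancel_left, add_sub_cancel_left]
  linarith

/-- `interior (K 0) = T₀` (linear constraints) -/
theorem interior_K_zero : interior (K 0) = T₀ := by
  apply Subset.antisymm
  · intro x hx
    obtain ⟨δ, hδ, h⟩ := sa_open hx
    have e : |δ| ≤ δ := (abs_of_pos hδ).le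
    have e' : |-δ| ≤ δ := by rw [abs_neg]; exact e
    have e0 : |(0 : ℝ)| ≤ δ := by rw [abs_zero]; exact hδ.le
    have h1 := interior_subset (h 0 (-δ) e0 e')
    have h2 := interior_subset (h 0 δ e0 e)
    have h3 := interior_subset (h δ 0 e e0)
    have h4 := interior_subset (h (-δ) 0 e' e0)
    rw [mem_K_zero] at h1 h2 h3 h4
    simp only [pt_zero, pt_one, add_zero] at h1 h2 h3 h4
    refine ⟨by linarith [h1.1], by linarith [h2.2.1], ?_⟩
    have h3' := (abs_le.1 h3.2.2).2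
    have h4' := (abs_le.1 h4.2.2).1
    rw [abs_lt]
    constructor <;> linarith
  · exact (T₀_sub_interior le_rfl (by norm_num)).1

/-- the part below the open side is in body `i₀`: for `y ∈ op` and `x` near `y` with `x 1 < 0`
we have `x ∈ T₀` -/
theorem below_mem {y : E2} (hy : y ∈ op) : ∃ ρ > 0, ∀ x ∈ ball y ρ, x 1 < 0 → x ∈ T₀ := by
  obtain ⟨hy0, hy1⟩ := hy
  have hpos : 0 < (3 / 2 - |y 0|) / 97 := by
    apply div_pos _ (by norm_num)
    linarith
  refine ⟨min (1 / 32) ((3 / 2 - |y 0|) / 97), lt_min (by norm_num) hpos, fun x hx hx1 => ?_⟩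
  rw [mem_ball] at hx
  have hρ1 := hx.trans_le (min_le_left _ _)
  have hρ2 := hx.trans_le (min_le_right _ _)
  have k0 := sa_abs x y 0
  have k1 := sa_abs x y 1
  rw [hy1, sub_zero] at k1
  have hy0' := abs_lt.1 hy0
  rw [abs_le] at k0 k1
  refine ⟨by linarith [k1.1], hx1, ?_⟩
  have h97 : 97 * dist x y < 3 / 2 - |y 0| := by
    have := (lt_div_iff₀ (by norm_num : (0 : ℝ) < 97)).1 hρ2
    linarith
  have ha := neg_abs_le (y 0)
  have hb := le_abs_self (y 0)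
  rw [abs_lt]
  constructor <;> linarith [k0.1, k0.2, k1.1, k1.2]

/-- general form of the half disc lemma -/
private theorem sa_half {C : Set E2} (hC : Convex ℝ C) {p₁ p p₂ : ℝ} (h₁ : p₁ < p) (h₂ : p < p₂)
    (k₁ : pt p₁ 0 ∈ C) (k₂ : pt p₂ 0 ∈ C) {z : E2} (hz : z ∈ C) (hz1 : z 1 ≠ 0) :
    ∃ ρ > 0, ∀ x ∈ ball (pt p 0) ρ, 0 ≤ x 1 / z 1 → x ∈ C := by
  set c : ℝ := 1 + (1 + |p₂ - z 0| + |z 0 - p₁|) / |z 1| with hc
  have hz1' : 0 < |z 1| := abs_pos.2 hz1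
  have hcpos : 0 < c := by positivity
  set d : ℝ := min (1 / 2) (min (p₂ - p) (p - p₁)) with hd
  have hdpos : 0 < d := lt_min (by norm_num) (lt_min (by linarith) (by linarith))
  refine ⟨d / c, div_pos hdpos hcpos, fun x hx hx1 => ?_⟩
  rw [mem_ball] at hx
  have k0 := sa_abs x (pt p 0) 0
  have k1 := sa_abs x (pt p 0) 1
  rw [pt_zero] at k0
  rw [pt_one, sub_zero] at k1
  have hx' : dist x (pt p 0) * c < d := (lt_div_iff₀ hcpos).1 hx
  set D := dist x (pt p 0) with hD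
  have hD0 : 0 ≤ D := dist_nonneg
  set l : ℝ := x 1 / z 1 with hl
  have hlz : l * z 1 = x 1 := by rw [hl]; field_simp
  have hlabs : l = |x 1| / |z 1| := by
    rw [← abs_of_nonneg hx1, hl, abs_div]
  have hlD : l ≤ D / |z 1| := by
    rw [hlabs]
    gcongr
  have e1 : D + D / |z 1| * (1 + |p₂ - z 0| + |z 0 - p₁|) < d := by
    have : D * c = D + D / |z 1| * (1 + |p₂ - z 0| + |z 0 - p₁|) := by
      rw [hc]
      ring
    linarith
  have hS : 0 ≤ 1 + |p₂ - z 0| + |z 0 - p₁| := by positivity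
  have e2 : D + l * (1 + |p₂ - z 0| + |z 0 - p₁|) < d := by
    have := mul_le_mul_of_nonneg_right hlD hS
    linarith
  have hd1 : d ≤ 1 / 2 := min_le_left _ _
  have hd2 : d ≤ p₂ - p := (min_le_right _ _).trans (min_le_left _ _)
  have hd3 : d ≤ p - p₁ := (min_le_right _ _).trans (min_le_right _ _)
  have f1 : 0 ≤ l * |p₂ - z 0| := mul_nonneg hx1 (abs_nonneg _)
  have f2 : 0 ≤ l * |z 0 - p₁| := mul_nonneg hx1 (abs_nonneg _)
  have e3 : D + l + l * |p₂ - z 0| + l * |z 0 - p₁| < d := by nlinarith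
  have hl1 : l < 1 / 2 := by linarith
  have hl2 : 0 < 1 - l := by linarith
  have g1 : l * (p₂ - z 0) ≤ l * |p₂ - z 0| := mul_le_mul_of_nonneg_left (le_abs_self _) hx1
  have g2 : l * (z 0 - p₁) ≤ l * |z 0 - p₁| := mul_le_mul_of_nonneg_left (le_abs_self _) hx1
  rw [abs_le] at k0
  set w : ℝ := (x 0 - l * z 0) / (1 - l) with hw
  have hw1 : p₁ ≤ w := by
    rw [hw, le_div_iff₀ hl2]
    nlinarith [k0.1]
  have hw2 : w ≤ p₂ := by
    rw [hw, div_le_iff₀ hl2]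
    nlinarith [k0.2]
  have hwC : pt w 0 ∈ C := by
    have h12 : 0 < p₂ - p₁ := by linarith
    have := hC k₁ k₂ (a := (p₂ - w) / (p₂ - p₁)) (b := (w - p₁) / (p₂ - p₁))
      (div_nonneg (by linarith) h12.le) (div_nonneg (by linarith) h12.le)
      (by field_simp; ring)
    have e : ((p₂ - w) / (p₂ - p₁)) • pt p₁ 0 + ((w - p₁) / (p₂ - p₁)) • pt p₂ 0 = pt w 0 := by
      ext i
      fin_cases i
      · show (p₂ - w) / (p₂ - p₁) * p₁ + (w - p₁) / (p₂ - p₁) * p₂ = w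
        field_simp
        ring
      · show (p₂ - w) / (p₂ - p₁) * 0 + (w - p₁) / (p₂ - p₁) * 0 = 0
        ring
    rwa [e] at this
  have hfin := hC hwC hz (a := 1 - l) (b := l) hl2.le hx1 (by ring)
  have e : (1 - l) • pt w 0 + l • z = x := by
    ext i
    fin_cases i
    · show (1 - l) * w + l * z 0 = x 0
      rw [hw]
      field_simp
      ring
    · show (1 - l) * 0 + l * z 1 = x 1
      rw [hlz]
      ring
  rwa [e] at hfin

/-- A convex set `C` which contains `pt p₁ 0`, `pt p₂ 0` (`p₁ < p₂`) and a point `z` with `z 1 > 0`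
contains all `x` with `x 1 ≥ 0` near a point `pt p 0` with `p₁ < p < p₂` (the triangle). -/
theorem half_disc {C : Set E2} (hC : Convex ℝ C) {p₁ p p₂ : ℝ} (h₁ : p₁ < p) (h₂ : p < p₂)
    (k₁ : pt p₁ 0 ∈ C) (k₂ : pt p₂ 0 ∈ C) {z : E2} (hz : z ∈ C) (hz1 : 0 < z 1) :
    ∃ ρ > 0, ∀ x ∈ ball (pt p 0) ρ, 0 ≤ x 1 → x ∈ C := by
  obtain ⟨ρ, hρ, h⟩ := sa_half hC h₁ h₂ k₁ k₂ hz hz1.ne'
  exact ⟨ρ, hρ, fun x hx hx1 => h x hx (div_nonneg hx1 hz1.le)⟩

/-- the mirror version: a point `z` with `z 1 < 0` -/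
theorem half_disc' {C : Set E2} (hC : Convex ℝ C) {p₁ p p₂ : ℝ} (h₁ : p₁ < p) (h₂ : p < p₂)
    (k₁ : pt p₁ 0 ∈ C) (k₂ : pt p₂ 0 ∈ C) {z : E2} (hz : z ∈ C) (hz1 : z 1 < 0) :
    ∃ ρ > 0, ∀ x ∈ ball (pt p 0) ρ, x 1 ≤ 0 → x ∈ C := by
  obtain ⟨ρ, hρ, h⟩ := sa_half hC h₁ h₂ k₁ k₂ hz hz1.ne
  exact ⟨ρ, hρ, fun x hx hx1 => h x hx (div_nonneg_of_nonpos hx1 hz1.le)⟩

/-- A body `j ≠ i₀` with two points on the open side lies in `x 1 ≥ 0`: otherwise `half_disc'`
gives an open set `x 1 < 0` near a point of the open side in the body; with `below_mem`,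
`Mov.interior` and `interior_K_zero` this contradicts `dis`. -/
theorem upper (hT : Til M i₀) {j : Fin m} (hj : j ≠ i₀) {p₁ p₂ : ℝ} (h : p₁ < p₂)
    (h₁ : pt p₁ 0 ∈ op) (h₂ : pt p₂ 0 ∈ op) (k₁ : (M j).f (pt p₁ 0) ∈ K 0)
    (k₂ : (M j).f (pt p₂ 0) ∈ K 0) {x : E2} (hx : (M j).f x ∈ K 0) : 0 ≤ x 1 := by
  by_contra hneg
  push Not at hneg
  have hC : Convex ℝ {x | (M j).f x ∈ K 0} := (M j).convex (convex_K le_rfl)
  set p : ℝ := (p₁ + p₂) / 2 with hp
  have hp1 : p₁ < p := by rw [hp]; linarith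
  have hp2 : p < p₂ := by rw [hp]; linarith
  have hop : pt p 0 ∈ op := by
    have a1 := abs_lt.1 h₁.1
    have a2 := abs_lt.1 h₂.1
    rw [pt_zero] at a1 a2
    refine ⟨?_, rfl⟩
    rw [pt_zero, abs_lt]
    constructor <;> linarith [a1.1, a2.2]
  obtain ⟨ρ, hρ, hρC⟩ := half_disc' hC hp1 hp2 k₁ k₂ hx hneg
  obtain ⟨ρ', hρ', hρT⟩ := below_mem hop
  set δ : ℝ := min ρ ρ' / 2 with hδ
  have hmin : 0 < min ρ ρ' := lt_min hρ hρ'
  have hδ0 : 0 < δ := by rw [hδ]; linarith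
  have hδ1 : δ < ρ := by have := min_le_left ρ ρ'; rw [hδ]; linarith
  have hδ2 : δ < ρ' := by have := min_le_right ρ ρ'; rw [hδ]; linarith
  have hdist : dist (pt p (-δ)) (pt p 0) ≤ δ := by
    refine (sa_dist _ _).trans ?_
    rw [pt_zero, pt_zero, pt_one, pt_one, sub_self, abs_zero, sub_zero, abs_neg, abs_of_pos hδ0,
      zero_add]
  have hq : pt p (-δ) ∈ interior {x | (M j).f x ∈ K 0} := by
    rw [mem_interior]
    refine ⟨ball (pt p 0) ρ ∩ {x : E2 | x 1 < 0}, ?_, ?_, ?_⟩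
    · rintro y ⟨hy, hy1⟩
      exact hρC y hy (le_of_lt hy1)
    · exact isOpen_ball.inter (isOpen_lt (by fun_prop) continuous_const)
    · refine ⟨mem_ball.2 (hdist.trans_lt hδ1), ?_⟩
      show pt p (-δ) 1 < 0
      rw [pt_one]
      linarith
  rw [Mov.interior, interior_K_zero] at hq
  have hq2 : pt p (-δ) ∈ T₀ := by
    apply hρT _ (mem_ball.2 (hdist.trans_lt hδ2))
    rw [pt_one]
    linarith
  refine hT.dis j i₀ hj _ hq ?_
  rw [hT.id]
  exact hq2

/-- every body has a point with `x 1 ≠ 0` (`T₀` is open and not empty, `Mov.toIso`) -/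
theorem off_line (N : Mov) : ∃ x, N.f x ∈ T₀ ∧ x 1 ≠ 0 := by
  obtain ⟨g, hg⟩ := N.toIso
  obtain ⟨y, hy⟩ := (T₀_sub_interior (s := 0) le_rfl (by norm_num)).2
  have hx : g.symm y ∈ interior {x | N.f x ∈ T₀} := by
    have ho : IsOpen {x | N.f x ∈ T₀} := isOpen_T₀.preimage N.cont
    rw [ho.interior_eq]
    show N.f (g.symm y) ∈ T₀
    rw [← hg, g.apply_symm_apply]
    exact hy
  obtain ⟨δ, hδ, h⟩ := sa_open hx
  have e : |δ| ≤ δ := (abs_of_pos hδ).le
  have e0 : |(0 : ℝ)| ≤ δ := by rw [abs_zero]; exact hδ.le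
  by_cases h1 : (g.symm y) 1 = 0
  · refine ⟨_, interior_subset (s := {x | N.f x ∈ T₀}) (h 0 δ e0 e), ?_⟩
    rw [pt_one, h1, zero_add]
    exact hδ.ne'
  · exact ⟨g.symm y, interior_subset (s := {x | N.f x ∈ T₀}) hx, h1⟩

end Pool.Cyl
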