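import Pool.Agent.W_0c5e58_h33.StructA

/-!
# Structure of an exact tiling at the open long side
-/

open MeasureTheory Metric Set Filter
open scoped Topology ENNReal

namespace Pool.Cyl

open Pool.TC

variable {m : ℕ} {M : Fin m → Mov} {i₀ : Fin m}

private theorem StructB_closed (N : Mov) : IsClosed {x | N.f x ∈ K 0} :=
  (isClosed_K 0).preimage N.cont

private theorem StructB_line (N : Mov) {p : ℝ} (h : N.f (pt p 0) ∉ K 0) :
    ∀ᶠ q in 𝓝 p, N.f (pt q 0) ∉ K 0 := by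
  have h1 : Continuous fun q : ℝ => pt q 0 := by
    unfold pt
    refine (PiLp.continuous_toLp 2 _).comp ?_
    refine continuous_pi fun i => ?_
    fin_cases i
    · exact continuous_id
    · exact continuous_const
  have h2 : IsOpen {q : ℝ | N.f (pt q 0) ∉ K 0} :=
    (StructB_closed N).isOpen_compl.preimage h1
  exact h2.mem_nhds h

private theorem StructB_ev {p : ℝ} (hp : |p| < 3 / 2) : ∀ᶠ q in 𝓝 p, |q| < 3 / 2 :=
  (isOpen_lt continuous_abs continuous_const).mem_nhds hp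

/-- the open side is covered by the other bodies: `y + (0, 1/n)` is not in body `i₀`
(`K 0 ⊆ {x 1 ≤ 0}`), so it is in one of the other bodies, one of them for infinitely many `n`,
closedness (`isClosed_K`, `Mov.cont`) -/
theorem cover_op (hT : Til M i₀) {y : E2} (hy : y ∈ op) : ∃ k, k ≠ i₀ ∧ (M k).f y ∈ K 0 := by
  obtain ⟨hy0, hy1⟩ := hy
  by_contra hno
  push Not at hno
  have h1 : ∀ k, k ≠ i₀ → ∀ᶠ x in 𝓝 y, (M k).f x ∉ K 0 := fun k hk =>
    (StructB_closed (M k)).isOpen_compl.mem_nhds (hno k hk)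
  have h2 : ∀ᶠ x in 𝓝 y, ∀ k, k ≠ i₀ → (M k).f x ∉ K 0 := by
    rw [eventually_all]
    intro k
    by_cases hk : k = i₀
    · exact Eventually.of_forall fun x h => absurd hk h
    · exact (h1 k hk).mono fun x hx _ => hx
  have hcont : Continuous fun d : ℝ => y + pt 0 d := by
    refine continuous_const.add ?_
    unfold pt
    refine (PiLp.continuous_toLp 2 _).comp ?_
    refine continuous_pi fun i => ?_
    fin_cases i
    · exact continuous_const
    · exact continuous_id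
  have hpt : pt 0 0 = 0 := by
    ext i
    fin_cases i <;> rfl
  have h3 : Tendsto (fun d : ℝ => y + pt 0 d) (𝓝[>] 0) (𝓝 y) := by
    have h4 := hcont.tendsto 0
    rw [hpt, add_zero] at h4
    exact h4.mono_left nhdsWithin_le_nhds
  have h5 := h3.eventually h2
  have h6 : ∀ᶠ d : ℝ in 𝓝[>] 0, d < 1 := by
    have : ∀ᶠ d : ℝ in 𝓝 0, d < 1 := gt_mem_nhds one_pos
    exact this.filter_mono nhdsWithin_le_nhds
  have h7 : ∀ᶠ d : ℝ in 𝓝[>] 0, 0 < d := eventually_mem_nhdsWithin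
  obtain ⟨d, ⟨h8, h9⟩, h10⟩ := ((h5.and h6).and h7).exists
  have c0 : (y + pt 0 d) 0 = y 0 := by
    simp
  have c1 : (y + pt 0 d) 1 = d := by
    simp [hy1]
  have hball : y + pt 0 d ∈ ball (0 : E2) 2 := by
    rw [mem_ball, dist_zero_right]
    have e : ‖y + pt 0 d‖ ^ 2 = (y 0) ^ 2 + d ^ 2 := by
      rw [EuclideanSpace.norm_sq_eq, Fin.sum_univ_two, c0, c1]
      simp only [Real.norm_eq_abs, sq_abs]
    have e1 : (y 0) ^ 2 < (3 / 2) ^ 2 := by
      rw [← sq_abs]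
      exact pow_lt_pow_left₀ hy0 (abs_nonneg _) two_ne_zero
    refine lt_of_pow_lt_pow_left₀ 2 (by norm_num) ?_
    rw [e]
    nlinarith
  obtain ⟨k, hk⟩ := hT.cov _ hball
  by_cases hki : k = i₀
  · rw [hki, hT.id, mem_K_zero, c1] at hk
    linarith [hk.2.1]
  · exact h8 k hki hk

/-- at every point of the open side a body contains a segment to the right: `cover_op` for
`y + 1/n`, one body for infinitely many `n`, it contains `y` (closed) and `y + 1/n` -/
theorem right_seg (hT : Til M i₀) {p : ℝ} (hp : |p| < 3 / 2) :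
    ∃ k, k ≠ i₀ ∧ ∃ q > p, |q| < 3 / 2 ∧ (M k).f (pt p 0) ∈ K 0 ∧ (M k).f (pt q 0) ∈ K 0 := by
  by_contra hno
  push Not at hno
  have h1 : ∀ᶠ q in 𝓝[>] p, ∀ k, k ≠ i₀ → (M k).f (pt q 0) ∉ K 0 := by
    rw [eventually_all]
    intro k
    by_cases hk : k = i₀
    · exact Eventually.of_forall fun x h => absurd hk h
    · by_cases hkp : (M k).f (pt p 0) ∈ K 0
      · have h2 : ∀ᶠ q : ℝ in 𝓝[>] p, p < q := eventually_mem_nhdsWithin
        have h3 := (StructB_ev hp).filter_mono (nhdsWithin_le_nhds (s := Ioi p))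
        exact (h2.and h3).mono fun q hq _ => hno k hk q hq.1 hq.2 hkp
      · exact ((StructB_line (M k) hkp).filter_mono nhdsWithin_le_nhds).mono fun q hq _ => hq
  have h3 := (StructB_ev hp).filter_mono (nhdsWithin_le_nhds (s := Ioi p))
  obtain ⟨q, hq1, hq2⟩ := (h1.and h3).exists
  obtain ⟨k, hk, hkq⟩ := cover_op hT (y := pt q 0) ⟨hq2, rfl⟩
  exact hq1 k hk hkq

theorem left_seg (hT : Til M i₀) {p : ℝ} (hp : |p| < 3 / 2) :
    ∃ k, k ≠ i₀ ∧ ∃ q < p, |q| < 3 / 2 ∧ (M k).f (pt p 0) ∈ K 0 ∧ (M k).f (pt q 0) ∈ K 0 := by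
  by_contra hno
  push Not at hno
  have h1 : ∀ᶠ q in 𝓝[<] p, ∀ k, k ≠ i₀ → (M k).f (pt q 0) ∉ K 0 := by
    rw [eventually_all]
    intro k
    by_cases hk : k = i₀
    · exact Eventually.of_forall fun x h => absurd hk h
    · by_cases hkp : (M k).f (pt p 0) ∈ K 0
      · have h2 : ∀ᶠ q : ℝ in 𝓝[<] p, q < p := eventually_mem_nhdsWithin
        have h3 := (StructB_ev hp).filter_mono (nhdsWithin_le_nhds (s := Iio p))
        exact (h2.and h3).mono fun q hq _ => hno k hk q hq.1 hq.2 hkp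
      · exact ((StructB_line (M k) hkp).filter_mono nhdsWithin_le_nhds).mono fun q hq _ => hq
  have h3 := (StructB_ev hp).filter_mono (nhdsWithin_le_nhds (s := Iio p))
  obtain ⟨q, hq1, hq2⟩ := (h1.and h3).exists
  obtain ⟨k, hk, hkq⟩ := cover_op hT (y := pt q 0) ⟨hq2, rfl⟩
  exact hq1 k hk hkq

/-- if body `k ≠ i₀` contains points of the open side on both sides of `pt p 0`, then no other body
`j ≠ i₀` contains `pt p 0`: `upper`, `off_line` and `half_disc` show that near `pt p 0` the upper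
half is in body `k`, the lower half in `i₀`; body `j` contains points of its interior arbitrarily
close to `pt p 0` (segment to an interior point), an open set of them: it contains a point with
`x 1 > 0` or `x 1 < 0`, in the interior of body `k` or of `i₀`, contradiction to `dis`. -/
theorem only_k (hT : Til M i₀) {j k : Fin m} (hj : j ≠ i₀) (hk : k ≠ i₀) (hjk : j ≠ k)
    {p₁ p p₂ : ℝ} (h₁ : p₁ < p) (h₂ : p < p₂) (o₁ : |p₁| < 3 / 2) (o₂ : |p₂| < 3 / 2)
    (k₁ : (M k).f (pt p₁ 0) ∈ K 0) (k₂ : (M k).f (pt p₂ 0) ∈ K 0) :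
    (M j).f (pt p 0) ∉ K 0 := by
  intro hjp
  have hp : |p| < 3 / 2 := by
    rw [abs_lt] at o₁ o₂ ⊢
    constructor <;> linarith [o₁.1, o₁.2, o₂.1, o₂.2]
  have hTK : T₀ ⊆ K 0 := T₀_sub le_rfl (by norm_num)
  have hCk : Convex ℝ {x | (M k).f x ∈ K 0} := (M k).convex (convex_K le_rfl)
  have hCj : Convex ℝ {x | (M j).f x ∈ K 0} := (M j).convex (convex_K le_rfl)
  -- the upper half disc
  obtain ⟨z, hz, hz1⟩ := off_line (M k)
  have hz0 : 0 ≤ z 1 := upper hT hk (h₁.trans h₂) ⟨o₁, rfl⟩ ⟨o₂, rfl⟩ k₁ k₂ (hTK hz)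
  have hzp : 0 < z 1 := lt_of_le_of_ne hz0 (Ne.symm hz1)
  obtain ⟨ρ, hρ, hup⟩ := half_disc hCk h₁ h₂ k₁ k₂ (z := z) (hTK hz) hzp
  -- the lower half disc
  obtain ⟨ρ', hρ', hlow⟩ := below_mem (y := pt p 0) ⟨hp, rfl⟩
  -- interior points of the body `j`
  obtain ⟨w, hw, hw1⟩ := off_line (M j)
  have hwi : w ∈ interior {x | (M j).f x ∈ K 0} := by
    rw [Mov.interior, interior_K_zero]
    exact hw
  have hseg : ∀ t : ℝ, t ∈ Ioc (0 : ℝ) 1 →
      pt p 0 + t • (w - pt p 0) ∈ interior {x | (M j).f x ∈ K 0} := fun t ht =>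
    hCj.add_smul_sub_mem_interior (x := pt p 0) (y := w) hjp hwi ht
  have hcont : Continuous fun t : ℝ => pt p 0 + t • (w - pt p 0) := by fun_prop
  have htend : Tendsto (fun t : ℝ => pt p 0 + t • (w - pt p 0)) (𝓝[>] 0) (𝓝 (pt p 0)) := by
    have h4 := hcont.tendsto 0
    rw [zero_smul, add_zero] at h4
    exact h4.mono_left nhdsWithin_le_nhds
  have e1 := htend.eventually (ball_mem_nhds (pt p 0) hρ)
  have e2 := htend.eventually (ball_mem_nhds (pt p 0) hρ')
  have e3 : ∀ᶠ t : ℝ in 𝓝[>] 0, t < 1 := by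
    have : ∀ᶠ t : ℝ in 𝓝 0, t < 1 := gt_mem_nhds one_pos
    exact this.filter_mono nhdsWithin_le_nhds
  have e4 : ∀ᶠ t : ℝ in 𝓝[>] 0, 0 < t := eventually_mem_nhdsWithin
  obtain ⟨t, ⟨⟨t1, t2⟩, t3⟩, t4⟩ := (((e1.and e2).and e3).and e4).exists
  have hin := hseg t ⟨t4, t3.le⟩
  rw [Mov.interior, interior_K_zero] at hin
  have hc1 : (pt p 0 + t • (w - pt p 0)) 1 = t * w 1 := by simp
  rcases lt_or_gt_of_ne hw1 with hlt | hgt
  · have h5 : (pt p 0 + t • (w - pt p 0)) 1 < 0 := by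
      rw [hc1]
      exact mul_neg_of_pos_of_neg t4 hlt
    have h6 := hlow _ t2 h5
    refine hT.dis j i₀ hj _ hin ?_
    rw [hT.id]
    exact h6
  · have h5 : 0 < (pt p 0 + t • (w - pt p 0)) 1 := by
      rw [hc1]
      exact mul_pos t4 hgt
    have hopen : IsOpen (ball (pt p 0) ρ ∩ {x : E2 | 0 < x 1}) :=
      isOpen_ball.inter (isOpen_lt continuous_const
        ((continuous_apply 1).comp (PiLp.continuous_ofLp 2 _)))
    have h6 : pt p 0 + t • (w - pt p 0) ∈ interior {x | (M k).f x ∈ K 0} := by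
      refine interior_maximal ?_ hopen ⟨t1, h5⟩
      rintro x ⟨hx1, hx2⟩
      exact hup x hx1 (le_of_lt hx2)
    rw [Mov.interior, interior_K_zero] at h6
    exact hT.dis j k hjk _ hin h6

/-- every body `j ≠ i₀` which meets the open side contains two points of it: `right_seg`,
`left_seg` give `k₊, k₋`; if `k₊ = k₋` then `only_k` (so `j = k₊`), otherwise `three_at_point`
(so `j = k₊` or `j = k₋`). -/
theorem nondeg (hT : Til M i₀) {j : Fin m} (hj : j ≠ i₀) {p : ℝ} (hp : |p| < 3 / 2)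
    (h : (M j).f (pt p 0) ∈ K 0) :
    ∃ q, q ≠ p ∧ |q| < 3 / 2 ∧ (M j).f (pt q 0) ∈ K 0 := by
  obtain ⟨k, hk, q, hqp, hq, kp, kq⟩ := right_seg hT hp
  obtain ⟨l, hl, r, hrp, hr, lp, lr⟩ := left_seg hT hp
  by_cases hjk : j = k
  · rw [hjk]
    exact ⟨q, hqp.ne', hq, kq⟩
  by_cases hjl : j = l
  · rw [hjl]
    exact ⟨r, hrp.ne, hr, lr⟩
  by_cases hkl : k = l
  · rw [← hkl] at lr
    exact absurd h (only_k hT hj hk hjk hrp hqp hr hq lr kq)
  · exact (three_at_point hT (y := pt p 0) ⟨hp, rfl⟩ hj hk hl hjk hjl hkl h kp lp).elim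

end Pool.Cyl
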