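import Pool.Agent.W_0c5e58_h33.StructB

/-!
# Structure of an exact tiling at the open long side
-/

open MeasureTheory Metric Set Filter
open scoped Topology ENNReal

namespace Pool.Cyl

open Pool.TC

variable {m : ℕ} {M : Fin m → Mov} {i₀ : Fin m}

private theorem StructC_lin (f : E2 →ₗ[ℝ] ℝ) (x : E2) :
    f x = (x 0 - 96 * x 1) * f (pt 1 0) + x 1 * f (pt 96 1) := by
  have h : x = (x 0 - 96 * x 1) • pt 1 0 + x 1 • pt 96 1 := by
    ext i
    fin_cases i
    · simp [pt]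
      ring
    · simp [pt]
  conv_lhs => rw [h]
  rw [map_add, map_smul, map_smul, smul_eq_mul, smul_eq_mul]

private theorem StructC_mem {u v : ℝ} (hu : |u| ≤ 3 / 2) (hv : -(1 / 32) ≤ v) (hv' : v ≤ 0) :
    pt (u + 96 * v) v ∈ K 0 := by
  show -(1 / 32) ≤ pt (u + 96 * v) v 1 ∧ |pt (u + 96 * v) v 0 - 96 * pt (u + 96 * v) v 1| ≤ 3 / 2 ∧
    pt (u + 96 * v) v 1 ≤ kap 0 (pt (u + 96 * v) v 0)
  rw [pt_zero, pt_one]
  refine ⟨hv, ?_, ?_⟩
  · rwa [add_sub_cancel_right]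
  · unfold kap
    rwa [zero_mul]

private theorem StructC_dist (a b : E2) :
    dist a b = Real.sqrt ((a 0 - b 0) ^ 2 + (a 1 - b 1) ^ 2) := by
  rw [EuclideanSpace.dist_eq, Fin.sum_univ_two, Real.dist_eq, Real.dist_eq, sq_abs, sq_abs]

private theorem StructC_ext {a b : E2} (h0 : a 0 = b 0) (h1 : a 1 = b 1) : a = b := by
  ext i
  fin_cases i
  · exact h0
  · exact h1

/-- A linear functional which has the same maximal value on `K 0` at two different points:
`K 0 = {α E + β V : |α| ≤ 1/2, 0 ≤ β ≤ 1}`, `E = (3,0)`, `V = (-3,-1/32)`.  `f E = 0` or `f V = 0`,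
and the points `x, x'` are on a segment of length `≥ 3` of `K 0` on which `f` is constant. -/
theorem long_face {f : E2 →ₗ[ℝ] ℝ} {x x' : E2} (hx : x ∈ K 0) (hx' : x' ∈ K 0) (hne : x ≠ x')
    (hmax : ∀ y ∈ K 0, f y ≤ f x) (hmax' : f x' = f x) :
    ∃ a ∈ K 0, ∃ b ∈ K 0, 3 ≤ dist a b ∧ f a = f x ∧ f b = f x ∧ x ∈ segment ℝ a b := by
  obtain ⟨x1, x2, x3⟩ := hx
  obtain ⟨y1, y2, y3⟩ := hx'
  have x3' : x 1 ≤ 0 := by
    unfold kap at x3
    linarith
  have y3' : x' 1 ≤ 0 := by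
    unfold kap at y3
    linarith
  set P := f (pt 1 0) with hP
  set Q := f (pt 96 1) with hQ
  have hval : ∀ u v : ℝ, f (pt (u + 96 * v) v) = u * P + v * Q := by
    intro u v
    rw [StructC_lin f, pt_zero, pt_one, add_sub_cancel_right]
  have hfx : f x = (x 0 - 96 * x 1) * P + x 1 * Q := StructC_lin f x
  have hfx' : f x' = (x' 0 - 96 * x' 1) * P + x' 1 * Q := StructC_lin f x'
  set u := x 0 - 96 * x 1 with hu
  set u' := x' 0 - 96 * x' 1 with hu'
  by_cases hP0 : P = 0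
  · refine ⟨pt (-(3 / 2) + 96 * x 1) (x 1), StructC_mem (by norm_num) x1 x3',
      pt (3 / 2 + 96 * x 1) (x 1), StructC_mem (by norm_num) x1 x3', ?_, ?_, ?_, ?_⟩
    · rw [StructC_dist]
      simp only [pt_zero, pt_one]
      rw [show (-(3 / 2 : ℝ) + 96 * x 1 - (3 / 2 + 96 * x 1)) ^ 2 + (x 1 - x 1) ^ 2 = 3 ^ 2 by ring]
      rw [Real.sqrt_sq (by norm_num)]
    · rw [hval, hfx, hP0]
      ring
    · rw [hval, hfx, hP0]
      ring
    · have h2 := abs_le.1 x2
      refine ⟨(3 / 2 - u) / 3, (u + 3 / 2) / 3, by linarith [h2.2], by linarith [h2.1], by ring, ?_⟩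
      apply StructC_ext
      · simp only [PiLp.add_apply, PiLp.smul_apply, pt_zero, smul_eq_mul]
        rw [hu]
        ring
      · simp only [PiLp.add_apply, PiLp.smul_apply, pt_one, smul_eq_mul]
        ring
  · -- `P ≠ 0`
    have h2 := abs_le.1 x2
    have h2' := abs_le.1 y2
    have m1 := hmax _ (StructC_mem (u := 3 / 2) (v := x 1) (by norm_num) x1 x3')
    have m2 := hmax _ (StructC_mem (u := -(3 / 2)) (v := x 1) (by norm_num) x1 x3')
    have n1 := hmax _ (StructC_mem (u := 3 / 2) (v := x' 1) (by norm_num) y1 y3')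
    have n2 := hmax _ (StructC_mem (u := -(3 / 2)) (v := x' 1) (by norm_num) y1 y3')
    rw [hval] at m1 m2 n1 n2
    rw [← hmax'] at n1 n2
    rw [hfx] at m1 m2
    rw [hfx'] at n1 n2
    have huu : u = u' := by
      rcases lt_or_gt_of_ne hP0 with hneg | hpos
      · have e1 : u = -(3 / 2) := by nlinarith
        have e2 : u' = -(3 / 2) := by nlinarith
        rw [e1, e2]
      · have e1 : u = 3 / 2 := by nlinarith
        have e2 : u' = 3 / 2 := by nlinarith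
        rw [e1, e2]
    have hvne : x 1 ≠ x' 1 := by
      intro h
      apply hne
      apply StructC_ext _ h
      have : x 0 - 96 * x 1 = x' 0 - 96 * x' 1 := huu
      rw [h] at this
      linarith
    have hQ0 : Q = 0 := by
      rw [hfx, hfx', ← huu] at hmax'
      have h3 : (x' 1 - x 1) * Q = 0 := by linarith
      rcases mul_eq_zero.1 h3 with h | h
      · exact absurd (by linarith) hvne
      · exact h
    refine ⟨pt (u + 96 * (-(1 / 32))) (-(1 / 32)), StructC_mem x2 le_rfl (by norm_num),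
      pt (u + 96 * 0) 0, StructC_mem x2 (by norm_num) le_rfl, ?_, ?_, ?_, ?_⟩
    · rw [StructC_dist]
      simp only [pt_zero, pt_one]
      apply Real.le_sqrt_of_sq_le
      rw [show (u + 96 * (-(1 / 32)) - (u + 96 * 0)) ^ 2 + (-(1 / 32) - 0) ^ 2 =
        (9 : ℝ) + 1 / 1024 by ring]
      norm_num
    · rw [hval, hfx, hQ0]
      ring
    · rw [hval, hfx, hQ0]
      ring
    · refine ⟨-(32 * x 1), 1 + 32 * x 1, by linarith, by linarith, by ring, ?_⟩
      apply StructC_ext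
      · simp only [PiLp.add_apply, PiLp.smul_apply, pt_zero, smul_eq_mul]
        rw [hu]
        ring
      · simp only [PiLp.add_apply, PiLp.smul_apply, pt_one, smul_eq_mul]
        ring

private theorem StructC_op {p : ℝ} (hp : |p| < 3 / 2) : pt p 0 ∈ op := by
  show |pt p 0 0| < 3 / 2 ∧ pt p 0 1 = 0
  rw [pt_zero, pt_one]
  exact ⟨hp, rfl⟩

/-- a body meeting the open side is above the line -/
private theorem StructC_up (hT : Til M i₀) {j : Fin m} (hj : j ≠ i₀) {p : ℝ} (hp : |p| < 3 / 2)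
    (h : (M j).f (pt p 0) ∈ K 0) (x : E2) (hx : (M j).f x ∈ K 0) : 0 ≤ x 1 := by
  obtain ⟨q, hqp, hq, hqK⟩ := nondeg hT hj hp h
  rcases lt_or_gt_of_ne hqp with h1 | h1
  · exact upper hT hj h1 (StructC_op hq) (StructC_op hp) hqK h hx
  · exact upper hT hj h1 (StructC_op hp) (StructC_op hq) h hqK hx

private theorem StructC_inner (L : E2 →L[ℝ] E2) (hL : ∀ x, ‖L x‖ = ‖x‖) (x y : E2) :
    inner ℝ (L x) (L y) = inner ℝ x y := by
  have h := (⟨(L : E2 →ₗ[ℝ] E2), hL⟩ : E2 →ₗᵢ[ℝ] E2).inner_map_map x y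
  exact h

private theorem StructC_inner_one (x : E2) : inner ℝ (pt 0 1) x = x 1 := by
  simp only [PiLp.inner_apply, Fin.sum_univ_two, RCLike.inner_apply, conj_trivial, pt_zero, pt_one]
  ring

private theorem StructC_inj (N : Mov) {x y : E2} (h : N.f x = N.f y) : x = y := by
  have h1 := N.dist x y
  rw [h, dist_self] at h1
  exact dist_eq_zero.1 h1.symm

private theorem StructC_surj (N : Mov) (y : E2) : ∃ x, N.f x = y := by
  obtain ⟨g, hg⟩ := N.toIso
  exact ⟨g.symm y, by rw [← hg, g.apply_symm_apply]⟩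

/-- every body `j ≠ i₀` meeting the open side meets the line in an interval of length `≥ 3`
around this point: `nondeg`, `upper`, `long_face` for the functional `z ↦ -((x) 1)`, `x = f⁻¹ z`
(linear part), moved back; points of the line with distance `≥ 3` -/
theorem long_int (hT : Til M i₀) {j : Fin m} (hj : j ≠ i₀) {p : ℝ} (hp : |p| < 3 / 2)
    (h : (M j).f (pt p 0) ∈ K 0) :
    ∃ α β, α + 3 ≤ β ∧ α ≤ p ∧ p ≤ β ∧ (M j).f (pt α 0) ∈ K 0 ∧ (M j).f (pt β 0) ∈ K 0 := by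
  obtain ⟨q, hqp, hq, hqK⟩ := nondeg hT hj hp h
  have hup := StructC_up hT hj hp h
  set N := M j with hN
  set w : E2 := N.A (pt 0 1) with hw
  let fl : E2 →ₗ[ℝ] ℝ :=
    { toFun := fun y => - inner ℝ w y
      map_add' := fun y z => by rw [inner_add_right]; ring
      map_smul' := fun c y => by rw [inner_smul_right, RingHom.id_apply, smul_eq_mul]; ring }
  have hfl : ∀ x : E2, fl (N.f x) = - x 1 - inner ℝ w N.b := by
    intro x
    show - inner ℝ w (N.A x + N.b) = _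
    rw [inner_add_right, hw, StructC_inner N.A N.iso, StructC_inner_one]
    ring
  obtain ⟨a, ha, b, hb, hdist, hfa, hfb, hseg⟩ := long_face (f := fl) h hqK
    (fun heq => hqp (by
      have := StructC_inj N heq
      have h1 := congrArg (fun z : E2 => z 0) this
      simpa using h1.symm))
    (by
      intro y hy
      obtain ⟨x, rfl⟩ := StructC_surj N y
      rw [hfl, hfl, pt_one]
      have := hup x hy
      linarith)
    (by rw [hfl, hfl, pt_one, pt_one])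
  obtain ⟨a', rfl⟩ := StructC_surj N a
  obtain ⟨b', rfl⟩ := StructC_surj N b
  rw [hfl, hfl, pt_one] at hfa hfb
  have ha1 : a' 1 = 0 := by linarith
  have hb1 : b' 1 = 0 := by linarith
  have hae : a' = pt (a' 0) 0 := StructC_ext (by rw [pt_zero]) (by rw [pt_one, ha1])
  have hbe : b' = pt (b' 0) 0 := StructC_ext (by rw [pt_zero]) (by rw [pt_one, hb1])
  rw [N.dist, StructC_dist, ha1, hb1] at hdist
  have hd : 3 ≤ |a' 0 - b' 0| := by
    rw [show (a' 0 - b' 0) ^ 2 + ((0 : ℝ) - 0) ^ 2 = (a' 0 - b' 0) ^ 2 by ring,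
      Real.sqrt_sq_eq_abs] at hdist
    exact hdist
  obtain ⟨σ, τ, hσ, hτ, hστ, heq⟩ := hseg
  have heq' : N.f (σ • a' + τ • b') = N.f (pt p 0) := by
    rw [← heq]
    show N.A (σ • a' + τ • b') + N.b = σ • (N.A a' + N.b) + τ • (N.A b' + N.b)
    rw [map_add, map_smul, map_smul, smul_add, smul_add]
    have : N.b = σ • N.b + τ • N.b := by rw [← add_smul, hστ, one_smul]
    nth_rewrite 1 [this]
    abel
  have hpp : σ * a' 0 + τ * b' 0 = p := by
    have h1 := congrArg (fun z : E2 => z 0) (StructC_inj N heq')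
    simpa using h1
  rw [hae] at ha
  rw [hbe] at hb
  rcases le_total (a' 0) (b' 0) with hab | hab
  · rw [abs_of_nonpos (by linarith)] at hd
    refine ⟨a' 0, b' 0, by linarith, ?_, ?_, ha, hb⟩
    · have hσe : σ = 1 - τ := by linarith
      rw [hσe] at hpp
      nlinarith
    · have hσe : τ = 1 - σ := by linarith
      rw [hσe] at hpp
      nlinarith
  · rw [abs_of_nonneg (by linarith)] at hd
    refine ⟨b' 0, a' 0, by linarith, ?_, ?_, hb, ha⟩
    · have hσe : τ = 1 - σ := by linarith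
      rw [hσe] at hpp
      nlinarith
    · have hσe : σ = 1 - τ := by linarith
      rw [hσe] at hpp
      nlinarith

private theorem StructC_half (N : Mov) (u : ∀ x, N.f x ∈ K 0 → 0 ≤ x 1) {p q : ℝ} (h : p < q)
    (a₁ : N.f (pt p 0) ∈ K 0) (a₂ : N.f (pt q 0) ∈ K 0) :
    ∃ ρ > 0, ∀ x ∈ ball (pt ((p + q) / 2) 0) ρ, 0 < x 1 → N.f x ∈ T₀ := by
  obtain ⟨z, hz, hz1⟩ := off_line N
  have hzK : N.f z ∈ K 0 := T₀_sub le_rfl (by norm_num) hz
  have hz0 : 0 < z 1 := lt_of_le_of_ne (u z hzK) (Ne.symm hz1)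
  have hcv : Convex ℝ {x | N.f x ∈ K 0} := N.convex (convex_K le_rfl)
  obtain ⟨ρ, hρ, hball⟩ := half_disc hcv (p := (p + q) / 2) (by linarith) (by linarith) a₁ a₂ hzK hz0
  refine ⟨ρ, hρ, fun x hx hx1 => ?_⟩
  have hopen : IsOpen (ball (pt ((p + q) / 2) 0) ρ ∩ {x : E2 | 0 < x 1}) := by
    refine isOpen_ball.inter (isOpen_lt continuous_const ?_)
    exact (continuous_apply 1).comp (PiLp.continuous_ofLp 2 _)
  have hint : x ∈ interior {x | N.f x ∈ K 0} := by
    refine mem_interior.2 ⟨_, ?_, hopen, ⟨hx, hx1⟩⟩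
    rintro y ⟨hy, hy1⟩
    exact hball y hy (le_of_lt hy1)
  rw [N.interior, interior_K_zero] at hint
  exact hint

/-- two different bodies `j, k ≠ i₀` in `x 1 ≥ 0` have no common segment on the line
(`half_disc`, `off_line`, `Mov.interior`, `dis`) -/
theorem no_common (hT : Til M i₀) {j k : Fin m} (hjk : j ≠ k)
    (uj : ∀ x, (M j).f x ∈ K 0 → 0 ≤ x 1) (uk : ∀ x, (M k).f x ∈ K 0 → 0 ≤ x 1)
    {p q : ℝ} (h : p < q) (a₁ : (M j).f (pt p 0) ∈ K 0) (a₂ : (M j).f (pt q 0) ∈ K 0)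
    (b₁ : (M k).f (pt p 0) ∈ K 0) (b₂ : (M k).f (pt q 0) ∈ K 0) : False := by
  obtain ⟨ρ, hρ, hb⟩ := StructC_half (M j) uj h a₁ a₂
  obtain ⟨ρ', hρ', hb'⟩ := StructC_half (M k) uk h b₁ b₂
  set r := min ρ ρ' with hr
  have hr0 : 0 < r := lt_min hρ hρ'
  set z : E2 := pt ((p + q) / 2) (r / 2) with hz
  have hd : dist z (pt ((p + q) / 2) 0) = r / 2 := by
    rw [StructC_dist, hz]
    simp only [pt_zero, pt_one]
    rw [show ((p + q) / 2 - (p + q) / 2) ^ 2 + (r / 2 - 0) ^ 2 = (r / 2) ^ 2 by ring,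
      Real.sqrt_sq (by linarith)]
  have hz1 : 0 < z 1 := by
    rw [hz, pt_one]
    linarith
  have k1 : (M j).f z ∈ T₀ := hb z (by
    rw [mem_ball, hd]
    have := min_le_left ρ ρ'
    linarith) hz1
  have k2 : (M k).f z ∈ T₀ := hb' z (by
    rw [mem_ball, hd]
    have := min_le_right ρ ρ'
    linarith) hz1
  exact hT.dis j k hjk z k1 k2

private theorem StructC_btw (N : Mov) {α β γ : ℝ} (h1 : α ≤ γ) (h2 : γ ≤ β)
    (a : N.f (pt α 0) ∈ K 0) (b : N.f (pt β 0) ∈ K 0) : N.f (pt γ 0) ∈ K 0 := by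
  have hcv : Convex ℝ {x | N.f x ∈ K 0} := N.convex (convex_K le_rfl)
  rcases eq_or_lt_of_le (h1.trans h2) with h | h
  · have : γ = α := by linarith
    rw [this]
    exact a
  · have hpos : 0 < β - α := by linarith
    have hmem := hcv (x := pt α 0) a (y := pt β 0) b (a := (β - γ) / (β - α))
      (b := (γ - α) / (β - α)) (div_nonneg (by linarith) hpos.le) (div_nonneg (by linarith) hpos.le)
      (by rw [← add_div, div_eq_one_iff_eq hpos.ne']; ring)
    have he : ((β - γ) / (β - α)) • pt α 0 + ((γ - α) / (β - α)) • pt β 0 = pt γ 0 := by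
      apply StructC_ext
      · simp only [PiLp.add_apply, PiLp.smul_apply, pt_zero, smul_eq_mul]
        field_simp
        ring
      · simp only [PiLp.add_apply, PiLp.smul_apply, pt_one, smul_eq_mul]
        ring
    rw [he] at hmem
    exact hmem

/-- two intervals do not overlap -/
private theorem StructC_sep (hT : Til M i₀) {j k : Fin m} (hjk : j ≠ k)
    (uj : ∀ x, (M j).f x ∈ K 0 → 0 ≤ x 1) (uk : ∀ x, (M k).f x ∈ K 0 → 0 ≤ x 1)
    {α β α' β' : ℝ} (h : α + 3 ≤ β) (h' : α' + 3 ≤ β')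
    (a₁ : (M j).f (pt α 0) ∈ K 0) (a₂ : (M j).f (pt β 0) ∈ K 0)
    (b₁ : (M k).f (pt α' 0) ∈ K 0) (b₂ : (M k).f (pt β' 0) ∈ K 0) : β ≤ α' ∨ β' ≤ α := by
  by_contra hcon
  push Not at hcon
  obtain ⟨c1, c2⟩ := hcon
  have hlt : max α α' < min β β' := by
    rw [max_lt_iff, lt_min_iff, lt_min_iff]
    exact ⟨⟨by linarith, c2⟩, ⟨c1, by linarith⟩⟩
  have e1 := le_max_left α α'
  have e2 := le_max_right α α'
  have e3 := min_le_left β β'
  have e4 := min_le_right β β'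
  exact no_common hT hjk uj uk hlt
    (StructC_btw _ e1 (by linarith) a₁ a₂) (StructC_btw _ (by linarith) e3 a₁ a₂)
    (StructC_btw _ e2 (by linarith) b₁ b₂) (StructC_btw _ (by linarith) e4 b₁ b₂)

/-- **Structure theorem**: three bodies different from `i₀` cannot meet the open side: the three
intervals of `long_int` have disjoint interiors (`no_common`, convexity), each has length `≥ 3` and
meets `(-3/2, 3/2)`; the middle one would be too short. -/
theorem structure_three (hT : Til M i₀) {j₁ j₂ j₃ : Fin m}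
    (h₁ : j₁ ≠ i₀) (h₂ : j₂ ≠ i₀) (h₃ : j₃ ≠ i₀) (h₁₂ : j₁ ≠ j₂) (h₁₃ : j₁ ≠ j₃) (h₂₃ : j₂ ≠ j₃)
    {y₁ y₂ y₃ : E2} (o₁ : y₁ ∈ op) (o₂ : y₂ ∈ op) (o₃ : y₃ ∈ op)
    (k₁ : (M j₁).f y₁ ∈ K 0) (k₂ : (M j₂).f y₂ ∈ K 0) (k₃ : (M j₃).f y₃ ∈ K 0) : False := by
  have hy : ∀ y ∈ op, y = pt (y 0) 0 := fun y hy =>
    StructC_ext (by rw [pt_zero]) (by rw [pt_one]; exact hy.2)
  rw [hy y₁ o₁] at k₁
  rw [hy y₂ o₂] at k₂
  rw [hy y₃ o₃] at k₃
  have p₁ := abs_lt.1 o₁.1
  have p₂ := abs_lt.1 o₂.1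
  have p₃ := abs_lt.1 o₃.1
  obtain ⟨α₁, β₁, l₁, c₁, d₁, a₁, b₁⟩ := long_int hT h₁ o₁.1 k₁
  obtain ⟨α₂, β₂, l₂, c₂, d₂, a₂, b₂⟩ := long_int hT h₂ o₂.1 k₂
  obtain ⟨α₃, β₃, l₃, c₃, d₃, a₃, b₃⟩ := long_int hT h₃ o₃.1 k₃
  have u₁ := StructC_up hT h₁ o₁.1 k₁
  have u₂ := StructC_up hT h₂ o₂.1 k₂
  have u₃ := StructC_up hT h₃ o₃.1 k₃
  have s₁₂ := StructC_sep hT h₁₂ u₁ u₂ l₁ l₂ a₁ b₁ a₂ b₂
  have s₁₃ := StructC_sep hT h₁₃ u₁ u₃ l₁ l₃ a₁ b₁ a₃ b₃
  have s₂₃ := StructC_sep hT h₂₃ u₂ u₃ l₂ l₃ a₂ b₂ a₃ b₃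
  rcases s₁₂ with e | e <;> rcases s₁₃ with e' | e' <;> rcases s₂₃ with e'' | e'' <;>
    linarith [p₁.1, p₁.2, p₂.1, p₂.2, p₃.1, p₃.2]

end Pool.Cyl
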