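import Pool.Agent.W_0c5e58_h33.LocArea
import Pool.Agent.W_0c5e58_h33.Mov

/-!
# At most two other bodies at a point of the open side
-/

open MeasureTheory Metric Set Filter
open scoped Topology ENNReal

namespace Pool.Cyl

open Pool.TC

variable {m : ℕ} {M : Fin m → Mov} {i₀ : Fin m}

/-- `volume ({x | (M j).f x ∈ K 0} ∩ ball y ρ) = volume (K 0 ∩ ball ((M j).f y) ρ)`
(`Mov.vol` for `K 0 ∩ ball ((M j).f y) ρ`, `Mov.dist`) -/
theorem vol_moved (N : Mov) (y : E2) (ρ : ℝ) :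
    volume (N.body 0 ∩ ball y ρ) = volume (K 0 ∩ ball (N.f y) ρ) := by
  have h1 : N.body 0 ∩ ball y ρ = {x | N.f x ∈ K 0 ∩ ball (N.f y) ρ} := by
    ext x
    constructor
    · rintro ⟨h, h'⟩
      exact ⟨h, by rw [mem_ball, N.dist]; exact h'⟩
    · rintro ⟨h, h'⟩
      exact ⟨h, by rw [mem_ball, N.dist] at h'; exact h'⟩
  rw [h1, N.vol ((isClosed_K 0).measurableSet.inter isOpen_ball.measurableSet)]

/-- two different bodies of a tiling overlap in a null set (`null_bdry`, `Mov.vol`, `dis`) -/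
theorem null_inter (hT : Til M i₀) {j k : Fin m} (hjk : j ≠ k) :
    volume ((M j).body 0 ∩ (M k).body 0) = 0 := by
  have hmeas : MeasurableSet (K 0 \ T₀) :=
    (isClosed_K 0).measurableSet.diff isOpen_T₀.measurableSet
  have h0 : ∀ i, volume {x | (M i).f x ∈ K 0 \ T₀} = 0 := by
    intro i
    rw [(M i).vol hmeas, null_bdry]
  refine measure_mono_null (t := {x | (M j).f x ∈ K 0 \ T₀} ∪ {x | (M k).f x ∈ K 0 \ T₀}) ?_
    (measure_union_null (h0 j) (h0 k))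
  rintro x ⟨hj, hk⟩
  by_cases h : (M j).f x ∈ T₀
  · exact Or.inr ⟨hk, hT.dis j k hjk x h⟩
  · exact Or.inl ⟨hj, h⟩

/-- At a point `y` of the open side at most two bodies different from `i₀` contain `y`.
Choose `ρ ≤ 1/2` smaller than the `ρ₀` of `loc_area` of all bodies containing `y` and smaller than
the distances from `y` to the (closed) bodies not containing `y`.  Then
`π ρ² = volume (ball y ρ) = ∑_{j, y ∈ body j} volume (body j ∩ ball y ρ) = ρ² ∑ w j`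
(`measure_biUnion_finset₀`, `vol_disc`), the body `i₀` has `w = π/2` (`loc_area_side`), so the
others have sum `π/2`: `sum_weights`. -/
theorem three_at_point (hT : Til M i₀) {y : E2} (hy : y ∈ op) {j₁ j₂ j₃ : Fin m}
    (h₁ : j₁ ≠ i₀) (h₂ : j₂ ≠ i₀) (h₃ : j₃ ≠ i₀) (h₁₂ : j₁ ≠ j₂) (h₁₃ : j₁ ≠ j₃) (h₂₃ : j₂ ≠ j₃)
    (k₁ : (M j₁).f y ∈ K 0) (k₂ : (M j₂).f y ∈ K 0) (k₃ : (M j₃).f y ∈ K 0) : False := by
  classical
  have hyK : y ∈ K 0 := by
    rw [mem_K_zero, hy.2]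
    refine ⟨by norm_num, le_refl _, ?_⟩
    have := hy.1
    simpa using this.le
  have hi₀ : (M i₀).f y ∈ K 0 := by rw [hT.id]; exact hyK
  have hw : ∀ j, ∃ w : ℝ, (M j).f y ∈ K 0 →
      (w = wa ∨ w = Real.pi / 2 - wa ∨ w = Real.pi / 2 ∨ w = Real.pi) ∧
      ∃ ρ₀ > 0, ∀ ρ, 0 < ρ → ρ < ρ₀ →
        volume (K 0 ∩ ball ((M j).f y) ρ) = ENNReal.ofReal (w * ρ ^ 2) := by
    intro j
    by_cases h : (M j).f y ∈ K 0
    · obtain ⟨w, h1, h2⟩ := loc_area h
      exact ⟨w, fun _ => ⟨h1, h2⟩⟩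
    · exact ⟨0, fun h' => absurd h' h⟩
  choose w hw using hw
  have hgood : ∀ j, ∀ᶠ ρ in 𝓝[>] (0 : ℝ),
      ((M j).f y ∈ K 0 → volume (K 0 ∩ ball ((M j).f y) ρ) = ENNReal.ofReal (w j * ρ ^ 2)) ∧
      ((M j).f y ∉ K 0 → ∀ x ∈ ball y ρ, (M j).f x ∉ K 0) := by
    intro j
    by_cases h : (M j).f y ∈ K 0
    · obtain ⟨_, ρ₀, h0, h1⟩ := hw j h
      filter_upwards [Ioo_mem_nhdsGT h0] with ρ hρ
      exact ⟨fun _ => h1 ρ hρ.1 hρ.2, fun h' => absurd h h'⟩
    · have ho : IsOpen {x | (M j).f x ∉ K 0} :=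
        (isClosed_K 0).isOpen_compl.preimage (M j).cont
      obtain ⟨ε, h0, h1⟩ := Metric.isOpen_iff.1 ho y h
      filter_upwards [Ioo_mem_nhdsGT h0] with ρ hρ
      exact ⟨fun h' => absurd h' h, fun _ x hx => h1 (ball_subset_ball hρ.2.le hx)⟩
  obtain ⟨ρs, hρs0, hρs⟩ := loc_area_side hy.1 hy.2
  have hev1 : ∀ᶠ ρ in 𝓝[>] (0 : ℝ), ρ ∈ Ioo 0 ρs := Ioo_mem_nhdsGT hρs0
  have hev2 : ∀ᶠ ρ in 𝓝[>] (0 : ℝ), ρ ∈ Ioo (0 : ℝ) (1 / 2) := Ioo_mem_nhdsGT (by norm_num)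
  have hall := (eventually_all.2 hgood).and (hev1.and hev2)
  obtain ⟨ρ, hg, ⟨hρ0, hρ1⟩, ⟨_, hρ2⟩⟩ := hall.exists
  -- the bodies at the point
  set J : Finset (Fin m) := Finset.univ.filter fun j => (M j).f y ∈ K 0 with hJ
  have hmemJ : ∀ j, j ∈ J ↔ (M j).f y ∈ K 0 := by intro j; simp [hJ]
  have hsub : ball y ρ ⊆ ball (0 : E2) 2 := by
    intro x hx
    rw [mem_ball, dist_zero_right]
    have e1 : ‖y‖ < 3 / 2 := by
      have e2 : ‖y‖ ^ 2 = (y 0) ^ 2 + (y 1) ^ 2 := by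
        rw [EuclideanSpace.norm_sq_eq, Fin.sum_univ_two]
        simp only [Real.norm_eq_abs, sq_abs]
      rw [hy.2] at e2
      have e3 : (y 0) ^ 2 < (3 / 2) ^ 2 := by
        rw [← sq_abs]
        exact pow_lt_pow_left₀ hy.1 (abs_nonneg _) (by norm_num)
      refine lt_of_pow_lt_pow_left₀ 2 (by norm_num) ?_
      rw [e2]
      linarith
    rw [mem_ball, dist_eq_norm] at hx
    have e4 : ‖x‖ ≤ ‖x - y‖ + ‖y‖ := by
      have := norm_add_le (x - y) y
      rwa [sub_add_cancel] at this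
    linarith
  have hcov : ball y ρ = ⋃ j ∈ J, ((M j).body 0 ∩ ball y ρ) := by
    ext x
    simp only [mem_iUnion, exists_prop]
    constructor
    · intro hx
      obtain ⟨j, hj⟩ := hT.cov x (hsub hx)
      refine ⟨j, ?_, hj, hx⟩
      rw [hmemJ]
      by_contra h
      exact (hg j).2 h x hx hj
    · rintro ⟨j, _, _, hx⟩
      exact hx
  have hvol : volume (ball y ρ) = ∑ j ∈ J, volume ((M j).body 0 ∩ ball y ρ) := by
    conv_lhs => rw [hcov]
    refine measure_biUnion_finset₀ ?_ ?_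
    · intro j _ k _ hjk
      refine measure_mono_null ?_ (null_inter hT hjk)
      rintro x ⟨⟨h, _⟩, ⟨h', _⟩⟩
      exact ⟨h, h'⟩
    · intro j _
      exact (((isClosed_K 0).preimage (M j).cont).measurableSet.inter
        isOpen_ball.measurableSet).nullMeasurableSet
  have hwpos : ∀ j ∈ J, 0 < w j := by
    intro j hj
    have hpi := Real.pi_pos
    rcases (hw j ((hmemJ j).1 hj)).1 with h | h | h | h
    · rw [h]; exact wa_pos
    · rw [h]
      have := wa_lt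
      linarith
    · rw [h]; positivity
    · rw [h]; exact hpi
  have hsum : ∑ j ∈ J, w j = Real.pi := by
    have e1 : ∑ j ∈ J, volume ((M j).body 0 ∩ ball y ρ) =
        ENNReal.ofReal (∑ j ∈ J, w j * ρ ^ 2) := by
      rw [ENNReal.ofReal_sum_of_nonneg fun j hj => mul_nonneg (hwpos j hj).le (sq_nonneg ρ)]
      refine Finset.sum_congr rfl fun j hj => ?_
      rw [vol_moved, (hg j).1 ((hmemJ j).1 hj)]
    rw [e1, vol_disc y hρ0.le] at hvol
    have e2 := (ENNReal.ofReal_eq_ofReal_iff (by positivity)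
      (Finset.sum_nonneg fun j hj => mul_nonneg (hwpos j hj).le (sq_nonneg ρ))).1 hvol
    rw [← Finset.sum_mul] at e2
    exact (mul_right_cancel₀ (by positivity) e2).symm
  have hwi : w i₀ = Real.pi / 2 := by
    have e1 := (hg i₀).1 hi₀
    rw [hT.id, hρs ρ hρ0 hρ1] at e1
    have e2 := (ENNReal.ofReal_eq_ofReal_iff (by positivity)
      (mul_nonneg (hwpos i₀ ((hmemJ i₀).2 hi₀)).le (sq_nonneg ρ))).1 e1
    exact (mul_right_cancel₀ (by positivity) e2).symm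
  have hsum' : ∑ j ∈ J.erase i₀, w j = Real.pi / 2 := by
    have := Finset.add_sum_erase J w ((hmemJ i₀).2 hi₀)
    rw [hsum, hwi] at this
    linarith
  have hcard := sum_weights (J.erase i₀) w (fun j hj =>
    (hw j ((hmemJ j).1 (Finset.mem_of_mem_erase hj))).1) hsum'
  have h3 : ({j₁, j₂, j₃} : Finset (Fin m)) ⊆ J.erase i₀ := by
    intro j hj
    simp only [Finset.mem_insert, Finset.mem_singleton] at hj
    rcases hj with rfl | rfl | rfl
    · exact Finset.mem_erase.2 ⟨h₁, (hmemJ _).2 k₁⟩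
    · exact Finset.mem_erase.2 ⟨h₂, (hmemJ _).2 k₂⟩
    · exact Finset.mem_erase.2 ⟨h₃, (hmemJ _).2 k₃⟩
  have h4 := Finset.card_le_card h3
  rw [Finset.card_eq_three.2 ⟨j₁, j₂, j₃, h₁₂, h₁₃, h₂₃, rfl⟩] at h4
  omega

end Pool.Cyl
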