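import Pool.Agent.W_0c5e58_h33.KBasic

/-!
# Areas

The proofs are in `KBasic.lean` (namespace `Pool.Cyl.KB`).
-/

open MeasureTheory Metric Set Filter
open scoped Topology ENNReal

namespace Pool.Cyl

open Pool.TC

/-- The map `E2 → ℝ × ℝ`, `x ↦ (x 0, x 1)` is measure preserving. -/
theorem mp_prod : MeasurePreserving (fun x : E2 => (x 0, x 1)) volume volume := KB.mp_coord

/-- `|K s| = 3/32 + 2 s` -/
theorem vol_K {s : ℝ} (hs : 0 < s) (hs' : s ≤ 1 / 100) :
    volume (K s) = ENNReal.ofReal (3 / 32 + 2 * s) := KB.vol_K hs.le (by linarith)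

/-- `|H s| = 3/32 + 9 s / 4` -/
theorem vol_H {s : ℝ} (hs : 0 < s) (hs' : s ≤ 1 / 100) :
    volume (H s) = ENNReal.ofReal (3 / 32 + 9 / 4 * s) := by
  rw [KB.vol_H hs.le (by linarith)]
  congr 1
  ring

end Pool.Cyl
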